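import Pool.Agent.EinG.GHat

/-!
# Transfer of the gap to the complement

As in `EinU/Trans.lean` (copy its private lemmas, `BaseH` replaced by `BaseG`).  Let `Z = UU C S α̂`, `α̂ = blk κ α`; it is symmetric
and invariant under `Γ` (`UU_inv` with `hB.inv`), so `Z pp = pp Z` (`hB.cp`), `‖Z‖ ≤ c ‖α‖`.
`W = (1/(2 lam)) (Ph Z + Z Ph - Ph Z Ph)` is symmetric and invariant under `Γ` (`M Ph Mᵀ = Ph`, `M Mᵀ = 1`), `pp W = W pp = 0`
(`Ph pp = 0`).  `β' = α̂ + W` is invariant, `‖α‖ ≤ ‖β'‖`.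
`ellG (α̂ + W) = ellG α̂ - (1/2) S AA(W) S + (1/2) UU C S W - lam W`, since `W (S D) = W (pp S D) = 0` (`D = D pp = pp D`), and
`ellG α̂ - lam W = Q (ellG α̂) Q` with `Q = 1 - Ph`: the other terms of `ellG α̂` are not changed by `Q · Q`:
`Q (S D) = Q (pp S D) = S D`, `AA(α̂) = pp AA(α̂) pp`, `S pp = pp S`, `Q pp = pp`.
`‖(1/2) UU C S W‖ ≤ (3/4) c³ τ ‖α‖`, `‖AA(W)‖ ≤ 3 c⁴ τ ‖α‖`, `‖(1/2) S AA(W) S‖ ≤ (3/2) c⁶ τ ‖α‖`; so
`‖α‖ ≤ ‖β'‖ ≤ K (‖(ellG α̂)₂₂‖ + 3 c⁶ τ ‖α‖)`, and `3 K c⁶ τ ≤ 1/2`.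
-/

set_option linter.unusedSectionVars false

namespace Pool.Agent.EinG

open Matrix Pool.Agent.EStab Pool.Agent.EinS Pool.Agent.SmIso Pool.Agent.EinU
open scoped Matrix.Norms.L2Operator

variable {κ ι : Type*} [Fintype κ] [DecidableEq κ] [Fintype ι] [DecidableEq ι]
  {C : κ ⊕ ι → Matrix (κ ⊕ ι) (κ ⊕ ι) ℝ} {Γ : Set (Matrix (κ ⊕ ι) (κ ⊕ ι) ℝ)}
  {S T pp D : Matrix (κ ⊕ ι) (κ ⊕ ι) ℝ} {c τ lam eps : ℝ}

private theorem TransG_PhT : (Ph κ ι)ᵀ = Ph κ ι := by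
  unfold Ph
  rw [Matrix.fromBlocks_transpose]
  simp

private theorem TransG_PhPh : Ph κ ι * Ph κ ι = Ph κ ι := by
  unfold Ph
  rw [Matrix.fromBlocks_multiply]
  simp

private theorem TransG_blk (X : Matrix (κ ⊕ ι) (κ ⊕ ι) ℝ) :
    (1 - Ph κ ι) * X * (1 - Ph κ ι) = blk κ X.toBlocks₂₂ := by
  have h1 : (1 - Ph κ ι : Matrix (κ ⊕ ι) (κ ⊕ ι) ℝ) = fromBlocks 0 0 0 1 := by
    unfold Ph
    rw [← Matrix.fromBlocks_one, sub_eq_iff_eq_add, Matrix.fromBlocks_add]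
    simp
  rw [h1]
  conv_lhs => rw [← Matrix.fromBlocks_toBlocks X]
  rw [Matrix.fromBlocks_multiply, Matrix.fromBlocks_multiply]
  unfold blk
  simp

private theorem TransG_22 (α : Matrix ι ι ℝ) : (blk κ α).toBlocks₂₂ = α := rfl

private theorem TransG_blk_mul (α β : Matrix ι ι ℝ) : blk κ α * blk κ β = blk κ (α * β) := by
  unfold blk
  rw [Matrix.fromBlocks_multiply]
  simp

private theorem TransG_Ph_blk (α : Matrix ι ι ℝ) : Ph κ ι * blk κ α = 0 := by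
  unfold blk Ph
  rw [Matrix.fromBlocks_multiply]
  simp

private theorem TransG_blk_Ph (α : Matrix ι ι ℝ) : blk κ α * Ph κ ι = 0 := by
  unfold blk Ph
  rw [Matrix.fromBlocks_multiply]
  simp

private theorem TransG_blkT {α : Matrix ι ι ℝ} (hα : α.IsSymm) : (blk κ α).IsSymm := by
  unfold blk Matrix.IsSymm
  rw [Matrix.fromBlocks_transpose, hα.eq]
  simp

/-- the correction term -/
private def TransG_W (Z : Matrix (κ ⊕ ι) (κ ⊕ ι) ℝ) : Matrix (κ ⊕ ι) (κ ⊕ ι) ℝ :=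
  Ph κ ι * Z + Z * Ph κ ι - Ph κ ι * Z * Ph κ ι

private theorem TransG_W_eq (Z : Matrix (κ ⊕ ι) (κ ⊕ ι) ℝ) :
    TransG_W Z = Z - (1 - Ph κ ι) * Z * (1 - Ph κ ι) := by
  unfold TransG_W
  noncomm_ring

private theorem TransG_W_symm {Z : Matrix (κ ⊕ ι) (κ ⊕ ι) ℝ} (hZ : Z.IsSymm) :
    (TransG_W Z).IsSymm := by
  unfold TransG_W Matrix.IsSymm
  rw [Matrix.transpose_sub, Matrix.transpose_add, Matrix.transpose_mul, Matrix.transpose_mul,
    Matrix.transpose_mul, Matrix.transpose_mul, hZ.eq, TransG_PhT, add_comm, Matrix.mul_assoc]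

private theorem TransG_W_22 (Z : Matrix (κ ⊕ ι) (κ ⊕ ι) ℝ) : (TransG_W Z).toBlocks₂₂ = 0 := by
  have h1 : (1 - Ph κ ι) * TransG_W Z * (1 - Ph κ ι) = 0 := by
    have h2 : (1 - Ph κ ι) * Ph κ ι = 0 := by
      rw [Matrix.sub_mul, Matrix.one_mul, TransG_PhPh, sub_self]
    have h3 : Ph κ ι * (1 - Ph κ ι) = 0 := by
      rw [Matrix.mul_sub, Matrix.mul_one, TransG_PhPh, sub_self]
    have h4 : (1 - Ph κ ι) * TransG_W Z * (1 - Ph κ ι) =
        ((1 - Ph κ ι) * Ph κ ι) * Z * (1 - Ph κ ι) + (1 - Ph κ ι) * Z * (Ph κ ι * (1 - Ph κ ι)) -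
          ((1 - Ph κ ι) * Ph κ ι) * Z * (Ph κ ι * (1 - Ph κ ι)) := by
      unfold TransG_W
      noncomm_ring
    rw [h4, h2, h3]
    simp
  rw [TransG_blk] at h1
  have h5 := congrArg Matrix.toBlocks₂₂ h1
  rw [TransG_22] at h5
  rw [h5]
  rfl

private theorem TransG_bd (hB : BaseG C Γ S T pp D c τ lam eps) {R V Z : Matrix (κ ⊕ ι) (κ ⊕ ι) ℝ}
    (hR : R.IsSymm) {r z : ℝ} (hRn : ‖R‖ ≤ r) (hRe : Eta C (R * Ph κ ι) τ) (hV : V.IsSymm)
    (hVn : ‖V‖ ≤ c) (hZ : Z.IsSymm) (hz : ‖Z‖ ≤ z) :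
    ‖UU C (R * TransG_W Z * R) V‖ ≤ 3 * (c * τ * (r * z)) := by
  have hτ : 0 ≤ τ := hB.eh.1
  have hr : 0 ≤ r := (norm_nonneg _).trans hRn
  have hz0 : 0 ≤ z := (norm_nonneg _).trans hz
  have hc0 : 0 ≤ c := (norm_nonneg _).trans hVn
  have h1 : ‖R * Z‖ ≤ r * z := (norm_mul_le _ _).trans (mul_le_mul hRn hz (norm_nonneg _) hr)
  have h2 : ‖R * Ph κ ι * Z‖ ≤ r * z := by
    refine (norm_mul_le _ _).trans (mul_le_mul ?_ hz (norm_nonneg _) hr)
    refine (norm_mul_le _ _).trans ?_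
    calc ‖R‖ * ‖(Ph κ ι : Matrix (κ ⊕ ι) (κ ⊕ ι) ℝ)‖ ≤ r * 1 :=
          mul_le_mul hRn norm_Ph_le (norm_nonneg _) hr
      _ = r := mul_one r
  have h3 : Eta C (R * Z) (r * z) := (eta_of_norm hB.one _).mono h1
  have h4 : Eta C (R * Ph κ ι * Z) (r * z) := (eta_of_norm hB.one _).mono h2
  have h5 : R * TransG_W Z * R = (R * Ph κ ι) * (R * Z)ᵀ + (R * Z) * (R * Ph κ ι)ᵀ +
      (-1 : ℝ) • ((R * Ph κ ι) * (R * Ph κ ι * Z)ᵀ) := by
    rw [Matrix.transpose_mul, Matrix.transpose_mul, Matrix.transpose_mul, Matrix.transpose_mul,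
      hR.eq, hZ.eq, TransG_PhT]
    unfold TransG_W
    rw [neg_one_smul]
    noncomm_ring
  have hs : (R * TransG_W Z * R).IsSymm := by
    unfold Matrix.IsSymm
    rw [Matrix.transpose_mul, Matrix.transpose_mul, hR.eq, (TransG_W_symm hZ).eq, Matrix.mul_assoc]
  have h6 : ∀ v : κ ⊕ ι → ℝ, ‖V‖ * τ * (r * z) * (v ⬝ᵥ v) ≤ c * τ * (r * z) * (v ⬝ᵥ v) := by
    intro v
    refine mul_le_mul_of_nonneg_right ?_ (dot_self_nonneg v)
    refine mul_le_mul_of_nonneg_right ?_ (mul_nonneg hr hz0)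
    exact mul_le_mul_of_nonneg_right hVn hτ
  refine norm_UU_of_qf hs hV (by positivity) fun v => ?_
  rw [h5, qf_add, qf_add, qf_smul]
  have h7 := qf_le hRe h3 V v
  have h8 := qf_le h3 hRe V v
  have h9 := qf_le hRe h4 V v
  have h10 := h6 v
  have h11 : ‖V‖ * (r * z) * τ * (v ⬝ᵥ v) = ‖V‖ * τ * (r * z) * (v ⬝ᵥ v) := by ring
  rw [h11] at h8
  have h12 := abs_le.1 h7
  have h13 := abs_le.1 h8
  have h14 := abs_le.1 h9
  rw [abs_le]
  constructor <;> linarith [h12.1, h12.2, h13.1, h13.2, h14.1, h14.2]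

private theorem TransG_dist (Q a b e d : Matrix (κ ⊕ ι) (κ ⊕ ι) ℝ) (x y z w : ℝ) :
    Q * (x • a - y • b + z • e - w • d) * Q =
      x • (Q * a * Q) - y • (Q * b * Q) + z • (Q * e * Q) - w • (Q * d * Q) := by
  rw [Matrix.mul_sub, Matrix.mul_add, Matrix.mul_sub, Matrix.sub_mul, Matrix.add_mul,
    Matrix.sub_mul]
  simp only [Matrix.mul_smul, Matrix.smul_mul]

private theorem TransG_W_inv {M Z : Matrix (κ ⊕ ι) (κ ⊕ ι) ℝ} (hM : M * Mᵀ = 1)
    (hP : M * Ph κ ι * Mᵀ = Ph κ ι) (hZ : M * Z * Mᵀ = Z) :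
    M * TransG_W Z * Mᵀ = TransG_W Z := by
  have hM' : Mᵀ * M = 1 := mul_eq_one_comm.1 hM
  have h1 : ∀ X Y : Matrix (κ ⊕ ι) (κ ⊕ ι) ℝ, M * (X * Y) * Mᵀ = (M * X * Mᵀ) * (M * Y * Mᵀ) := by
    intro X Y
    have : (M * X * Mᵀ) * (M * Y * Mᵀ) = M * X * (Mᵀ * M) * Y * Mᵀ := by
      simp only [Matrix.mul_assoc]
    rw [this, hM', Matrix.mul_one]
    simp only [Matrix.mul_assoc]
  unfold TransG_W
  rw [Matrix.mul_sub, Matrix.sub_mul, Matrix.mul_add, Matrix.add_mul, h1, h1, h1, h1, hP, hZ]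

theorem gapG_trans (hB : BaseG C Γ S T pp D c τ lam eps) {K : ℝ} (hK : 1 ≤ K)
    (hgap : GapG C Γ S T D lam K) (hτ : 6 * K * c ^ 6 * τ ≤ 1) {α : Matrix ι ι ℝ}
    (hα : α.IsSymm) (hcl : ∀ M ∈ Γ, M * blk κ α * Mᵀ = blk κ α) :
    ‖α‖ ≤ 2 * K * ‖(ellG C S T D lam (blk κ α)).toBlocks₂₂‖ := by
  have hc1 := hB.c1
  have hc0 : 0 < c := by linarith
  have hτ0 : 0 ≤ τ := hB.eh.1
  have hl := hB.la
  have hAs : (blk κ α).IsSymm := TransG_blkT hα
  have hAn : ‖blk κ α‖ ≤ ‖α‖ := norm_blk_le hα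
  have hα0 : 0 ≤ ‖α‖ := norm_nonneg _
  have h11 : ∀ v : κ ⊕ ι → ℝ, v ⬝ᵥ (UU C 1 1 *ᵥ v) ≤ v ⬝ᵥ v := by
    intro v
    rw [hB.one, Matrix.one_mulVec]
  have hpD : pp * D = D := by
    have h := congrArg Matrix.transpose hB.Dpp
    rwa [Matrix.transpose_mul, hB.symp.eq, hB.symD.eq] at h
  have hppPh : pp * Ph κ ι = 0 := by
    have h := congrArg Matrix.transpose hB.hpp
    rwa [Matrix.transpose_mul, hB.symp.eq, TransG_PhT, Matrix.transpose_zero] at h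
  have hQp : (1 - Ph κ ι) * pp = pp := by
    rw [Matrix.sub_mul, Matrix.one_mul, hB.hpp, sub_zero]
  have hpQ : pp * (1 - Ph κ ι) = pp := by
    rw [Matrix.mul_sub, Matrix.mul_one, hppPh, sub_zero]
  have hAp : blk κ α * pp = pp * blk κ α := hB.cp _ hAs hcl
  obtain ⟨Z, hZ⟩ : ∃ Z, Z = UU C S (blk κ α) := ⟨_, rfl⟩
  have hZs : Z.IsSymm := hZ ▸ UU_symm C hB.symS hAs
  have hZn : ‖Z‖ ≤ c * ‖α‖ := by
    rw [hZ]
    exact (norm_UU_le h11 hB.symS hAs).trans (mul_le_mul hB.nS hAn (norm_nonneg _) hc0.le)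
  have hZi : ∀ M ∈ Γ, M * Z * Mᵀ = Z := by
    intro M hM
    obtain ⟨hci, hMS, _⟩ := hB.inv M hM
    rw [hZ]
    exact UU_inv hci.1 hci.1 hci.2 hMS (hcl M hM)
  have hZp : Z * pp = pp * Z := hB.cp _ hZs hZi
  -- the correction
  obtain ⟨W, hW⟩ : ∃ W, W = (1 / (2 * lam)) • TransG_W Z := ⟨_, rfl⟩
  have hWs : W.IsSymm := by
    unfold Matrix.IsSymm
    rw [hW, Matrix.transpose_smul, (TransG_W_symm hZs).eq]
  have hWi : ∀ M ∈ Γ, M * W * Mᵀ = W := by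
    intro M hM
    obtain ⟨hci, _, hMP⟩ := hB.inv M hM
    rw [hW, Matrix.mul_smul, Matrix.smul_mul, TransG_W_inv hci.1 hMP (hZi M hM)]
  have hWp : W * pp = 0 := by
    rw [hW, Matrix.smul_mul]
    have h1 : TransG_W Z * pp = 0 := by
      unfold TransG_W
      rw [Matrix.sub_mul, Matrix.add_mul, Matrix.mul_assoc (Ph κ ι * Z), Matrix.mul_assoc Z,
        hB.hpp, Matrix.mul_assoc (Ph κ ι), hZp, ← Matrix.mul_assoc (Ph κ ι), hB.hpp]
      simp
    rw [h1, smul_zero]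
  have hpW : pp * W = 0 := by
    have h := congrArg Matrix.transpose hWp
    rwa [Matrix.transpose_mul, hB.symp.eq, hWs.eq, Matrix.transpose_zero] at h
  have hSDW : S * D * W = 0 := by
    rw [← hB.Dpp, ← Matrix.mul_assoc, Matrix.mul_assoc, hpW, Matrix.mul_zero]
  have hWSD : W * (S * D) = 0 := by
    rw [hB.SD, ← hpD, Matrix.mul_assoc, ← Matrix.mul_assoc, hWp, Matrix.zero_mul]
  have hb : ‖blk κ α + W‖ ≤ K * ‖ellG C S T D lam (blk κ α + W)‖ := by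
    refine hgap _ ?_ ?_
    · unfold Matrix.IsSymm
      rw [Matrix.transpose_add, hAs.eq, hWs.eq]
    · intro M hM
      rw [Matrix.mul_add, Matrix.add_mul, hcl M hM, hWi M hM]
  have hlow : ‖α‖ ≤ ‖blk κ α + W‖ := by
    have h1 : (blk κ α + W).toBlocks₂₂ = α := by
      have h2 : (blk κ α + W).toBlocks₂₂ = (blk κ α).toBlocks₂₂ + W.toBlocks₂₂ := rfl
      have h3 : W.toBlocks₂₂ = (1 / (2 * lam)) • (TransG_W Z).toBlocks₂₂ := by
        rw [hW]
        rfl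
      rw [h2, h3, TransG_W_22, smul_zero, add_zero, TransG_22]
    have h2 : (blk κ α + W).IsSymm := by
      unfold Matrix.IsSymm
      rw [Matrix.transpose_add, hAs.eq, hWs.eq]
    have h3 := norm_blocks_le h2
    rwa [h1] at h3
  -- the bounds of the error
  have hTe : Eta C (T * Ph κ ι) τ := hB.eT
  have h1e : Eta C (1 * Ph κ ι) τ := by
    rw [Matrix.one_mul]
    exact hB.eh
  have hone : ‖(1 : Matrix (κ ⊕ ι) (κ ⊕ ι) ℝ)‖ ≤ 1 := by
    refine norm_le_of_quad Matrix.isSymm_one zero_le_one fun x => ?_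
    rw [Matrix.one_mulVec, abs_of_nonneg (dot_self_nonneg x), one_mul]
  have hla : 1 / (2 * lam) ≤ c / 2 := by
    have h1 := hB.la'
    have h2 : 1 / (2 * lam) = 1 / lam / 2 := by
      field_simp
    rw [h2]
    linarith
  have hla0 : 0 ≤ 1 / (2 * lam) := by positivity
  have hUW : ∀ V : Matrix (κ ⊕ ι) (κ ⊕ ι) ℝ, V.IsSymm → ‖V‖ ≤ c →
      ‖UU C V W‖ ≤ 3 / 2 * c ^ 3 * τ * ‖α‖ := by
    intro V hV hVn
    have h1 := TransG_bd hB (R := 1) Matrix.isSymm_one hone h1e hV hVn hZs hZn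
    rw [Matrix.one_mul, Matrix.mul_one] at h1
    rw [UU_comm hB.csym hV hWs, hW, UU_smul_left, norm_smul, Real.norm_of_nonneg hla0]
    calc 1 / (2 * lam) * ‖UU C (TransG_W Z) V‖ ≤ c / 2 * (3 * (c * τ * (1 * (c * ‖α‖)))) :=
          mul_le_mul hla h1 (norm_nonneg _) (by positivity)
      _ = 3 / 2 * c ^ 3 * τ * ‖α‖ := by ring
  have hUT : ‖UU C (T * W * T) S‖ ≤ 3 / 2 * c ^ 4 * τ * ‖α‖ := by
    have h1 := TransG_bd hB (R := T) hB.symT hB.nT hTe hB.symS hB.nS hZs hZn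
    have h2 : T * W * T = (1 / (2 * lam)) • (T * TransG_W Z * T) := by
      rw [hW, Matrix.mul_smul, Matrix.smul_mul]
    rw [h2, UU_smul_left, norm_smul, Real.norm_of_nonneg hla0]
    calc 1 / (2 * lam) * ‖UU C (T * TransG_W Z * T) S‖ ≤
          c / 2 * (3 * (c * τ * (c * (c * ‖α‖)))) :=
          mul_le_mul hla h1 (norm_nonneg _) (by positivity)
      _ = 3 / 2 * c ^ 4 * τ * ‖α‖ := by ring
  have hAA : ‖AA C S T W‖ ≤ 3 * c ^ 4 * τ * ‖α‖ := by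
    unfold AA
    refine (norm_sub_le _ _).trans ?_
    have h1 := hUW T hB.symT hB.nT
    have h2 : c ^ 3 * (τ * ‖α‖) ≤ c ^ 4 * (τ * ‖α‖) :=
      mul_le_mul_of_nonneg_right (pow_le_pow_right₀ hc1 (by norm_num)) (by positivity)
    linarith
  have hSAS : ‖S * AA C S T W * S‖ ≤ 3 * c ^ 6 * τ * ‖α‖ := by
    have h0 : 0 ≤ 3 * c ^ 4 * τ * ‖α‖ := by positivity
    calc ‖S * AA C S T W * S‖ ≤ ‖S * AA C S T W‖ * ‖S‖ := norm_mul_le _ _
      _ ≤ (c * (3 * c ^ 4 * τ * ‖α‖)) * c :=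
          mul_le_mul ((norm_mul_le _ _).trans (mul_le_mul hB.nS hAA (norm_nonneg _) hc0.le))
            hB.nS (norm_nonneg _) (by positivity)
      _ = 3 * c ^ 6 * τ * ‖α‖ := by ring
  -- the splitting
  have hAAadd : AA C S T (blk κ α + W) = AA C S T (blk κ α) + AA C S T W := by
    unfold AA
    rw [UU_add_right, Matrix.mul_add, Matrix.add_mul, UU_add_left]
    abel
  have hQW : lam • W = (1 / 2 : ℝ) • (Z - (1 - Ph κ ι) * Z * (1 - Ph κ ι)) := by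
    rw [hW, smul_smul, TransG_W_eq]
    congr 1
    field_simp
  have hQA : (1 - Ph κ ι) * blk κ α * (1 - Ph κ ι) = blk κ α := by
    rw [TransG_blk, TransG_22]
  have hQD : (1 - Ph κ ι) * (S * D) = S * D := by
    rw [hB.SD, ← hpD, Matrix.mul_assoc, ← Matrix.mul_assoc, hQp]
  have hDQ : S * D * (1 - Ph κ ι) = S * D := by
    rw [← hB.Dpp, Matrix.mul_assoc, Matrix.mul_assoc, hpQ]
  have hbQ : blk κ α * (1 - Ph κ ι) = blk κ α := by
    rw [Matrix.mul_sub, Matrix.mul_one, TransG_blk_Ph, sub_zero]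
  have hQb : (1 - Ph κ ι) * blk κ α = blk κ α := by
    rw [Matrix.sub_mul, Matrix.one_mul, TransG_Ph_blk, sub_zero]
  have hQ1 : (1 - Ph κ ι) * (blk κ α * (S * D) + S * D * blk κ α) * (1 - Ph κ ι) =
      blk κ α * (S * D) + S * D * blk κ α := by
    rw [Matrix.mul_add, Matrix.add_mul, ← Matrix.mul_assoc (1 - Ph κ ι) (blk κ α), hQb,
      ← Matrix.mul_assoc (1 - Ph κ ι) (S * D), hQD, Matrix.mul_assoc (blk κ α), hDQ,
      Matrix.mul_assoc (S * D), hbQ]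
  have hQAA : (1 - Ph κ ι) * (S * AA C S T (blk κ α) * S) * (1 - Ph κ ι) =
      S * AA C S T (blk κ α) * S := by
    have h1 : S * AA C S T (blk κ α) * S = pp * (S * AA C S T (blk κ α) * S) * pp := by
      conv_lhs => rw [hB.z _ hAs hcl]
      calc S * (pp * AA C S T (blk κ α) * pp) * S
          = (S * pp) * AA C S T (blk κ α) * (pp * S) := by simp only [Matrix.mul_assoc]
        _ = (pp * S) * AA C S T (blk κ α) * (S * pp) := by rw [hB.Spp]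
        _ = pp * (S * AA C S T (blk κ α) * S) * pp := by simp only [Matrix.mul_assoc]
    have h2 : (1 - Ph κ ι) * (pp * (S * AA C S T (blk κ α) * S) * pp) * (1 - Ph κ ι) =
        ((1 - Ph κ ι) * pp) * (S * AA C S T (blk κ α) * S) * (pp * (1 - Ph κ ι)) := by
      simp only [Matrix.mul_assoc]
    rw [h1, h2, hQp, hpQ]
  have hmain : ellG C S T D lam (blk κ α + W) =
      (1 - Ph κ ι) * ellG C S T D lam (blk κ α) * (1 - Ph κ ι) -
        (1 / 2 : ℝ) • (S * AA C S T W * S) + (1 / 2 : ℝ) • UU C S W := by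
    have h1 : (1 - Ph κ ι) * ellG C S T D lam (blk κ α) * (1 - Ph κ ι) =
        (1 / 2 : ℝ) • (blk κ α * (S * D) + S * D * blk κ α) -
          (1 / 2 : ℝ) • (S * AA C S T (blk κ α) * S) +
          (1 / 2 : ℝ) • ((1 - Ph κ ι) * Z * (1 - Ph κ ι)) - lam • blk κ α := by
      unfold ellG
      rw [← hZ, TransG_dist, hQ1, hQAA, hQA]
    have h2 : (blk κ α + W) * (S * D) + S * D * (blk κ α + W) =
        blk κ α * (S * D) + S * D * blk κ α := by
      rw [Matrix.add_mul, Matrix.mul_add, hWSD, hSDW, add_zero, add_zero]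
    have h3 : S * (AA C S T (blk κ α) + AA C S T W) * S =
        S * AA C S T (blk κ α) * S + S * AA C S T W * S := by
      rw [Matrix.mul_add, Matrix.add_mul]
    rw [h1]
    unfold ellG
    rw [hAAadd, UU_add_right, ← hZ, h2, h3, smul_add lam, hQW]
    simp only [smul_add, smul_sub]
    abel
  have hes : (ellG C S T D lam (blk κ α)).toBlocks₂₂.IsSymm := by
    have h1 : (ellG C S T D lam (blk κ α)).IsSymm := by
      have h2 : (AA C S T (blk κ α))ᵀ = AA C S T (blk κ α) := by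
        unfold AA
        have h3 : (T * blk κ α * T).IsSymm := by
          unfold Matrix.IsSymm
          rw [Matrix.transpose_mul, Matrix.transpose_mul, hB.symT.eq, hAs.eq, Matrix.mul_assoc]
        rw [Matrix.transpose_sub, (UU_symm C hB.symT hAs).eq, (UU_symm C h3 hB.symS).eq]
      have h5 : (S * AA C S T (blk κ α) * S)ᵀ = S * AA C S T (blk κ α) * S := by
        rw [Matrix.transpose_mul, Matrix.transpose_mul, h2, hB.symS.eq, Matrix.mul_assoc]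
      have h6 : (blk κ α * (S * D) + S * D * blk κ α)ᵀ =
          blk κ α * (S * D) + S * D * blk κ α := by
        have h7 : (S * D)ᵀ = S * D := by
          rw [Matrix.transpose_mul, hB.symS.eq, hB.symD.eq, hB.SD]
        rw [Matrix.transpose_add, Matrix.transpose_mul (blk κ α) (S * D),
          Matrix.transpose_mul (S * D) (blk κ α), h7, hAs.eq, add_comm]
      unfold ellG Matrix.IsSymm
      rw [Matrix.transpose_sub, Matrix.transpose_add, Matrix.transpose_sub,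
        Matrix.transpose_smul, Matrix.transpose_smul, Matrix.transpose_smul,
        Matrix.transpose_smul, h5, h6, hAs.eq, (UU_symm C hB.symS hAs).eq]
    unfold Matrix.IsSymm
    ext i j
    have h4 := congrFun (congrFun h1.eq (Sum.inr i)) (Sum.inr j)
    exact h4
  have hfin : ‖ellG C S T D lam (blk κ α + W)‖ ≤
      ‖(ellG C S T D lam (blk κ α)).toBlocks₂₂‖ + 3 * c ^ 6 * τ * ‖α‖ := by
    rw [hmain, TransG_blk]
    have h1 := norm_blk_le (κ := κ) hes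
    have h2 := hUW S hB.symS hB.nS
    have h3 : c ^ 3 * (τ * ‖α‖) ≤ c ^ 6 * (τ * ‖α‖) :=
      mul_le_mul_of_nonneg_right (pow_le_pow_right₀ hc1 (by norm_num)) (by positivity)
    have h4 : ‖(1 / 2 : ℝ) • (S * AA C S T W * S)‖ ≤ 1 / 2 * (3 * c ^ 6 * τ * ‖α‖) := by
      rw [norm_smul, Real.norm_of_nonneg (by norm_num)]
      exact mul_le_mul_of_nonneg_left hSAS (by norm_num)
    have h5 : ‖(1 / 2 : ℝ) • UU C S W‖ ≤ 1 / 2 * (3 / 2 * c ^ 3 * τ * ‖α‖) := by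
      rw [norm_smul, Real.norm_of_nonneg (by norm_num)]
      exact mul_le_mul_of_nonneg_left h2 (by norm_num)
    have h6 : 0 ≤ c ^ 6 * (τ * ‖α‖) := by positivity
    refine (norm_add_le _ _).trans ?_
    have h7 := norm_sub_le (blk κ (ellG C S T D lam (blk κ α)).toBlocks₂₂)
      ((1 / 2 : ℝ) • (S * AA C S T W * S))
    linarith
  have h1 := hlow.trans (hb.trans (mul_le_mul_of_nonneg_left hfin (by linarith)))
  have h2 : 6 * K * c ^ 6 * τ * ‖α‖ ≤ 1 * ‖α‖ := mul_le_mul_of_nonneg_right hτ hα0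
  linarith

end Pool.Agent.EinG
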