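import Pool.Agent.EinG.NL
import Pool.Agent.EinG.Trans
import Pool.Agent.Lib.Brouwer

/-!
# Solution of the Einstein equation near the base metric

As in `EinU/AbsU.lean` and `SmIso/Abs.lean`.  `V` = the symmetric `α` with `κ' α κ'ᵀ = α` for all `κ' ∈ Γ'`; for them
`M (blk κ α) Mᵀ = blk κ α` for all `M ∈ Γ` (`hcl`: `M = fromBlocks M₁ 0 0 κ'`).
`ℓ α = (ellG C S T D lam (blk κ α)).toBlocks₂₂` maps `V` to `V` (for `κ' ∈ Γ'` with `M = fromBlocks M₁ 0 0 κ'`: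
`M (blk κ α) Mᵀ = blk κ (κ' α κ'ᵀ)`, `UU_inv`; `D = 1 - UU C T S` is invariant as well), it is injective by `gapG_trans`, so
bijective, with `‖ℓ⁻¹ β‖ ≤ 2 K ‖β‖`.
`F α = EE (Cm C) lam (S₂₂ + α) (S₂₂ + α)⁻¹ ∈ V`; `Ψ α = α - ℓ⁻¹ (F α) = - ℓ⁻¹ (F α - ℓ α)`; for
`‖α‖ ≤ r := 1/(500 K c¹⁰)` and `τ ≤ r`, `eps ≤ 50 c¹⁰ r²`: `‖Ψ α‖ ≤ 2 K (eps + 50 c¹⁰ (2 r)²) ≤ r`.
Brouwer (`Pool.Lib.brouwer_fixed_point_convex`) gives `F α = 0`; `G = (S₂₂ + α)⁻¹` (`ghatG_inv`), and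
`G (F α) G = RicM (Cm C) G G⁻¹ - lam G`.
-/

set_option linter.unusedSectionVars false

namespace Pool.Agent.EinG

open Matrix Pool.Agent.EStab Pool.Agent.EinS Pool.Agent.SmIso Pool.Agent.EinU
open scoped Matrix.Norms.L2Operator

variable {κ ι : Type*} [Fintype κ] [DecidableEq κ] [Fintype ι] [DecidableEq ι]
  {C : κ ⊕ ι → Matrix (κ ⊕ ι) (κ ⊕ ι) ℝ} {Γ : Set (Matrix (κ ⊕ ι) (κ ⊕ ι) ℝ)}
  {S T pp D : Matrix (κ ⊕ ι) (κ ⊕ ι) ℝ} {c τ lam eps : ℝ}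

section Fx

variable {J : Type*} [Fintype J] [DecidableEq J] {M X Y : Matrix J J ℝ}

private theorem AbsG_fmul (hM : M * Mᵀ = 1) (hX : M * X * Mᵀ = X) (hY : M * Y * Mᵀ = Y) :
    M * (X * Y) * Mᵀ = X * Y := by
  have hM' : Mᵀ * M = 1 := mul_eq_one_comm.1 hM
  calc M * (X * Y) * Mᵀ = M * X * 1 * (Y * Mᵀ) := by simp only [Matrix.mul_one, Matrix.mul_assoc]
    _ = M * X * (Mᵀ * M) * (Y * Mᵀ) := by rw [hM']
    _ = (M * X * Mᵀ) * (M * Y * Mᵀ) := by simp only [Matrix.mul_assoc]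
    _ = X * Y := by rw [hX, hY]

private theorem AbsG_fadd (hX : M * X * Mᵀ = X) (hY : M * Y * Mᵀ = Y) :
    M * (X + Y) * Mᵀ = X + Y := by
  rw [Matrix.mul_add, Matrix.add_mul, hX, hY]

private theorem AbsG_fsub (hX : M * X * Mᵀ = X) (hY : M * Y * Mᵀ = Y) :
    M * (X - Y) * Mᵀ = X - Y := by
  rw [Matrix.mul_sub, Matrix.sub_mul, hX, hY]

private theorem AbsG_fsmul (a : ℝ) (hX : M * X * Mᵀ = X) :
    M * (a • X) * Mᵀ = a • X := by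
  rw [Matrix.mul_smul, Matrix.smul_mul, hX]

end Fx

private theorem AbsG_blocks (M₁ : Matrix κ κ ℝ) (κ' : Matrix ι ι ℝ)
    (X : Matrix (κ ⊕ ι) (κ ⊕ ι) ℝ) :
    (fromBlocks M₁ 0 0 κ' * X * (fromBlocks M₁ 0 0 κ')ᵀ).toBlocks₂₂ =
      κ' * X.toBlocks₂₂ * κ'ᵀ := by
  conv_lhs => rw [← fromBlocks_toBlocks X]
  rw [fromBlocks_multiply, fromBlocks_transpose, fromBlocks_multiply, toBlocks_fromBlocks₂₂]
  simp

private theorem AbsG_blk (M₁ : Matrix κ κ ℝ) (κ' : Matrix ι ι ℝ) (α : Matrix ι ι ℝ) :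
    fromBlocks M₁ 0 0 κ' * blk κ α * (fromBlocks M₁ 0 0 κ')ᵀ = blk κ (κ' * α * κ'ᵀ) := by
  unfold blk
  rw [fromBlocks_multiply, fromBlocks_transpose, fromBlocks_multiply]
  simp

private theorem AbsG_blk_add (α β : Matrix ι ι ℝ) :
    blk κ (α + β) = blk κ α + blk κ β := by
  unfold blk
  rw [fromBlocks_add]
  simp

private theorem AbsG_blk_smul (a : ℝ) (α : Matrix ι ι ℝ) :
    blk κ (a • α) = a • blk κ α := by
  unfold blk
  rw [fromBlocks_smul]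
  simp

private theorem AbsG_blk_symm {α : Matrix ι ι ℝ} (hα : α.IsSymm) : (blk κ α).IsSymm := by
  unfold blk Matrix.IsSymm
  rw [fromBlocks_transpose, hα.eq]
  simp

/-- the orthogonal matrices which preserve the data -/
private def AbsG_Good (C : κ ⊕ ι → Matrix (κ ⊕ ι) (κ ⊕ ι) ℝ) (S T : Matrix (κ ⊕ ι) (κ ⊕ ι) ℝ)
    (κ' : Matrix ι ι ℝ) : Prop :=
  ∃ M₁ : Matrix κ κ ℝ, CInv C (fromBlocks M₁ 0 0 κ') ∧
      fromBlocks M₁ 0 0 κ' * S * (fromBlocks M₁ 0 0 κ')ᵀ = S ∧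
      fromBlocks M₁ 0 0 κ' * T * (fromBlocks M₁ 0 0 κ')ᵀ = T

private theorem AbsG_orth {κ' : Matrix ι ι ℝ} (h : AbsG_Good C S T κ') : κ' * κ'ᵀ = 1 := by
  obtain ⟨M₁, h1, -⟩ := h
  have h2 := AbsG_blocks M₁ κ' 1
  rw [Matrix.mul_one, h1.1] at h2
  have h3 : (1 : Matrix (κ ⊕ ι) (κ ⊕ ι) ℝ).toBlocks₂₂ = 1 := by
    rw [← fromBlocks_one, toBlocks_fromBlocks₂₂]
  rw [h3, Matrix.mul_one] at h2
  exact h2.symm

private theorem AbsG_S22 {κ' : Matrix ι ι ℝ} (h : AbsG_Good C S T κ') :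
    κ' * S.toBlocks₂₂ * κ'ᵀ = S.toBlocks₂₂ := by
  obtain ⟨M₁, -, h2, -⟩ := h
  rw [← AbsG_blocks M₁ κ' S, h2]

private theorem AbsG_ell (hD : UU C T S = 1 - D) {κ' : Matrix ι ι ℝ} (h : AbsG_Good C S T κ')
    {α : Matrix ι ι ℝ} (hα : κ' * α * κ'ᵀ = α) :
    κ' * (ellG C S T D lam (blk κ α)).toBlocks₂₂ * κ'ᵀ =
      (ellG C S T D lam (blk κ α)).toBlocks₂₂ := by
  obtain ⟨M₁, h1, hS, hT⟩ := h
  obtain ⟨M, hM⟩ : ∃ M, M = fromBlocks M₁ 0 0 κ' := ⟨_, rfl⟩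
  have hβ : M * blk κ α * Mᵀ = blk κ α := by rw [hM, AbsG_blk, hα]
  rw [← AbsG_blocks M₁ κ', ← hM]
  rw [← hM] at h1 hS hT
  congr 1
  have hu : ∀ {A B : Matrix (κ ⊕ ι) (κ ⊕ ι) ℝ}, M * A * Mᵀ = A → M * B * Mᵀ = B →
      M * UU C A B * Mᵀ = UU C A B := fun hA hB => UU_inv h1.1 h1.1 h1.2 hA hB
  have hAA : M * AA C S T (blk κ α) * Mᵀ = AA C S T (blk κ α) := by
    unfold AA
    exact AbsG_fsub (hu hT hβ) (hu (AbsG_fmul h1.1 (AbsG_fmul h1.1 hT hβ) hT) hS)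
  have hDD : M * D * Mᵀ = D := by
    have h2 : D = 1 - UU C T S := by rw [hD, sub_sub_cancel]
    rw [h2]
    refine AbsG_fsub ?_ (hu hT hS)
    rw [Matrix.mul_one]
    exact h1.1
  have hSD : M * (S * D) * Mᵀ = S * D := AbsG_fmul h1.1 hS hDD
  unfold ellG
  refine AbsG_fsub (AbsG_fadd (AbsG_fsub (AbsG_fsmul _ (AbsG_fadd ?_ ?_)) (AbsG_fsmul _ ?_))
    (AbsG_fsmul _ (hu hS hβ))) (AbsG_fsmul _ hβ)
  · exact AbsG_fmul h1.1 hβ hSD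
  · exact AbsG_fmul h1.1 hSD hβ
  · exact AbsG_fmul h1.1 (AbsG_fmul h1.1 hS hAA) hS

private theorem AbsG_EE {κ' : Matrix ι ι ℝ} (h : AbsG_Good C S T κ') {P G : Matrix ι ι ℝ}
    (hP : κ' * P * κ'ᵀ = P) (hG : κ' * G * κ'ᵀ = G) :
    κ' * EE (Cm C) lam P G * κ'ᵀ = EE (Cm C) lam P G := by
  have ho := AbsG_orth h
  obtain ⟨M₁, h1, -⟩ := h
  have hu : ∀ {A B : Matrix ι ι ℝ}, κ' * A * κ'ᵀ = A → κ' * B * κ'ᵀ = B →
      κ' * UU (Cm C) A B * κ'ᵀ = UU (Cm C) A B := by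
    intro A B hA hB
    rw [UU_blk, ← AbsG_blocks M₁ κ']
    congr 1
    refine UU_inv h1.1 h1.1 h1.2 ?_ ?_
    · rw [AbsG_blk, hA]
    · rw [AbsG_blk, hB]
  unfold EE
  refine AbsG_fsub (AbsG_fadd (AbsG_fsub (AbsG_fsmul _ (AbsG_fmul ho hP hP))
    (AbsG_fsmul _ ?_)) (AbsG_fsmul _ (hu hP hP))) (AbsG_fsmul _ hP)
  exact AbsG_fmul ho (AbsG_fmul ho hP (hu hG hP)) hP

private theorem AbsG_mul3_symm {J : Type*} [Fintype J] {A X : Matrix J J ℝ} (hA : A.IsSymm)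
    (hX : X.IsSymm) : (A * X * A).IsSymm := by
  unfold Matrix.IsSymm
  rw [Matrix.transpose_mul, Matrix.transpose_mul, hA.eq, hX.eq, Matrix.mul_assoc]

private theorem AbsG_SD_symm (hB : BaseG C Γ S T pp D c τ lam eps) : (S * D)ᵀ = S * D := by
  rw [Matrix.transpose_mul, hB.symD.eq, hB.symS.eq, hB.SD]

private theorem AbsG_ell_symm (hB : BaseG C Γ S T pp D c τ lam eps) {α : Matrix ι ι ℝ}
    (hα : α.IsSymm) : (ellG C S T D lam (blk κ α)).toBlocks₂₂.IsSymm := by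
  have hβ : (blk κ α).IsSymm := AbsG_blk_symm hα
  have hAA : (AA C S T (blk κ α)).IsSymm := by
    unfold AA
    exact (UU_symm C hB.symT hβ).sub (UU_symm C (AbsG_mul3_symm hB.symT hβ) hB.symS)
  have h0 : (blk κ α * (S * D) + S * D * blk κ α).IsSymm := by
    unfold Matrix.IsSymm
    rw [Matrix.transpose_add, Matrix.transpose_mul, Matrix.transpose_mul (S * D), AbsG_SD_symm hB, hβ.eq]
    exact add_comm _ _
  have h : (ellG C S T D lam (blk κ α)).IsSymm := by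
    unfold ellG
    exact (((h0.smul _).sub ((AbsG_mul3_symm hB.symS hAA).smul _)).add
      ((UU_symm C hB.symS hβ).smul _)).sub (hβ.smul _)
  unfold Matrix.IsSymm
  ext i j
  exact h.apply (Sum.inr i) (Sum.inr j)

private theorem AbsG_EE_symm (lam : ℝ) {P G : Matrix ι ι ℝ}
    (hP : P.IsSymm) (hG : G.IsSymm) : (EE (Cm C) lam P G).IsSymm := by
  unfold EE
  refine (((Matrix.IsSymm.smul ?_ _).sub ((AbsG_mul3_symm hP (UU_symm _ hG hP)).smul _)).add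
      ((UU_symm _ hP hP).smul _)).sub (hP.smul _)
  unfold Matrix.IsSymm
  rw [Matrix.transpose_mul, hP.eq]

private theorem AbsG_AA_add (β β' : Matrix (κ ⊕ ι) (κ ⊕ ι) ℝ) :
    AA C S T (β + β') = AA C S T β + AA C S T β' := by
  unfold AA
  rw [UU_add_right, Matrix.mul_add, Matrix.add_mul, UU_add_left]
  abel

private theorem AbsG_AA_smul (a : ℝ) (β : Matrix (κ ⊕ ι) (κ ⊕ ι) ℝ) :
    AA C S T (a • β) = a • AA C S T β := by
  unfold AA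
  rw [UU_smul_right, Matrix.mul_smul, Matrix.smul_mul, UU_smul_left, smul_sub]

private theorem AbsG_ellG_add (β β' : Matrix (κ ⊕ ι) (κ ⊕ ι) ℝ) :
    ellG C S T D lam (β + β') = ellG C S T D lam β + ellG C S T D lam β' := by
  unfold ellG
  rw [AbsG_AA_add, UU_add_right]
  simp only [Matrix.mul_add, Matrix.add_mul, smul_add]
  abel

private theorem AbsG_ellG_smul (a : ℝ) (β : Matrix (κ ⊕ ι) (κ ⊕ ι) ℝ) :
    ellG C S T D lam (a • β) = a • ellG C S T D lam β := by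
  unfold ellG
  rw [AbsG_AA_smul, UU_smul_right]
  simp only [Matrix.mul_smul, Matrix.smul_mul, smul_sub, smul_add, smul_comm a]

/-- the linear map `ℓ` -/
private noncomputable def AbsG_L (C : κ ⊕ ι → Matrix (κ ⊕ ι) (κ ⊕ ι) ℝ)
    (S T D : Matrix (κ ⊕ ι) (κ ⊕ ι) ℝ) (lam : ℝ) :
    Matrix ι ι ℝ →ₗ[ℝ] Matrix ι ι ℝ where
  toFun α := (ellG C S T D lam (blk κ α)).toBlocks₂₂
  map_add' α β := by
    rw [AbsG_blk_add, AbsG_ellG_add]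
    rfl
  map_smul' a α := by
    rw [AbsG_blk_smul, AbsG_ellG_smul]
    rfl

private def AbsG_V (Γ : Set (Matrix ι ι ℝ)) : Submodule ℝ (Matrix ι ι ℝ) where
  carrier := {α | α.IsSymm ∧ ∀ κ' ∈ Γ, κ' * α * κ'ᵀ = α}
  add_mem' := by
    rintro α β ⟨h1, h2⟩ ⟨h3, h4⟩
    exact ⟨h1.add h3, fun κ' h => AbsG_fadd (h2 κ' h) (h4 κ' h)⟩
  zero_mem' := ⟨Matrix.isSymm_zero, fun κ' _ => by simp⟩
  smul_mem' := by
    rintro a α ⟨h1, h2⟩
    exact ⟨h1.smul a, fun κ' h => AbsG_fsmul a (h2 κ' h)⟩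

private theorem AbsG_EE_cont (lam : ℝ) (D : ι → Matrix ι ι ℝ) :
    Continuous fun AB : Matrix ι ι ℝ × Matrix ι ι ℝ => EE D lam AB.1 AB.2 := by
  have hUU : ∀ f g : Matrix ι ι ℝ × Matrix ι ι ℝ → Matrix ι ι ℝ, Continuous f → Continuous g →
      Continuous fun AB => UU D (f AB) (g AB) := by
    intro f g hf hg
    unfold UU
    refine continuous_matrix fun i j => ?_
    simp only [Matrix.of_apply]
    exact (((continuous_const.matrix_mul hf).matrix_mul continuous_const).matrix_mul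
      hg).matrix_trace
  unfold EE
  have h1 : Continuous fun AB : Matrix ι ι ℝ × Matrix ι ι ℝ => AB.1 := continuous_fst
  have h2 : Continuous fun AB : Matrix ι ι ℝ × Matrix ι ι ℝ => AB.2 := continuous_snd
  exact ((((h1.matrix_mul h1).const_smul (1 / 2 : ℝ)).sub
    (((h1.matrix_mul (hUU _ _ h2 h1)).matrix_mul h1).const_smul (1 / 2 : ℝ))).add
      ((hUU _ _ h1 h1).const_smul (1 / 4 : ℝ))).sub (h1.const_smul lam)

private theorem AbsG_inv_cont {X : Type*} [TopologicalSpace X] {s : Set X}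
    {f : X → Matrix ι ι ℝ} (hf : Continuous f) (h : ∀ x ∈ s, IsUnit (f x).det) :
    ContinuousOn (fun x => (f x)⁻¹) s := by
  have h1 : (fun x => (f x)⁻¹) = fun x => (f x).det⁻¹ • (f x).adjugate := by
    funext x
    rw [Matrix.inv_def, Ring.inverse_eq_inv']
  rw [h1]
  refine ContinuousOn.smul (ContinuousOn.inv₀ hf.matrix_det.continuousOn fun x hx =>
    (h x hx).ne_zero) hf.matrix_adjugate.continuousOn

private theorem AbsG_comp {V : Submodule ℝ (Matrix ι ι ℝ)} (D : ι → Matrix ι ι ℝ)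
    (lam : ℝ) (f g : V → Matrix ι ι ℝ) {s : Set V}
    (h4 : ContinuousOn (fun x => (f x, g x)) s) :
    ContinuousOn (fun x : V => EE D lam (f x, g x).1 (f x, g x).2) s :=
  (AbsG_EE_cont lam D).comp_continuousOn h4

private theorem AbsG_F_cont {V : Submodule ℝ (Matrix ι ι ℝ)} (D : ι → Matrix ι ι ℝ)
    (S2 : Matrix ι ι ℝ) (lam : ℝ) (F : V → V)
    (hF : ∀ x : V, (F x : Matrix ι ι ℝ) =
      EE D lam (S2 + (x : Matrix ι ι ℝ)) (S2 + (x : Matrix ι ι ℝ))⁻¹) {s : Set V}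
    (hu : ∀ x ∈ s, IsUnit (S2 + (x : Matrix ι ι ℝ)).det) : ContinuousOn F s := by
  rw [Topology.IsInducing.subtypeVal.continuousOn_iff]
  have h1 : Continuous fun x : V => S2 + (x : Matrix ι ι ℝ) :=
    continuous_const.add continuous_subtype_val
  have h2 : ContinuousOn (fun x : V => (S2 + (x : Matrix ι ι ℝ))⁻¹) s := AbsG_inv_cont h1 hu
  have h3 := AbsG_comp D lam (fun x : V => S2 + (x : Matrix ι ι ℝ))
    (fun x : V => (S2 + (x : Matrix ι ι ℝ))⁻¹) (h1.continuousOn.prodMk h2)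
  refine h3.congr fun x _ => ?_
  rw [Function.comp_apply]
  exact hF x

private theorem AbsG_brouwer {E : Type*} [NormedAddCommGroup E] [NormedSpace ℝ E]
    [FiniteDimensional ℝ E] (ℓ : E →ₗ[ℝ] E) {A r : ℝ} (hr : 0 ≤ r)
    (hb : ∀ x, ‖x‖ ≤ A * ‖ℓ x‖) (F : E → E) (hF : ContinuousOn F (Metric.closedBall (0 : E) r))
    (hest : ∀ x, ‖x‖ ≤ r → A * ‖F x - ℓ x‖ ≤ r) : ∃ x, ‖x‖ ≤ r ∧ F x = 0 := by
  have hℓi : Function.Injective ℓ := by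
    rw [injective_iff_map_eq_zero]
    intro x hx
    have h1 := hb x
    rw [hx, norm_zero, mul_zero] at h1
    exact norm_le_zero_iff.1 h1
  obtain ⟨e, he⟩ : ∃ e : E ≃ₗ[ℝ] E, ∀ x, e x = ℓ x :=
    ⟨LinearEquiv.ofInjectiveEndo ℓ hℓi, fun x => rfl⟩
  have heb : ∀ y, ‖e.symm y‖ ≤ A * ‖y‖ := by
    intro y
    have h1 := hb (e.symm y)
    rw [← he, e.apply_symm_apply] at h1
    exact h1
  have hec : Continuous e.symm :=
    LinearMap.continuous_of_finiteDimensional (e.symm : E →ₗ[ℝ] E)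
  have : ProperSpace E := FiniteDimensional.proper ℝ E
  obtain ⟨x, hx, hfix⟩ := Pool.Lib.brouwer_fixed_point_convex
    (K := Metric.closedBall (0 : E) r) (f := fun x => x - e.symm (F x))
    (isCompact_closedBall _ _) (convex_closedBall _ _) ⟨0, by
      rw [mem_closedBall_zero_iff, norm_zero]; exact hr⟩
    (continuousOn_id.sub (hec.comp_continuousOn hF)) (by
      intro x hx
      rw [mem_closedBall_zero_iff] at hx ⊢
      have h1 : x - e.symm (F x) = -e.symm (F x - ℓ x) := by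
        rw [map_sub, ← he, e.symm_apply_apply]
        abel
      show ‖x - e.symm (F x)‖ ≤ r
      rw [h1, norm_neg]
      exact le_trans (heb _) (hest x hx))
  rw [mem_closedBall_zero_iff] at hx
  refine ⟨x, hx, ?_⟩
  have h1 : e.symm (F x) = 0 := by
    have h2 : x - e.symm (F x) = x := hfix
    exact sub_eq_self.1 h2
  exact (LinearEquiv.map_eq_zero_iff e.symm).1 h1

theorem abs_g (hB : BaseG C Γ S T pp D c τ lam eps) {K : ℝ} (hK : 1 ≤ K)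
    (hgap : GapG C Γ S T D lam K) {Γ' : Set (Matrix ι ι ℝ)}
    (hΓ : ∀ κ' ∈ Γ', ∃ M₁ : Matrix κ κ ℝ, CInv C (fromBlocks M₁ 0 0 κ') ∧
      fromBlocks M₁ 0 0 κ' * S * (fromBlocks M₁ 0 0 κ')ᵀ = S ∧
      fromBlocks M₁ 0 0 κ' * T * (fromBlocks M₁ 0 0 κ')ᵀ = T)
    (hcl : ∀ M ∈ Γ, ∃ M₁ : Matrix κ κ ℝ, ∃ κ' ∈ Γ', M = fromBlocks M₁ 0 0 κ')
    (hτ : 500 * K * c ^ 10 * τ ≤ 1) (heps : 5000 * K ^ 2 * c ^ 10 * eps ≤ 1) :
    ∃ G : Matrix ι ι ℝ, G.IsSymm ∧ (∀ v, 1 / (2 * c) * (v ⬝ᵥ v) ≤ v ⬝ᵥ (G *ᵥ v)) ∧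
      (∀ κ' ∈ Γ', κ' * G * κ'ᵀ = G) ∧ IsUnit G.det ∧ RicM (Cm C) G G⁻¹ = lam • G := by
  have hc1 := hB.c1
  have hτ0 : 0 ≤ τ := hB.eh.1
  have hc0 : 0 < c := by linarith
  have hK0 : 0 < K := by linarith
  have hc10 : 1 ≤ c ^ 10 := one_le_pow₀ hc1
  have hc6 : c ^ 6 ≤ c ^ 10 := pow_le_pow_right₀ hc1 (by norm_num)
  have hcc : c ≤ c ^ 10 := by
    calc c = c ^ 1 := (pow_one c).symm
      _ ≤ c ^ 10 := pow_le_pow_right₀ hc1 (by norm_num)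
  have hc100 : 0 < c ^ 10 := by linarith
  -- the radius
  obtain ⟨r, hr⟩ : ∃ r : ℝ, r = 1 / (500 * K * c ^ 10) := ⟨_, rfl⟩
  have hKc : 0 < 500 * K * c ^ 10 := by positivity
  have hr0 : 0 < r := by rw [hr]; positivity
  have hr1 : 500 * K * c ^ 10 * r = 1 := by
    rw [hr, mul_one_div_cancel hKc.ne']
  have hτr : τ ≤ r := by
    rw [hr, le_div_iff₀ hKc]
    linarith
  have hrc : r ≤ 1 / (2 * c) := by
    rw [hr]
    apply one_div_le_one_div_of_le (by positivity)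
    nlinarith
  have hτ6 : 6 * K * c ^ 6 * τ ≤ 1 := by
    have h1 : 6 * K * c ^ 6 * τ ≤ 500 * K * c ^ 10 * τ := by
      apply mul_le_mul_of_nonneg_right _ hτ0
      nlinarith
    linarith
  have hepsr : K * eps ≤ r / 10 := by
    rw [hr, div_div, le_div_iff₀ (by positivity)]
    calc K * eps * (500 * K * c ^ 10 * 10) = 5000 * K ^ 2 * c ^ 10 * eps := by ring
      _ ≤ 1 := heps
  have hgood : ∀ κ' ∈ Γ', AbsG_Good C S T κ' := hΓ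
  have hclx : ∀ x : AbsG_V Γ', ∀ M ∈ Γ, M * blk κ (x : Matrix ι ι ℝ) * Mᵀ =
      blk κ (x : Matrix ι ι ℝ) := by
    intro x M hM
    obtain ⟨M₁, κ', hκ', rfl⟩ := hcl M hM
    rw [AbsG_blk, x.2.2 κ' hκ']
  -- the linear map
  have hLmap : ∀ x ∈ AbsG_V Γ', AbsG_L C S T D lam x ∈ AbsG_V Γ' := fun x hx =>
    ⟨AbsG_ell_symm hB hx.1, fun κ' h => AbsG_ell hB.uts (hgood κ' h) (hx.2 κ' h)⟩
  obtain ⟨ℓ, hℓ⟩ : ∃ ℓ : AbsG_V Γ' →ₗ[ℝ] AbsG_V Γ', ∀ x : AbsG_V Γ',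
      (ℓ x : Matrix ι ι ℝ) = (ellG C S T D lam (blk κ (x : Matrix ι ι ℝ))).toBlocks₂₂ :=
    ⟨(AbsG_L C S T D lam).restrict hLmap, fun x => rfl⟩
  have hℓb : ∀ x : AbsG_V Γ', ‖x‖ ≤ 2 * K * ‖ℓ x‖ := by
    intro x
    have h1 := gapG_trans hB hK hgap hτ6 x.2.1 (hclx x)
    rw [← hℓ] at h1
    exact h1
  -- the nonlinear map
  have hPfix : ∀ x : AbsG_V Γ', ∀ κ' ∈ Γ',
      κ' * (S.toBlocks₂₂ + (x : Matrix ι ι ℝ)) * κ'ᵀ = S.toBlocks₂₂ + (x : Matrix ι ι ℝ) :=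
    fun x κ' h => AbsG_fadd (AbsG_S22 (hgood κ' h)) (x.2.2 κ' h)
  have hS22 : S.toBlocks₂₂.IsSymm := by
    unfold Matrix.IsSymm
    ext i j
    exact hB.symS.apply (Sum.inr i) (Sum.inr j)
  have hPsymm : ∀ x : AbsG_V Γ', (S.toBlocks₂₂ + (x : Matrix ι ι ℝ)).IsSymm := fun x =>
    hS22.add x.2.1
  have hGsymm : ∀ x : AbsG_V Γ', (S.toBlocks₂₂ + (x : Matrix ι ι ℝ))⁻¹.IsSymm := by
    intro x
    unfold Matrix.IsSymm
    rw [Matrix.transpose_nonsing_inv, (hPsymm x).eq]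
  have hGfix : ∀ x : AbsG_V Γ', ∀ κ' ∈ Γ',
      κ' * (S.toBlocks₂₂ + (x : Matrix ι ι ℝ))⁻¹ * κ'ᵀ = (S.toBlocks₂₂ + (x : Matrix ι ι ℝ))⁻¹ :=
    fun x κ' h => conj_inv (AbsG_orth (hgood κ' h)) (hPfix x κ' h)
  obtain ⟨F, hF⟩ : ∃ F : AbsG_V Γ' → AbsG_V Γ', ∀ x, (F x : Matrix ι ι ℝ) =
      EE (Cm C) lam (S.toBlocks₂₂ + (x : Matrix ι ι ℝ))
        (S.toBlocks₂₂ + (x : Matrix ι ι ℝ))⁻¹ :=
    ⟨fun x => ⟨EE (Cm C) lam (S.toBlocks₂₂ + (x : Matrix ι ι ℝ))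
        (S.toBlocks₂₂ + (x : Matrix ι ι ℝ))⁻¹,
      AbsG_EE_symm lam (hPsymm x) (hGsymm x),
      fun κ' h => AbsG_EE (hgood κ' h) (hPfix x κ' h) (hGfix x κ' h)⟩, fun x => rfl⟩
  have hest : ∀ x : AbsG_V Γ', ‖x‖ ≤ r → ‖F x - ℓ x‖ ≤ eps + 50 * c ^ 10 * (τ + r) ^ 2 := by
    intro x hx
    have h1 := nlG_bound hB x.2.1 (hclx x) hrc hx
    have h2 : ‖((1 / 2 : ℝ) • (S * D * S) + (1 / 4 : ℝ) • UU C S S - lam • S).toBlocks₂₂‖ ≤ eps := by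
      refine le_trans (norm_blocks_le ?_) hB.base
      exact (((AbsG_mul3_symm hB.symS hB.symD).smul _).add ((UU_symm C hB.symS hB.symS).smul _)).sub (hB.symS.smul _)
    obtain ⟨B, hBB⟩ : ∃ B, B = ((1 / 2 : ℝ) • (S * D * S) + (1 / 4 : ℝ) • UU C S S - lam • S).toBlocks₂₂ :=
      ⟨_, rfl⟩
    rw [← hBB] at h1 h2
    rw [← hF, ← hℓ] at h1
    have h3 : ‖F x - ℓ x‖ = ‖((F x : Matrix ι ι ℝ) - B - (ℓ x : Matrix ι ι ℝ)) + B‖ := by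
      rw [show ‖F x - ℓ x‖ = ‖(F x : Matrix ι ι ℝ) - (ℓ x : Matrix ι ι ℝ)‖ from rfl]
      congr 1
      abel
    rw [h3]
    refine le_trans (norm_add_le _ _) ?_
    linarith
  have hunit : ∀ x : AbsG_V Γ', ‖x‖ ≤ r →
      IsUnit (S.toBlocks₂₂ + (x : Matrix ι ι ℝ)).det := fun x hx =>
    (ghatG_inv hB x.2.1 (le_trans hx hrc)).1
  have hFc : ContinuousOn F (Metric.closedBall (0 : AbsG_V Γ') r) :=
    AbsG_F_cont (Cm C) S.toBlocks₂₂ lam F hF fun x hx => hunit x (mem_closedBall_zero_iff.1 hx)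
  obtain ⟨x, hx, hF0⟩ := AbsG_brouwer ℓ (A := 2 * K) hr0.le hℓb F hFc (by
      intro x hx
      have h2 := hest x hx
      have h3 : (τ + r) ^ 2 ≤ 4 * r ^ 2 := by nlinarith
      have h4 : 2 * K * ‖F x - ℓ x‖ ≤ 2 * K * (eps + 50 * c ^ 10 * (4 * r ^ 2)) := by
        apply mul_le_mul_of_nonneg_left _ (by positivity)
        refine le_trans h2 ?_
        have h5 : 50 * c ^ 10 * (τ + r) ^ 2 ≤ 50 * c ^ 10 * (4 * r ^ 2) :=
          mul_le_mul_of_nonneg_left h3 (by positivity)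
        linarith
      refine le_trans h4 ?_
      have h6 : 2 * K * (eps + 50 * c ^ 10 * (4 * r ^ 2)) =
          2 * (K * eps) + 4 / 5 * (500 * K * c ^ 10 * r) * r := by ring
      rw [h6, hr1]
      linarith)
  have hEE : EE (Cm C) lam (S.toBlocks₂₂ + (x : Matrix ι ι ℝ))
      (S.toBlocks₂₂ + (x : Matrix ι ι ℝ))⁻¹ = 0 := by
    rw [← hF, hF0]
    rfl
  obtain ⟨hu, hs, -, hpos⟩ := ghatG_inv hB x.2.1 (le_trans hx hrc)
  obtain ⟨P, hP⟩ : ∃ P, P = S.toBlocks₂₂ + (x : Matrix ι ι ℝ) := ⟨_, rfl⟩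
  have hGf := hGfix x
  rw [← hP] at hEE hu hs hpos hGf
  have hGP : P⁻¹ * P = 1 := Matrix.nonsing_inv_mul _ hu
  have hPG : P * P⁻¹ = 1 := Matrix.mul_nonsing_inv _ hu
  refine ⟨P⁻¹, hs, hpos, fun κ' h => hGf κ' h,
    Matrix.isUnit_nonsing_inv_det P hu, ?_⟩
  rw [Matrix.nonsing_inv_nonsing_inv P hu]
  unfold EE at hEE
  unfold RicM
  have h1 := congrArg (fun X => P⁻¹ * X * P⁻¹) hEE
  simp only [Matrix.mul_zero, Matrix.zero_mul, Matrix.mul_sub, Matrix.sub_mul, Matrix.mul_add,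
    Matrix.add_mul, Matrix.mul_smul, Matrix.smul_mul] at h1
  have e1 : P⁻¹ * (P * P) * P⁻¹ = 1 := by
    rw [← Matrix.mul_assoc, hGP, Matrix.one_mul, hPG]
  have e2 : P⁻¹ * (P * UU (Cm C) P⁻¹ P * P) * P⁻¹ = UU (Cm C) P⁻¹ P := by
    calc P⁻¹ * (P * UU (Cm C) P⁻¹ P * P) * P⁻¹ =
        (P⁻¹ * P) * UU (Cm C) P⁻¹ P * (P * P⁻¹) := by simp only [Matrix.mul_assoc]
      _ = UU (Cm C) P⁻¹ P := by rw [hGP, hPG, Matrix.one_mul, Matrix.mul_one]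
  have e3 : P⁻¹ * P * P⁻¹ = P⁻¹ := by rw [hGP, Matrix.one_mul]
  rw [e1, e2, e3] at h1
  exact sub_eq_zero.1 h1

end Pool.Agent.EinG
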