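import Pool.Agent.EinU.GHat

/-!
# Perturbation of a left-invariant Einstein metric under a small isotropy group, general form: definitions

Library: `Pool/Agent/EinU` (`Base.lean`, `Eta.lean`: `Eta`, `qf`, `AA`, `EE`, `blk`, `Ph`, `Cm`, `TH2`, `mo`, `eta_of_norm`, `qf_le`,
`norm_UU_of_qf`; `GHat.lean`: `norm_blk_le`, `norm_blocks_le`, `norm_Ph_le`), `Pool/Agent/EinS`, `Pool/Agent/SmIso`.
All norms are `L²` operator norms.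

Difference with `EinU`: `S * pp = pp * S` instead of `S * pp = pp`; `UU C T S = 1 - D` with a symmetric `D = D * pp` which commutes
with `S`; the symmetric matrices considered are those invariant under a set `Γ` of automorphisms.
-/

namespace Pool.Agent.EinG

open Matrix Pool.Agent.EStab Pool.Agent.EinS Pool.Agent.SmIso Pool.Agent.EinU
open scoped Matrix.Norms.L2Operator

section Mat

variable {J : Type*} [Fintype J] [DecidableEq J]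

/-- The linearised Einstein equation. -/
noncomputable def ellG (C : J → Matrix J J ℝ) (S T D : Matrix J J ℝ) (lam : ℝ)
    (β : Matrix J J ℝ) : Matrix J J ℝ :=
  (1 / 2 : ℝ) • (β * (S * D) + S * D * β) - (1 / 2 : ℝ) • (S * AA C S T β * S) +
    (1 / 2 : ℝ) • UU C S β - lam • β

/-- The gap: `ellG` is bounded below on the symmetric matrices which are invariant under `Γ`. -/
def GapG (C : J → Matrix J J ℝ) (Γ : Set (Matrix J J ℝ)) (S T D : Matrix J J ℝ) (lam K : ℝ) :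
    Prop :=
  ∀ β : Matrix J J ℝ, β.IsSymm → (∀ M ∈ Γ, M * β * Mᵀ = β) → ‖β‖ ≤ K * ‖ellG C S T D lam β‖

variable {κ ι : Type*} [Fintype κ] [DecidableEq κ] [Fintype ι] [DecidableEq ι]

/-- The data of the perturbation theorem. -/
structure BaseG (C : κ ⊕ ι → Matrix (κ ⊕ ι) (κ ⊕ ι) ℝ) (Γ : Set (Matrix (κ ⊕ ι) (κ ⊕ ι) ℝ))
    (S T pp D : Matrix (κ ⊕ ι) (κ ⊕ ι) ℝ) (c τ lam eps : ℝ) : Prop where
  csym : CSym C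
  one : UU C 1 1 = 1
  symS : S.IsSymm
  symT : T.IsSymm
  symp : pp.IsSymm
  symD : D.IsSymm
  ST : S * T = 1
  c1 : 1 ≤ c
  nS : ‖S‖ ≤ c
  nT : ‖T‖ ≤ c
  nD : ‖D‖ ≤ c
  posS : ∀ v, 1 / c * (v ⬝ᵥ v) ≤ v ⬝ᵥ (S *ᵥ v)
  pp2 : pp * pp = pp
  Spp : S * pp = pp * S
  Dpp : D * pp = D
  SD : S * D = D * S
  hpp : Ph κ ι * pp = 0
  eh : Eta C (Ph κ ι) τ
  eS : Eta C (S * Ph κ ι) τ
  eT : Eta C (T * Ph κ ι) τ
  uts : UU C T S = 1 - D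
  la : 0 < lam
  la' : 1 / lam ≤ c
  base : ‖(1 / 2 : ℝ) • (S * D * S) + (1 / 4 : ℝ) • UU C S S - lam • S‖ ≤ eps
  inv : ∀ M ∈ Γ, CInv C M ∧ M * S * Mᵀ = S ∧ M * Ph κ ι * Mᵀ = Ph κ ι
  cp : ∀ β : Matrix (κ ⊕ ι) (κ ⊕ ι) ℝ, β.IsSymm → (∀ M ∈ Γ, M * β * Mᵀ = β) → β * pp = pp * β
  z : ∀ β : Matrix (κ ⊕ ι) (κ ⊕ ι) ℝ, β.IsSymm → (∀ M ∈ Γ, M * β * Mᵀ = β) →
    AA C S T β = pp * AA C S T β * pp

end Mat

section Lie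

variable {L : Type*} [LieRing L] [LieAlgebra ℝ L]

/-- `β` is symmetric and commutes with the automorphisms in `Γ`. -/
def Cls (Γ : Set (L ≃ₗ⁅ℝ⁆ L)) (β : L →ₗ[ℝ] L) : Prop :=
  QSym β ∧ ∀ γ ∈ Γ, ∀ x, β (γ x) = γ (β x)

/-- The form of the linearised Einstein equation. -/
noncomputable def ellQG (S T D : L →ₗ[ℝ] L) (lam : ℝ) (β : L →ₗ[ℝ] L) (z : L) : ℝ :=
  Qf L (β z) (S (D z)) -
    1 / 2 * (TH2 T β (S z) (S z) - TH2 (T ∘ₗ β ∘ₗ T) S (S z) (S z)) +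
    1 / 2 * TH2 S β z z - lam * Qf L (β z) z

/-- The data of the perturbation theorem on the Lie algebra. -/
structure LBaseG (h : LieSubalgebra ℝ L) (Γ : Set (L ≃ₗ⁅ℝ⁆ L)) (S T Pp D : L →ₗ[ℝ] L)
    (c τ lam eps : ℝ) : Prop where
  symS : QSym S
  symT : QSym T
  symP : QSym Pp
  symD : QSym D
  ST : ∀ x, S (T x) = x
  TS : ∀ x, T (S x) = x
  c1 : 1 ≤ c
  t0 : 0 ≤ τ
  e0 : 0 ≤ eps
  loS : ∀ x, 1 / c * Qf L x x ≤ Qf L (S x) x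
  hiS : ∀ x, Qf L (S x) x ≤ c * Qf L x x
  loT : ∀ x, 0 ≤ Qf L (T x) x
  hiT : ∀ x, Qf L (T x) x ≤ c * Qf L x x
  bdD : ∀ x, |Qf L (D x) x| ≤ c * Qf L x x
  pp2 : ∀ x, Pp (Pp x) = Pp x
  Spp : ∀ x, S (Pp x) = Pp (S x)
  Dpp : ∀ x, D (Pp x) = D x
  SD : ∀ x, S (D x) = D (S x)
  hpp : ∀ y ∈ h, Pp y = 0
  et : ∀ (n : ℕ) (a : Fin n → L), (∀ i, a i ∈ h) →
    (∀ i j, Qf L (a i) (a j) = if i = j then 1 else 0) → ∀ x,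
      ∑ i, Qf L ⁅a i, x⁆ ⁅a i, x⁆ ≤ τ ^ 2 * Qf L x x ∧
      ∑ i, Qf L ⁅S (a i), x⁆ ⁅S (a i), x⁆ ≤ τ ^ 2 * Qf L x x ∧
      ∑ i, Qf L ⁅T (a i), x⁆ ⁅T (a i), x⁆ ≤ τ ^ 2 * Qf L x x
  uts : ∀ x, TH2 T S x x = Qf L x x - Qf L (D x) x
  la : 0 < lam
  la' : 1 / lam ≤ c
  base : ∀ x, |1 / 2 * Qf L (S (D (S x))) x + 1 / 4 * TH2 S S x x - lam * Qf L (S x) x| ≤
    eps * Qf L x x
  inv : ∀ γ ∈ Γ, h.map (γ : L →ₗ⁅ℝ⁆ L) = h ∧ ∀ x, S (γ x) = γ (S x)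
  cp : ∀ β : L →ₗ[ℝ] L, Cls Γ β → ∀ x, β (Pp x) = Pp (β x)
  z : ∀ β : L →ₗ[ℝ] L, Cls Γ β → ∀ x,
    TH2 T β x x - TH2 (T ∘ₗ β ∘ₗ T) S x x =
      TH2 T β (Pp x) (Pp x) - TH2 (T ∘ₗ β ∘ₗ T) S (Pp x) (Pp x)

/-- The gap on the Lie algebra. -/
def GapLG (Γ : Set (L ≃ₗ⁅ℝ⁆ L)) (S T D : L →ₗ[ℝ] L) (lam K : ℝ) : Prop :=
  ∀ β : L →ₗ[ℝ] L, Cls Γ β → ∀ s : ℝ,
    (∀ z, |ellQG S T D lam β z| ≤ s * Qf L z z) → ∀ z, |Qf L (β z) z| ≤ K * s * Qf L z z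

/-- The automorphisms which preserve `h` and commute with `S`. -/
def autsG (h : LieSubalgebra ℝ L) (S : L →ₗ[ℝ] L) : Set (L →ₗ[ℝ] L) :=
  {γ | ∃ δ : L ≃ₗ⁅ℝ⁆ L, h.map (δ : L →ₗ⁅ℝ⁆ L) = h ∧ (∀ x, S (δ x) = δ (S x)) ∧
    ∀ x, γ x = δ x}

end Lie

end Pool.Agent.EinG
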