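import Pool.Agent.EinG.Base
import Pool.Agent.EinS.Prod

/-!
# Operators on powers and on products of powers: definitions

`M^q = {mean value zero} ⊕ {diagonal}`; `Op q A B` acts as `A` on the first and as `B` on the second summand, `QF q f g z` is the
quadratic form `f` on the first plus `g` on the second.  The base metric on `M^q` is `Tb`, its inverse is `Sb`.
-/

namespace Pool.Agent.EinG

open Pool.Agent.EStab Pool.Agent.EinS Pool.Agent.SmIso Pool.Agent.EinU

section One

variable {M : Type} [LieRing M] [LieAlgebra ℝ M]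

/-- The mean value. -/
noncomputable def av {q : ℕ} (x : Fin q → M) : M := (q : ℝ)⁻¹ • ∑ b, x b

theorem av_add {q : ℕ} (x y : Fin q → M) : av (x + y) = av x + av y := by
  unfold av
  rw [← smul_add, ← Finset.sum_add_distrib]
  rfl

theorem av_smul {q : ℕ} (c : ℝ) (x : Fin q → M) : av (c • x) = c • av x := by
  unfold av
  rw [smul_comm c, Finset.smul_sum (r := c)]
  rfl

/-- `A` on the vectors with mean value zero, `B` on the diagonal. -/
noncomputable def Op (q : ℕ) (A B : M →ₗ[ℝ] M) : (Fin q → M) →ₗ[ℝ] (Fin q → M) where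
  toFun x a := A (x a - av x) + B (av x)
  map_add' x y := by
    funext a
    change A (x a + y a - av (x + y)) + B (av (x + y)) =
      A (x a - av x) + B (av x) + (A (y a - av y) + B (av y))
    rw [av_add, map_sub, map_sub, map_sub, map_add, map_add, map_add]
    abel
  map_smul' c x := by
    funext a
    change A (c • x a - av (c • x)) + B (av (c • x)) = c • (A (x a - av x) + B (av x))
    rw [av_smul, ← smul_sub, map_smul, map_smul, smul_add]

theorem Op_apply (q : ℕ) (A B : M →ₗ[ℝ] M) (x : Fin q → M) (a : Fin q) :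
    Op q A B x a = A (x a - av x) + B (av x) := rfl

/-- The quadratic form `f` on the vectors with mean value zero plus `g` on the diagonal. -/
noncomputable def QF (q : ℕ) (f g : M → ℝ) (z : Fin q → M) : ℝ :=
  ∑ a, f (z a - av z) + q * g (av z)

/-- The scalar operator. -/
noncomputable def sc (M : Type) [LieRing M] [LieAlgebra ℝ M] (t : ℝ) : M →ₗ[ℝ] M :=
  t • LinearMap.id

/-- The constant of the base metric. -/
noncomputable def cq (q : ℕ) : ℝ := (q + 3) / (4 * (q + 1))

/-- The inverse of the base metric on `M^q`. -/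
noncomputable def Sb (M : Type) [LieRing M] [LieAlgebra ℝ M] (q : ℕ) :
    (Fin q → M) →ₗ[ℝ] (Fin q → M) :=
  Op q (sc M (cq q)⁻¹) (sc M ((q + 1) * (cq q)⁻¹))

/-- The base metric on `M^q`. -/
noncomputable def Tb (M : Type) [LieRing M] [LieAlgebra ℝ M] (q : ℕ) :
    (Fin q → M) →ₗ[ℝ] (Fin q → M) :=
  Op q (sc M (cq q)) (sc M (cq q / (q + 1)))

/-- The projection to the vectors with mean value zero. -/
noncomputable def Pb (M : Type) [LieRing M] [LieAlgebra ℝ M] (q : ℕ) :
    (Fin q → M) →ₗ[ℝ] (Fin q → M) :=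
  Op q (sc M 1) (sc M 0)

/-- The defect `1 - UU T S` of the base metric. -/
noncomputable def Db (M : Type) [LieRing M] [LieAlgebra ℝ M] (q : ℕ) :
    (Fin q → M) →ₗ[ℝ] (Fin q → M) :=
  Op q (sc M (-(q / (q + 1)))) (sc M 0)

/-- The form of the linearised Einstein equation on the vectors with mean value zero, times `cq q`. -/
noncomputable def mf (q : ℕ) (A B : M →ₗ[ℝ] M) (u : M) : ℝ :=
  -((5 * q + 3) / (4 * (q + 1))) * Qf M (A u) u +
    (3 * q ^ 2 + 3 * q - 1) / (2 * q * (q + 1)) * TH A u u + 1 / (2 * q * (q + 1) ^ 2) * TH B u u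

/-- The form of the linearised Einstein equation on the diagonal, times `cq q`. -/
noncomputable def df (q : ℕ) (A B : M →ₗ[ℝ] M) (u : M) : ℝ :=
  1 / 2 * (1 - 1 / q) * TH A u u + (q + 1) / (2 * q) * TH B u u - cq q * Qf M (B u) u

/-- The linearised Einstein equation at the base metric has no solution. -/
def NonRes (M : Type) [LieRing M] [LieAlgebra ℝ M] (q : ℕ) : Prop :=
  ∀ A B : M →ₗ[ℝ] M, QSym A → QSym B → (∀ u, mf q A B u = 0) → (∀ u, df q A B u = 0) →
    A = 0 ∧ B = 0

/-- The permutations of the copies of `M`. -/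
def permAut1 (M : Type) [LieRing M] [LieAlgebra ℝ M] (q : ℕ) (σ : Equiv.Perm (Fin q)) :
    (Fin q → M) ≃ₗ⁅ℝ⁆ (Fin q → M) where
  toFun x a := x (σ a)
  map_add' _ _ := rfl
  map_smul' _ _ := rfl
  map_lie' := rfl
  invFun x a := x (σ.symm a)
  left_inv x := by
    funext a
    simp
  right_inv x := by
    funext a
    simp

/-- The set of the permutations of the copies of `M`. -/
def perm1 (M : Type) [LieRing M] [LieAlgebra ℝ M] (q : ℕ) :
    Set ((Fin q → M) ≃ₗ⁅ℝ⁆ (Fin q → M)) :=
  Set.range (permAut1 M q)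

end One

section Pi

variable {n : ℕ}

/-- The block diagonal operator. -/
def DP {E : Fin n → Type} [∀ i, LieRing (E i)] [∀ i, LieAlgebra ℝ (E i)]
    (T : ∀ i, E i →ₗ[ℝ] E i) : (∀ i, E i) →ₗ[ℝ] (∀ i, E i) where
  toFun x i := T i (x i)
  map_add' x y := by
    funext i
    exact map_add (T i) (x i) (y i)
  map_smul' c x := by
    funext i
    exact map_smul (T i) c (x i)

theorem DP_apply {E : Fin n → Type} [∀ i, LieRing (E i)] [∀ i, LieAlgebra ℝ (E i)]
    (T : ∀ i, E i →ₗ[ℝ] E i) (x : ∀ i, E i) (i : Fin n) : DP T x i = T i (x i) := rfl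

/-- The diagonal block. -/
def bl {E : Fin n → Type} [∀ i, LieRing (E i)] [∀ i, LieAlgebra ℝ (E i)]
    (U : (∀ i, E i) →ₗ[ℝ] (∀ i, E i)) (i : Fin n) : E i →ₗ[ℝ] E i :=
  LinearMap.proj i ∘ₗ U ∘ₗ LinearMap.single ℝ E i

variable (L : Fin n → Type) [∀ i, LieRing (L i)] [∀ i, LieAlgebra ℝ (L i)] (q : Fin n → ℕ)

/-- The permutations of the copies in each block. -/
def permAut (σ : ∀ i, Equiv.Perm (Fin (q i))) :
    (∀ i, Fin (q i) → L i) ≃ₗ⁅ℝ⁆ (∀ i, Fin (q i) → L i) where
  toFun x i a := x i (σ i a)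
  map_add' _ _ := rfl
  map_smul' _ _ := rfl
  map_lie' := rfl
  invFun x i a := x i ((σ i).symm a)
  left_inv x := by
    funext i a
    simp
  right_inv x := by
    funext i a
    simp

/-- The set of the permutations of the copies in each block. -/
def perms : Set ((∀ i, Fin (q i) → L i) ≃ₗ⁅ℝ⁆ (∀ i, Fin (q i) → L i)) :=
  Set.range (permAut L q)

end Pi

end Pool.Agent.EinG
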