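import Pool.Agent.EinG.Base
import Pool.Agent.SmIso.RigGap

/-!
# Injective families of quadratic forms on a finite-dimensional space have a gap

Exactly the argument of `gap0_of_rigid` in `SmIso/RigGap.lean` (copy its private lemmas): in a frame `e` of `E` (`exists_frame` for `⊤`), the map
`V → (Fin n → Fin n → ℝ)`, `β ↦ (1/2) (f β (e_i + e_j) (e_i + e_j) - f β e_i e_i - f β e_j e_j)` (= symmetrised entries) is linear and injective
(the quadratic form `z ↦ f β z z` is determined by the symmetrised entries), so it has a linear left inverse, and the entries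
`Qf (β e_i) e_j` are bounded by a multiple of the symmetrised entries, which are bounded by `s` (polarisation: evaluate at `e_i ± e_j`).
-/

namespace Pool.Agent.EinG

open Pool.Agent.EStab Pool.Agent.EinS Pool.Agent.SmIso Pool.Agent.EinU

section FinGap

variable {E : Type*} [LieRing E] [LieAlgebra ℝ E]

/-- The symmetrised entries of the form `f β`. -/
private noncomputable def FinGapF {n : ℕ} (e : Fin n → E) (V : Submodule ℝ (E →ₗ[ℝ] E))
    (f : (E →ₗ[ℝ] E) →ₗ[ℝ] (E →ₗ[ℝ] E →ₗ[ℝ] ℝ)) : V →ₗ[ℝ] (Fin n → Fin n → ℝ) where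
  toFun := fun β i j => 1 / 2 * (f β.1 (e i) (e j) + f β.1 (e j) (e i))
  map_add' := fun S T => by
    funext i j
    change 1 / 2 * (f (S.1 + T.1) (e i) (e j) + f (S.1 + T.1) (e j) (e i)) =
      1 / 2 * (f S.1 (e i) (e j) + f S.1 (e j) (e i)) +
      1 / 2 * (f T.1 (e i) (e j) + f T.1 (e j) (e i))
    rw [map_add, LinearMap.add_apply, LinearMap.add_apply, LinearMap.add_apply,
      LinearMap.add_apply]
    ring
  map_smul' := fun c T => by
    funext i j
    change 1 / 2 * (f (c • T.1) (e i) (e j) + f (c • T.1) (e j) (e i)) =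
      c * (1 / 2 * (f T.1 (e i) (e j) + f T.1 (e j) (e i)))
    rw [map_smul, LinearMap.smul_apply, LinearMap.smul_apply, LinearMap.smul_apply,
      LinearMap.smul_apply, smul_eq_mul, smul_eq_mul]
    ring

/-- The entries of the form of `β`. -/
private noncomputable def FinGapG {n : ℕ} (e : Fin n → E) (V : Submodule ℝ (E →ₗ[ℝ] E)) :
    V →ₗ[ℝ] (Fin n → Fin n → ℝ) where
  toFun := fun T i j => Qf E (T.1 (e i)) (e j)
  map_add' := fun S T => by
    funext i j
    change Qf E ((S.1 + T.1) (e i)) (e j) = Qf E (S.1 (e i)) (e j) + Qf E (T.1 (e i)) (e j)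
    rw [LinearMap.add_apply, map_add, LinearMap.add_apply]
  map_smul' := fun c T => by
    funext i j
    change Qf E ((c • T.1) (e i)) (e j) = c * Qf E (T.1 (e i)) (e j)
    rw [LinearMap.smul_apply, map_smul, LinearMap.smul_apply, smul_eq_mul]

private theorem FinGap_quad {n : ℕ} {e : Fin n → E} (he : IsFrame (⊤ : Submodule ℝ E) e)
    (B : E →ₗ[ℝ] E →ₗ[ℝ] ℝ) (x : E) :
    B x x = ∑ i, ∑ j, Qf E x (e i) * Qf E x (e j) * B (e i) (e j) := by
  have hx' := he.exp x Submodule.mem_top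
  have h1 : ∀ y : E, B x y = ∑ i, Qf E x (e i) * B (e i) y := by
    intro y
    conv_lhs => rw [hx']
    rw [map_sum, LinearMap.sum_apply]
    refine Finset.sum_congr rfl fun i _ => ?_
    rw [map_smul, LinearMap.smul_apply, smul_eq_mul]
  rw [h1]
  refine Finset.sum_congr rfl fun i _ => ?_
  have h2 : B (e i) x = ∑ j, Qf E x (e j) * B (e i) (e j) := by
    conv_lhs => rw [hx']
    rw [map_sum]
    refine Finset.sum_congr rfl fun j _ => ?_
    rw [map_smul, smul_eq_mul]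
  rw [h2, Finset.mul_sum]
  refine Finset.sum_congr rfl fun j _ => ?_
  ring

private theorem FinGap_inj {n : ℕ} {e : Fin n → E} (he : IsFrame (⊤ : Submodule ℝ E) e)
    (B : E →ₗ[ℝ] E →ₗ[ℝ] ℝ) (h : ∀ i j, 1 / 2 * (B (e i) (e j) + B (e j) (e i)) = 0) (x : E) :
    B x x = 0 := by
  have h1 := FinGap_quad he B x
  have h2 : B x x = ∑ i, ∑ j, Qf E x (e i) * Qf E x (e j) * B (e j) (e i) := by
    rw [h1, Finset.sum_comm]
    refine Finset.sum_congr rfl fun i _ => Finset.sum_congr rfl fun j _ => ?_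
    ring
  have h3 : B x x + B x x = 0 := by
    conv_lhs => rw [h2]
    conv_lhs =>
      enter [1]
      rw [← h2, h1]
    rw [← Finset.sum_add_distrib]
    refine Finset.sum_eq_zero fun i _ => ?_
    rw [← Finset.sum_add_distrib]
    refine Finset.sum_eq_zero fun j _ => ?_
    have := h i j
    have h4 : B (e i) (e j) + B (e j) (e i) = 0 := by linarith
    rw [← mul_add, h4, mul_zero]
  linarith

private theorem FinGap_polar {n : ℕ} {e : Fin n → E} (he : IsFrame (⊤ : Submodule ℝ E) e)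
    (B : E →ₗ[ℝ] E →ₗ[ℝ] ℝ) {s : ℝ} (hs : ∀ x, |B x x| ≤ s * Qf E x x) (i j : Fin n) :
    |1 / 2 * (B (e i) (e j) + B (e j) (e i))| ≤ s := by
  have h1 := hs (e i + e j)
  have h2 := hs (e i - e j)
  have ha : ∀ x y : E, B (x + y) (x + y) = B x x + B x y + B y x + B y y := by
    intro x y
    rw [map_add, map_add, LinearMap.add_apply, LinearMap.add_apply]
    ring
  have hb : ∀ x y : E, B (x - y) (x - y) = B x x - B x y - B y x + B y y := by
    intro x y
    rw [map_sub, map_sub, LinearMap.sub_apply, LinearMap.sub_apply]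
    ring
  have hca : Qf E (e i + e j) (e i + e j) =
      Qf E (e i) (e i) + Qf E (e i) (e j) + Qf E (e j) (e i) + Qf E (e j) (e j) := by
    rw [map_add, map_add, LinearMap.add_apply, LinearMap.add_apply]
    ring
  have hcb : Qf E (e i - e j) (e i - e j) =
      Qf E (e i) (e i) - Qf E (e i) (e j) - Qf E (e j) (e i) + Qf E (e j) (e j) := by
    rw [map_sub, map_sub, LinearMap.sub_apply, LinearMap.sub_apply]
    ring
  have hii : Qf E (e i) (e i) = 1 := by rw [he.orth, if_pos rfl]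
  have hjj : Qf E (e j) (e j) = 1 := by rw [he.orth, if_pos rfl]
  rw [ha, hca, hii, hjj, Qf_symm (e j) (e i)] at h1
  rw [hb, hcb, hii, hjj, Qf_symm (e j) (e i)] at h2
  rw [abs_le] at h1 h2 ⊢
  constructor
  · linarith [h1.1, h1.2, h2.1, h2.2]
  · linarith [h1.1, h1.2, h2.1, h2.2]

private theorem FinGap_bound {n : ℕ} {e : Fin n → E} (he : IsFrame (⊤ : Submodule ℝ E) e)
    (V : Submodule ℝ (E →ₗ[ℝ] E)) (f : (E →ₗ[ℝ] E) →ₗ[ℝ] (E →ₗ[ℝ] E →ₗ[ℝ] ℝ))
    (hf : ∀ β ∈ V, (∀ z, f β z z = 0) → β = 0) : ∃ C : ℝ, 0 ≤ C ∧ ∀ β ∈ V, ∀ s : ℝ, 0 ≤ s →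
      (∀ i j, |1 / 2 * (f β (e i) (e j) + f β (e j) (e i))| ≤ s) →
      ∀ i j, |Qf E (β (e i)) (e j)| ≤ C * s := by
  have hker : LinearMap.ker (FinGapF e V f) = ⊥ := by
    rw [LinearMap.ker_eq_bot']
    intro T hT
    apply Subtype.ext
    exact hf T.1 T.2 fun z => FinGap_inj he (f T.1) (fun i j => congrFun (congrFun hT i) j) z
  obtain ⟨g, hg⟩ := LinearMap.exists_leftInverse_of_injective (FinGapF e V f) hker
  set k : (Fin n → Fin n → ℝ) →L[ℝ] (Fin n → Fin n → ℝ) :=
    LinearMap.toContinuousLinearMap (FinGapG e V ∘ₗ g) with hk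
  refine ⟨‖k‖, norm_nonneg _, fun T hT s hs hB i j => ?_⟩
  set T' : V := ⟨T, hT⟩ with hT'
  have h1 : k (FinGapF e V f T') = FinGapG e V T' := by
    change FinGapG e V (g (FinGapF e V f T')) = _
    have := congrArg (fun f : V →ₗ[ℝ] V => f T') hg
    change g (FinGapF e V f T') = T' at this
    rw [this]
  have h2 : ‖FinGapF e V f T'‖ ≤ s := by
    rw [pi_norm_le_iff_of_nonneg hs]
    intro i
    rw [pi_norm_le_iff_of_nonneg hs]
    intro j
    exact hB i j
  have h3 : ‖FinGapG e V T'‖ ≤ ‖k‖ * s := by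
    rw [← h1]
    exact (k.le_opNorm _).trans (mul_le_mul_of_nonneg_left h2 (norm_nonneg _))
  have h4 : ‖FinGapG e V T' i j‖ ≤ ‖FinGapG e V T'‖ :=
    (norm_le_pi_norm (FinGapG e V T' i) j).trans (norm_le_pi_norm (FinGapG e V T') i)
  exact h4.trans h3

end FinGap

theorem finite_gap {E : Type*} [LieRing E] [LieAlgebra ℝ E] [Module.Finite ℝ E]
    (hg : CompactSemisimple E) (V : Submodule ℝ (E →ₗ[ℝ] E)) (hV : ∀ β ∈ V, QSym β)
    (f : (E →ₗ[ℝ] E) →ₗ[ℝ] (E →ₗ[ℝ] E →ₗ[ℝ] ℝ))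
    (hf : ∀ β ∈ V, (∀ z, f β z z = 0) → β = 0) :
    ∃ K : ℝ, 1 ≤ K ∧ ∀ β ∈ V, ∀ s : ℝ, (∀ z, |f β z z| ≤ s * Qf E z z) →
      ∀ z, |Qf E (β z) z| ≤ K * s * Qf E z z := by
  obtain ⟨n, e, he⟩ := exists_frame hg (⊤ : Submodule ℝ E)
  obtain ⟨C, hC, hb⟩ := FinGap_bound he V f hf
  refine ⟨max 1 (C * n), le_max_left _ _, fun T hT s hs x => ?_⟩
  rcases eq_or_ne x 0 with rfl | hx
  · rw [map_zero, map_zero, abs_zero, mul_zero]
  have hxp := Qf_pos hg hx
  have hs0 : 0 ≤ s := by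
    have := (abs_nonneg _).trans (hs x)
    by_contra hneg
    push Not at hneg
    nlinarith
  have h1 := hb T hT s hs0 (fun i j => FinGap_polar he (f T) hs i j)
  have h2 : Qf E (T x) x = ∑ i, ∑ j, Qf E x (e i) * Qf E x (e j) * Qf E (T (e i)) (e j) :=
    FinGap_quad he (Qf E ∘ₗ T : E →ₗ[ℝ] E →ₗ[ℝ] ℝ) x
  have h4 : Qf E x x = ∑ i, Qf E x (e i) ^ 2 := by
    rw [he.parseval Submodule.mem_top x]
    exact Finset.sum_congr rfl fun i _ => (pow_two _).symm
  have h5 : |Qf E (T x) x| ≤ (∑ i, |Qf E x (e i)|) ^ 2 * (C * s) := by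
    rw [h2, pow_two, Finset.sum_mul_sum, Finset.sum_mul]
    refine (Finset.abs_sum_le_sum_abs _ _).trans (Finset.sum_le_sum fun i _ => ?_)
    rw [Finset.sum_mul]
    refine (Finset.abs_sum_le_sum_abs _ _).trans (Finset.sum_le_sum fun j _ => ?_)
    rw [abs_mul, abs_mul]
    exact mul_le_mul_of_nonneg_left (h1 i j) (mul_nonneg (abs_nonneg _) (abs_nonneg _))
  have h6 : (∑ i, |Qf E x (e i)|) ^ 2 ≤ n * Qf E x x := by
    have := sq_sum_le_card_mul_sum_sq (s := Finset.univ) (f := fun i : Fin n => |Qf E x (e i)|)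
    rw [Finset.card_univ, Fintype.card_fin] at this
    rw [h4]
    refine this.trans (le_of_eq ?_)
    congr 1
    exact Finset.sum_congr rfl fun i _ => sq_abs _
  have h7 : |Qf E (T x) x| ≤ (C * n) * s * Qf E x x := by
    refine h5.trans ((mul_le_mul_of_nonneg_right h6 (mul_nonneg hC hs0)).trans (le_of_eq ?_))
    ring
  refine h7.trans ?_
  exact mul_le_mul_of_nonneg_right (mul_le_mul_of_nonneg_right (le_max_right _ _) hs0) hxp.le

end Pool.Agent.EinG
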