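import Pool.Agent.EinG.OpTH

/-!
# The linearised Einstein equation at the base metric

Everything follows from `TH2_Op`, `Op_Op`, `QF_Op`, `Qf_Op_Op`, `QF_add`, `QF_smul`, `TH2_sc_left`, `TH2_sc_right` and the identities
(`c = cq q = (q+3)/(4(q+1))`, `x = 1/(q+1)`, `S = (c⁻¹, (q+1) c⁻¹)`, `T = (c, c x)`, `D = (-q/(q+1), 0)`, `β = (A, B)`, `θ = TH`):
* `TH2 T β - TH2 (T β T) S = (c/q) ((1 - x²) θB - ((q+1) - x) θA)` on mean value zero and `0` on the diagonal; `T β T = (c² A, c² x² B)`.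
* `Qf (β z) (S (D z)) = -(q/(q+1)) c⁻¹ Qf (A u) u` on mean value zero, `0` on the diagonal.
* mean value zero: `- q/(q+1) - c = -(5q+3)/(4(q+1))`, `((q+1-x) + (q-2) + (q+1))/(2q) = (3q²+3q-1)/(2q(q+1))`.
* `uts_b`: `(1 - 2/q) + (1/q)(x + (q+1)) = 1 + q/(q+1)`, and `(1 - 1/q) + 1/q = 1`.
* `base_b`: `(1/4) ((1 - 2/q) + (2/q)(q+1)) - q/(2(q+1)) = c` and `(1/4)((1 - 1/q) + (1/q)(q+1)²) = c (q+1)`.
-/

set_option linter.all false
namespace Pool.Agent.EinG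

open Pool.Agent.EStab Pool.Agent.EinS Pool.Agent.SmIso Pool.Agent.EinU

variable {M : Type} [LieRing M] [LieAlgebra ℝ M] {q : ℕ}

private theorem OpEll_sc (t : ℝ) (u : M) : sc M t u = t • u := rfl

private theorem OpEll_TH_smul (A : M →ₗ[ℝ] M) (t : ℝ) (u : M) :
    TH A (t • u) (t • u) = t ^ 2 * TH A u u := by
  unfold TH
  rw [map_smul]
  have h : ((t • LieAlgebra.ad ℝ M u : Module.End ℝ M) ∘ₗ A ∘ₗ (t • LieAlgebra.ad ℝ M u : Module.End ℝ M)) =
      (t ^ 2) • ((LieAlgebra.ad ℝ M u : M →ₗ[ℝ] M) ∘ₗ A ∘ₗ (LieAlgebra.ad ℝ M u : M →ₗ[ℝ] M)) := by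
    ext v
    simp [smul_smul, sq]
  first
    | (rw [h, map_smul, smul_eq_mul]; ring)
    | (erw [h, map_smul, smul_eq_mul]; ring)

private theorem OpEll_TH_comp (A : M →ₗ[ℝ] M) (t : ℝ) (u : M) :
    TH (sc M t ∘ₗ A ∘ₗ sc M t) u u = t ^ 2 * TH A u u := by
  unfold TH
  have h : ((LieAlgebra.ad ℝ M u : M →ₗ[ℝ] M) ∘ₗ (sc M t ∘ₗ A ∘ₗ sc M t) ∘ₗ (LieAlgebra.ad ℝ M u : M →ₗ[ℝ] M)) =
      (t ^ 2) • ((LieAlgebra.ad ℝ M u : M →ₗ[ℝ] M) ∘ₗ A ∘ₗ (LieAlgebra.ad ℝ M u : M →ₗ[ℝ] M)) := by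
    ext v
    simp [smul_smul, sq, OpEll_sc]
  first
    | (rw [h, map_smul, smul_eq_mul]; ring)
    | (erw [h, map_smul, smul_eq_mul]; ring)

private theorem OpEll_S (x : Fin q → M) : Sb M q x =
    Op q (sc M (cq q)⁻¹) (sc M ((q + 1) * (cq q)⁻¹)) x := rfl

/-- the form `TH2 T β` -/
private theorem OpEll_p2 [Module.Finite ℝ M] (hq : 0 < q) (A B : M →ₗ[ℝ] M) (x : Fin q → M) :
    TH2 (Tb M q) (Op q A B) x x =
      QF q (fun u => (1 - 2 / q) * (cq q * TH A u u) +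
          1 / q * (cq q * TH B u u + cq q / (q + 1) * TH A u u))
        (fun u => (1 - 1 / q) * (cq q * TH A u u) + 1 / q * (cq q / (q + 1) * TH B u u)) x := by
  unfold Tb
  rw [TH2_Op hq]
  congr 1
  · funext u
    rw [TH2_sc_left, TH2_sc_left, TH2_sc_left]
  · funext u
    rw [TH2_sc_left, TH2_sc_left]

private theorem OpEll_TbT [Module.Finite ℝ M] (hq : 0 < q) (A B : M →ₗ[ℝ] M) :
    Tb M q ∘ₗ Op q A B ∘ₗ Tb M q =
      Op q (sc M (cq q) ∘ₗ A ∘ₗ sc M (cq q))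
        (sc M (cq q / (q + 1)) ∘ₗ B ∘ₗ sc M (cq q / (q + 1))) := by
  refine LinearMap.ext fun x => ?_
  show Tb M q (Op q A B (Tb M q x)) = _
  unfold Tb
  rw [Op_Op hq, Op_Op hq]
  rfl

/-- the form `TH2 (T β T) S` -/
private theorem OpEll_p3 [Module.Finite ℝ M] (hq : 0 < q) (A B : M →ₗ[ℝ] M) (x : Fin q → M) :
    TH2 (Tb M q ∘ₗ Op q A B ∘ₗ Tb M q) (Sb M q) x x =
      QF q (fun u => (1 - 2 / q) * ((cq q)⁻¹ * (cq q ^ 2 * TH A u u)) +
          1 / q * ((q + 1) * (cq q)⁻¹ * (cq q ^ 2 * TH A u u) +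
            (cq q)⁻¹ * ((cq q / (q + 1)) ^ 2 * TH B u u)))
        (fun u => (1 - 1 / q) * ((cq q)⁻¹ * (cq q ^ 2 * TH A u u)) +
          1 / q * ((q + 1) * (cq q)⁻¹ * ((cq q / (q + 1)) ^ 2 * TH B u u))) x := by
  rw [OpEll_TbT hq]
  unfold Sb
  rw [TH2_Op hq]
  congr 1
  · funext u
    rw [TH2_sc_right, TH2_sc_right, TH2_sc_right, OpEll_TH_comp, OpEll_TH_comp]
  · funext u
    rw [TH2_sc_right, TH2_sc_right, OpEll_TH_comp, OpEll_TH_comp]

/-- the form `TH2 S β` -/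
private theorem OpEll_p4 [Module.Finite ℝ M] (hq : 0 < q) (A B : M →ₗ[ℝ] M) (x : Fin q → M) :
    TH2 (Sb M q) (Op q A B) x x =
      QF q (fun u => (1 - 2 / q) * ((cq q)⁻¹ * TH A u u) +
          1 / q * ((cq q)⁻¹ * TH B u u + (q + 1) * (cq q)⁻¹ * TH A u u))
        (fun u => (1 - 1 / q) * ((cq q)⁻¹ * TH A u u) +
          1 / q * ((q + 1) * (cq q)⁻¹ * TH B u u)) x := by
  unfold Sb
  rw [TH2_Op hq]
  congr 1
  · funext u
    rw [TH2_sc_left, TH2_sc_left, TH2_sc_left]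
  · funext u
    rw [TH2_sc_left, TH2_sc_left]

private theorem OpEll_p1 [Module.Finite ℝ M] (hq : 0 < q) (A B : M →ₗ[ℝ] M) (z : Fin q → M) :
    Qf (Fin q → M) (Op q A B z) (Sb M q (Db M q z)) =
      QF q (fun u => -(q / (q + 1)) * (cq q)⁻¹ * Qf M (A u) u) (fun _ => 0) z := by
  unfold Sb Db
  rw [Op_Op hq, Qf_Op_Op hq]
  congr 1
  · funext u
    rw [LinearMap.comp_apply, OpEll_sc, OpEll_sc, map_smul, map_smul, smul_eq_mul, smul_eq_mul]
    ring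
  · funext u
    rw [LinearMap.comp_apply, OpEll_sc, OpEll_sc, zero_smul, smul_zero, map_zero]

private theorem OpEll_p5 [Module.Finite ℝ M] (hq : 0 < q) (A B : M →ₗ[ℝ] M) (z : Fin q → M) :
    Qf (Fin q → M) (Op q A B z) z =
      QF q (fun u => Qf M (A u) u) (fun u => Qf M (B u) u) z := by
  have h := Qf_Op_Op hq A B (sc M 1) (sc M 1) z
  rw [Op_one] at h
  rw [h]
  congr 1 <;> funext u <;> rw [OpEll_sc, one_smul]

private theorem OpEll_cq_pos (q : ℕ) : 0 < cq q := by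
  unfold cq
  positivity

theorem ellQG_Op [Module.Finite ℝ M] (hq : 0 < q) (A B : M →ₗ[ℝ] M) (z : Fin q → M) :
    ellQG (Sb M q) (Tb M q) (Db M q) 1 (Op q A B) z =
      QF q (fun u => (cq q)⁻¹ * mf q A B u) (fun u => (cq q)⁻¹ * df q A B u) z := by
  have hq0 : (0 : ℝ) < q := by exact_mod_cast hq
  have hc := OpEll_cq_pos q
  have hcne := hc.ne'
  unfold ellQG
  rw [OpEll_p1 hq, OpEll_p2 hq, OpEll_p3 hq, OpEll_p4 hq, OpEll_p5 hq, OpEll_S, QF_Op hq, QF_Op hq]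
  have e : ∀ a b c d f : ℝ, a - 1 / 2 * (b - c) + 1 / 2 * d - 1 * f =
      a + (-(1 / 2)) * b + 1 / 2 * c + 1 / 2 * d + (-1) * f := by intros; ring
  rw [e, QF_smul, QF_smul, QF_smul, QF_smul, QF_add, QF_add, QF_add, QF_add]
  have hcq : cq q = (q + 3) / (4 * (q + 1)) := rfl
  congr 1
  · funext u
    simp only [OpEll_sc, OpEll_TH_smul]
    unfold mf
    generalize TH A u u = a
    generalize TH B u u = b
    generalize Qf M (A u) u = c
    rw [hcq]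
    field_simp
    ring
  · funext u
    simp only [OpEll_sc, OpEll_TH_smul]
    unfold df
    generalize TH A u u = a
    generalize TH B u u = b
    generalize Qf M (B u) u = c
    rw [hcq]
    field_simp
    ring

theorem z_b [Module.Finite ℝ M] (hq : 0 < q) (A B : M →ₗ[ℝ] M) (x : Fin q → M) :
    TH2 (Tb M q) (Op q A B) x x - TH2 (Tb M q ∘ₗ Op q A B ∘ₗ Tb M q) (Sb M q) x x =
      TH2 (Tb M q) (Op q A B) (Pb M q x) (Pb M q x) -
        TH2 (Tb M q ∘ₗ Op q A B ∘ₗ Tb M q) (Sb M q) (Pb M q x) (Pb M q x) := by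
  have hq0 : (0 : ℝ) < q := by exact_mod_cast hq
  have hc := OpEll_cq_pos q
  have hcne := hc.ne'
  have hP : Pb M q x = Op q (sc M 1) (sc M 0) x := rfl
  rw [OpEll_p2 hq, OpEll_p3 hq, OpEll_p2 hq, OpEll_p3 hq, hP, QF_Op hq, QF_Op hq]
  have e : ∀ a b : ℝ, a - b = a + (-1) * b := by intros; ring
  rw [e, e (QF _ _ _ _) (QF _ _ _ _), QF_smul, QF_smul, QF_add, QF_add]
  congr 1
  · funext u
    simp only [OpEll_sc, OpEll_TH_smul]
    ring
  · funext u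
    simp only [OpEll_sc, OpEll_TH_smul]
    generalize TH A u u = a
    generalize TH B u u = b
    field_simp
    ring

theorem uts_b [Module.Finite ℝ M] (hq : 0 < q) (x : Fin q → M) :
    TH2 (Tb M q) (Sb M q) x x = Qf (Fin q → M) x x - Qf (Fin q → M) (Db M q x) x := by
  have hq0 : (0 : ℝ) < q := by exact_mod_cast hq
  have hc := OpEll_cq_pos q
  have hcne := hc.ne'
  have hS : Sb M q = Op q (sc M (cq q)⁻¹) (sc M ((q + 1) * (cq q)⁻¹)) := rfl
  have hD : Db M q = Op q (sc M (-(q / (q + 1)))) (sc M 0) := rfl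
  rw [hS, OpEll_p2 hq, hD, OpEll_p5 hq, Qf_QF hq]
  have e : ∀ a b : ℝ, a - b = a + (-1) * b := by intros; ring
  rw [e (QF _ _ _ _) (QF _ _ _ _), QF_smul, QF_add]
  congr 1
  · funext u
    simp only [OpEll_sc, TH_sc, map_smul, LinearMap.smul_apply, smul_eq_mul]
    generalize Qf M u u = a
    field_simp
    ring
  · funext u
    simp only [OpEll_sc, TH_sc, map_smul, LinearMap.smul_apply, smul_eq_mul]
    generalize Qf M u u = a
    field_simp
    ring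

theorem base_b [Module.Finite ℝ M] (hq : 0 < q) (x : Fin q → M) :
    1 / 2 * Qf (Fin q → M) (Sb M q (Db M q (Sb M q x))) x + 1 / 4 * TH2 (Sb M q) (Sb M q) x x -
      1 * Qf (Fin q → M) (Sb M q x) x = 0 := by
  have hq0 : (0 : ℝ) < q := by exact_mod_cast hq
  have hc := OpEll_cq_pos q
  have hcne := hc.ne'
  have hS : Sb M q = Op q (sc M (cq q)⁻¹) (sc M ((q + 1) * (cq q)⁻¹)) := rfl
  have hD : Db M q = Op q (sc M (-(q / (q + 1)))) (sc M 0) := rfl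
  have h1 : TH2 (Sb M q) (Sb M q) x x = TH2 (Sb M q)
      (Op q (sc M (cq q)⁻¹) (sc M ((q + 1) * (cq q)⁻¹))) x x := rfl
  rw [h1, OpEll_p4 hq, hS, hD, Op_Op hq, Op_Op hq, OpEll_p5 hq, OpEll_p5 hq]
  have e : ∀ a b c : ℝ, 1 / 2 * a + 1 / 4 * b - 1 * c = 1 / 2 * a + 1 / 4 * b + (-1) * c := by
    intros; ring
  have h0 : (0 : ℝ) = QF q (fun _ : M => 0) (fun _ => 0) x := by
    unfold QF
    simp
  rw [e, QF_smul, QF_smul, QF_smul, QF_add, QF_add]
  conv_rhs => rw [h0]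
  have hcq : cq q = (q + 3) / (4 * (q + 1)) := rfl
  congr 1
  · funext u
    simp only [LinearMap.comp_apply, OpEll_sc, TH_sc, map_smul, LinearMap.smul_apply, smul_eq_mul]
    generalize Qf M u u = a
    rw [hcq]
    field_simp
    ring
  · funext u
    simp only [LinearMap.comp_apply, OpEll_sc, TH_sc, map_smul, LinearMap.smul_apply, smul_eq_mul]
    generalize Qf M u u = a
    rw [hcq]
    field_simp
    ring

end Pool.Agent.EinG
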