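import Pool.Agent.EinG.Cls
import Pool.Agent.EinG.OpEll
import Pool.Agent.EinG.FinGap

/-!
# The gap on a power

`V` = the symmetric operators which commute with the permutations (a submodule of the endomorphisms of `Fin q → M`).  `z ↦ ellQG .. β z` is the
quadratic form of a bilinear form which depends linearly on `β`: take
`f β x y = Qf (β x) (S (D y)) - (1/2) (TH2 T β (S x) (S y) - TH2 (T β T) S (S x) (S y)) + (1/2) TH2 S β x y - Qf (β x) y` (compare `rigGapTH` in
`SmIso/RigGap.lean` for the bilinearity of trace forms).  If `ellQG .. β z = 0` for all `z`, then with `cls1_op` `β = Op q A B`, and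
`ellQG_Op`, `QF_two` (two different indices, `2 ≤ q`), `QF_const` give `mf q A B u = 0`, `df q A B u = 0` for all `u` (`cq q ≠ 0`; `mf`, `df` vanish at `0` and are
even), so `A = B = 0` by `NonRes`.  `finite_gap`; `Fin q → M` is compact semisimple by `compact_pi`.
-/

namespace Pool.Agent.EinG

open Pool.Agent.EStab Pool.Agent.EinS Pool.Agent.SmIso Pool.Agent.EinU

section BlkGapAux

variable {E : Type*} [LieRing E] [LieAlgebra ℝ E]

private theorem BlkGap_add_x (T U : E →ₗ[ℝ] E) (x x' y : E) :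
    TH2 T U (x + x') y = TH2 T U x y + TH2 T U x' y := by
  unfold TH2
  rw [map_add]
  change -LinearMap.trace ℝ E (((LieAlgebra.ad ℝ E x : E →ₗ[ℝ] E) +
    (LieAlgebra.ad ℝ E x' : E →ₗ[ℝ] E)) ∘ₗ T ∘ₗ (LieAlgebra.ad ℝ E y : E →ₗ[ℝ] E) ∘ₗ U) = _
  rw [LinearMap.add_comp, map_add]
  ring

private theorem BlkGap_smul_x (T U : E →ₗ[ℝ] E) (c : ℝ) (x y : E) :
    TH2 T U (c • x) y = c * TH2 T U x y := by
  unfold TH2
  rw [map_smul]
  change -LinearMap.trace ℝ E ((c • (LieAlgebra.ad ℝ E x : E →ₗ[ℝ] E)) ∘ₗ T ∘ₗ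
    (LieAlgebra.ad ℝ E y : E →ₗ[ℝ] E) ∘ₗ U) = _
  rw [LinearMap.smul_comp, map_smul, smul_eq_mul]
  ring

private theorem BlkGap_add_y (T U : E →ₗ[ℝ] E) (x y y' : E) :
    TH2 T U x (y + y') = TH2 T U x y + TH2 T U x y' := by
  unfold TH2
  rw [map_add]
  change -LinearMap.trace ℝ E ((LieAlgebra.ad ℝ E x : E →ₗ[ℝ] E) ∘ₗ T ∘ₗ
    ((LieAlgebra.ad ℝ E y : E →ₗ[ℝ] E) + (LieAlgebra.ad ℝ E y' : E →ₗ[ℝ] E)) ∘ₗ U) = _
  rw [LinearMap.add_comp, LinearMap.comp_add, LinearMap.comp_add, map_add]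
  ring

private theorem BlkGap_smul_y (T U : E →ₗ[ℝ] E) (c : ℝ) (x y : E) :
    TH2 T U x (c • y) = c * TH2 T U x y := by
  unfold TH2
  rw [map_smul]
  change -LinearMap.trace ℝ E ((LieAlgebra.ad ℝ E x : E →ₗ[ℝ] E) ∘ₗ T ∘ₗ
    (c • (LieAlgebra.ad ℝ E y : E →ₗ[ℝ] E)) ∘ₗ U) = _
  rw [LinearMap.smul_comp, LinearMap.comp_smul, LinearMap.comp_smul, map_smul, smul_eq_mul]
  ring

private theorem BlkGap_add_T (T T' U : E →ₗ[ℝ] E) (x y : E) :
    TH2 (T + T') U x y = TH2 T U x y + TH2 T' U x y := by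
  unfold TH2
  rw [LinearMap.add_comp, LinearMap.comp_add, map_add]
  ring

private theorem BlkGap_smul_T (T U : E →ₗ[ℝ] E) (c : ℝ) (x y : E) :
    TH2 (c • T) U x y = c * TH2 T U x y := by
  unfold TH2
  rw [LinearMap.smul_comp, LinearMap.comp_smul, map_smul, smul_eq_mul]
  ring

private theorem BlkGap_add_U (T U U' : E →ₗ[ℝ] E) (x y : E) :
    TH2 T (U + U') x y = TH2 T U x y + TH2 T U' x y := by
  unfold TH2
  rw [LinearMap.comp_add, LinearMap.comp_add, LinearMap.comp_add, map_add]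
  ring

private theorem BlkGap_smul_U (T U : E →ₗ[ℝ] E) (c : ℝ) (x y : E) :
    TH2 T (c • U) x y = c * TH2 T U x y := by
  unfold TH2
  rw [LinearMap.comp_smul, LinearMap.comp_smul, LinearMap.comp_smul, map_smul, smul_eq_mul]
  ring

/-- The bilinear form of the linearised Einstein equation. -/
private noncomputable def blkGapF (S T D : E →ₗ[ℝ] E) (lam : ℝ) (β : E →ₗ[ℝ] E) (x y : E) : ℝ :=
  Qf E (β x) (S (D y)) -
    1 / 2 * (TH2 T β (S x) (S y) - TH2 (T ∘ₗ β ∘ₗ T) S (S x) (S y)) +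
    1 / 2 * TH2 S β x y - lam * Qf E (β x) y

private noncomputable def blkGapB (S T D : E →ₗ[ℝ] E) (lam : ℝ) :
    (E →ₗ[ℝ] E) →ₗ[ℝ] (E →ₗ[ℝ] E →ₗ[ℝ] ℝ) where
  toFun β := LinearMap.mk₂ ℝ (blkGapF S T D lam β)
    (fun x x' y => by
      unfold blkGapF
      rw [map_add β, map_add S, BlkGap_add_x, BlkGap_add_x, BlkGap_add_x, map_add (Qf E),
        LinearMap.add_apply, LinearMap.add_apply]
      ring)
    (fun c x y => by
      unfold blkGapF
      rw [map_smul β, map_smul S, BlkGap_smul_x, BlkGap_smul_x, BlkGap_smul_x, map_smul (Qf E),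
        LinearMap.smul_apply, LinearMap.smul_apply, smul_eq_mul, smul_eq_mul, smul_eq_mul]
      ring)
    (fun x y y' => by
      unfold blkGapF
      rw [map_add D, map_add S, map_add S, BlkGap_add_y, BlkGap_add_y, BlkGap_add_y,
        map_add (Qf E (β x)), map_add (Qf E (β x))]
      ring)
    (fun c x y => by
      unfold blkGapF
      rw [map_smul D, map_smul S, map_smul S, BlkGap_smul_y, BlkGap_smul_y, BlkGap_smul_y,
        map_smul (Qf E (β x)), map_smul (Qf E (β x)), smul_eq_mul, smul_eq_mul, smul_eq_mul]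
      ring)
  map_add' β β' := by
    refine LinearMap.ext fun x => LinearMap.ext fun y => ?_
    change blkGapF S T D lam (β + β') x y =
      blkGapF S T D lam β x y + blkGapF S T D lam β' x y
    unfold blkGapF
    rw [LinearMap.add_comp, LinearMap.comp_add, BlkGap_add_U, BlkGap_add_U, BlkGap_add_T,
      LinearMap.add_apply, map_add (Qf E), LinearMap.add_apply, LinearMap.add_apply]
    ring
  map_smul' c β := by
    refine LinearMap.ext fun x => LinearMap.ext fun y => ?_
    change blkGapF S T D lam (c • β) x y = c * blkGapF S T D lam β x y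
    unfold blkGapF
    rw [LinearMap.smul_comp, LinearMap.comp_smul, BlkGap_smul_U, BlkGap_smul_U, BlkGap_smul_T,
      LinearMap.smul_apply, map_smul (Qf E), LinearMap.smul_apply, LinearMap.smul_apply,
      smul_eq_mul, smul_eq_mul]
    ring

/-- The operators in the class as a submodule. -/
private def blkGapV (Γ : Set (E ≃ₗ⁅ℝ⁆ E)) : Submodule ℝ (E →ₗ[ℝ] E) where
  carrier := {β | Cls Γ β}
  add_mem' := fun {a b} ha hb => ⟨fun x y => by
    rw [LinearMap.add_apply, LinearMap.add_apply, map_add, LinearMap.add_apply, map_add,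
      ha.1 x y, hb.1 x y], fun γ hγ x => by
    rw [LinearMap.add_apply, LinearMap.add_apply, ha.2 γ hγ, hb.2 γ hγ, map_add]⟩
  zero_mem' := ⟨fun x y => by
    rw [LinearMap.zero_apply, LinearMap.zero_apply, map_zero, map_zero, LinearMap.zero_apply],
    fun γ _ x => by
    rw [LinearMap.zero_apply, LinearMap.zero_apply, map_zero]⟩
  smul_mem' := fun c β h => ⟨fun x y => by
    rw [LinearMap.smul_apply, LinearMap.smul_apply, map_smul, LinearMap.smul_apply, map_smul,
      h.1 x y], fun γ hγ x => by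
    rw [LinearMap.smul_apply, LinearMap.smul_apply, h.2 γ hγ, map_smul]⟩

end BlkGapAux

private theorem BlkGap_mf_zero {M : Type} [LieRing M] [LieAlgebra ℝ M] (q : ℕ)
    (A B : M →ₗ[ℝ] M) : mf q A B 0 = 0 := by
  unfold mf
  rw [(TH_zero_neg A).1, (TH_zero_neg B).1, map_zero]
  ring

private theorem BlkGap_mf_neg {M : Type} [LieRing M] [LieAlgebra ℝ M] (q : ℕ)
    (A B : M →ₗ[ℝ] M) (u : M) : mf q A B (-u) = mf q A B u := by
  unfold mf
  rw [(TH_zero_neg A).2, (TH_zero_neg B).2, map_neg A, map_neg (Qf M (-(A u))), map_neg (Qf M),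
    LinearMap.neg_apply, neg_neg]

private theorem BlkGap_df_zero {M : Type} [LieRing M] [LieAlgebra ℝ M] (q : ℕ)
    (A B : M →ₗ[ℝ] M) : df q A B 0 = 0 := by
  unfold df
  rw [(TH_zero_neg A).1, (TH_zero_neg B).1, map_zero]
  ring

theorem blk_gap {M : Type} [LieRing M] [LieAlgebra ℝ M] [Module.Finite ℝ M]
    (hM : CompactSemisimple M) {q : ℕ} (hq : 2 ≤ q) (hn : NonRes M q) :
    ∃ K : ℝ, 1 ≤ K ∧ GapLG (perm1 M q) (Sb M q) (Tb M q) (Db M q) 1 K := by
  have hq0 : 0 < q := by omega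
  have hqr : (0 : ℝ) < q := by exact_mod_cast hq0
  have hc : 0 < cq q := by
    unfold cq
    positivity
  have hE : CompactSemisimple (Fin q → M) := compact_pi fun _ => hM
  obtain ⟨K, hK1, hK⟩ := finite_gap hE (blkGapV (perm1 M q)) (fun β hβ => hβ.1)
    (blkGapB (Sb M q) (Tb M q) (Db M q) 1) (by
      intro β hβ hz
      obtain ⟨A, B, hA, hB, rfl⟩ := cls1_op hq hβ
      have hz' : ∀ z, QF q (fun u => (cq q)⁻¹ * mf q A B u) (fun u => (cq q)⁻¹ * df q A B u) z
          = 0 := by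
        intro z
        rw [← ellQG_Op hq0 A B z]
        exact hz z
      have h1 : ∀ u, mf q A B u = 0 := by
        intro u
        have h2 := hz' (fun i => if i = (⟨0, by omega⟩ : Fin q) then u else
          if i = (⟨1, by omega⟩ : Fin q) then -u else 0)
        rw [QF_two (by rw [BlkGap_mf_zero, mul_zero]) (by rw [BlkGap_df_zero, mul_zero])
          (fun v => by rw [BlkGap_mf_neg]) (by simp)] at h2
        have h3 : (cq q)⁻¹ ≠ 0 := (inv_pos.2 hc).ne'
        have h4 : (cq q)⁻¹ * mf q A B u = 0 := by linarith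
        exact (mul_eq_zero.1 h4).resolve_left h3
      have h2 : ∀ u, df q A B u = 0 := by
        intro u
        have h2 := hz' (fun _ => u)
        rw [QF_const hq0 (by rw [BlkGap_mf_zero, mul_zero])] at h2
        have h3 : (cq q)⁻¹ ≠ 0 := (inv_pos.2 hc).ne'
        have h4 := (mul_eq_zero.1 h2).resolve_left hqr.ne'
        exact (mul_eq_zero.1 h4).resolve_left h3
      obtain ⟨rfl, rfl⟩ := hn A B hA hB h1 h2
      refine LinearMap.ext fun x => ?_
      funext a
      rw [Op_apply, LinearMap.zero_apply, LinearMap.zero_apply, add_zero]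
      rfl)
  exact ⟨K, hK1, fun β hβ s hs z => hK β hβ s (fun z => hs z) z⟩

end Pool.Agent.EinG
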