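import Pool.Agent.EinG.Blk

/-!
# Operators on powers: elementary lemmas

`av (fun a => x a - av x) = 0`, `av (fun _ => y) = y` for `0 < q`.  `Qf (Fin q → M) x y = ∑ a, Qf M (x a) (y a)` (`Qf_pi`), the cross
terms between mean value zero and diagonal vanish after summation over `a`.
`QF_two`: `z = u` at `a`, `- u` at `b`, `0` elsewhere has mean value zero.
-/

namespace Pool.Agent.EinG

open Pool.Agent.EStab Pool.Agent.EinS Pool.Agent.SmIso Pool.Agent.EinU

variable {M : Type} [LieRing M] [LieAlgebra ℝ M] {q : ℕ}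

private theorem BlkL_sum (hq : 0 < q) (x : Fin q → M) : ∑ a, (x a - av x) = 0 := by
  have hq' : (q : ℝ) ≠ 0 := by
    exact_mod_cast hq.ne'
  rw [Finset.sum_sub_distrib, Finset.sum_const, Finset.card_univ, Fintype.card_fin,
    ← Nat.cast_smul_eq_nsmul ℝ]
  unfold av
  rw [smul_smul, mul_inv_cancel₀ hq', one_smul, sub_self]

private theorem BlkL_sumA (hq : 0 < q) (A : M →ₗ[ℝ] M) (x : Fin q → M) :
    ∑ a, A (x a - av x) = 0 := by
  rw [← map_sum, BlkL_sum hq, map_zero]

private theorem BlkL_cross {u w : Fin q → M} (hu : ∑ a, u a = 0) (hw : ∑ a, w a = 0) (m n : M) :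
    ∑ a, Qf M (u a + m) (w a + n) = ∑ a, Qf M (u a) (w a) + q * Qf M m n := by
  have h1 : ∀ a, Qf M (u a + m) (w a + n) =
      Qf M (u a) (w a) + Qf M (u a) n + Qf M m (w a) + Qf M m n := by
    intro a
    rw [map_add (Qf M (u a + m)), map_add (Qf M), LinearMap.add_apply, LinearMap.add_apply]
    ring
  have h2 : ∑ a, Qf M (u a) n = 0 := by
    have h3 : ∑ a, Qf M (u a) n = Qf M (∑ a, u a) n := by
      rw [map_sum, LinearMap.sum_apply]
    rw [h3, hu, map_zero, LinearMap.zero_apply]
  have h4 : ∑ a, Qf M m (w a) = 0 := by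
    rw [← map_sum, hw, map_zero]
  rw [Finset.sum_congr rfl fun a _ => h1 a, Finset.sum_add_distrib, Finset.sum_add_distrib,
    Finset.sum_add_distrib, h2, h4, Finset.sum_const, Finset.card_univ, Fintype.card_fin,
    nsmul_eq_mul, add_zero, add_zero]

theorem av_const (hq : 0 < q) (y : M) : av (fun _ : Fin q => y) = y := by
  have hq' : (q : ℝ) ≠ 0 := by
    exact_mod_cast hq.ne'
  unfold av
  rw [Finset.sum_const, Finset.card_univ, Fintype.card_fin, ← Nat.cast_smul_eq_nsmul ℝ, smul_smul,
    inv_mul_cancel₀ hq', one_smul]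

theorem av_Op (hq : 0 < q) (A B : M →ₗ[ℝ] M) (x : Fin q → M) : av (Op q A B x) = B (av x) := by
  have hq' : (q : ℝ) ≠ 0 := by
    exact_mod_cast hq.ne'
  have h1 : ∑ b, Op q A B x b = (q : ℝ) • B (av x) := by
    have h2 : ∀ b, Op q A B x b = A (x b - av x) + B (av x) := fun b => Op_apply q A B x b
    rw [Finset.sum_congr rfl fun b _ => h2 b, Finset.sum_add_distrib, BlkL_sumA hq, zero_add,
      Finset.sum_const, Finset.card_univ, Fintype.card_fin, ← Nat.cast_smul_eq_nsmul ℝ]
  change (q : ℝ)⁻¹ • ∑ b, Op q A B x b = B (av x)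
  rw [h1, smul_smul, inv_mul_cancel₀ hq', one_smul]

theorem Op_Op (hq : 0 < q) (A B A' B' : M →ₗ[ℝ] M) (x : Fin q → M) :
    Op q A B (Op q A' B' x) = Op q (A ∘ₗ A') (B ∘ₗ B') x := by
  funext a
  rw [Op_apply, av_Op hq, Op_apply, Op_apply, add_sub_cancel_right]
  rfl

theorem Op_one (x : Fin q → M) : Op q (sc M 1) (sc M 1) x = x := by
  funext a
  rw [Op_apply]
  unfold sc
  rw [one_smul, LinearMap.id_apply, LinearMap.id_apply, sub_add_cancel]

theorem Op_const (hq : 0 < q) (A B : M →ₗ[ℝ] M) (y : M) :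
    Op q A B (fun _ => y) = fun _ => B y := by
  funext a
  rw [Op_apply, av_const hq, sub_self, map_zero, zero_add]

theorem QF_Op (hq : 0 < q) (f g : M → ℝ) (A B : M →ₗ[ℝ] M) (z : Fin q → M) :
    QF q f g (Op q A B z) = QF q (fun u => f (A u)) (fun u => g (B u)) z := by
  unfold QF
  rw [av_Op hq]
  congr 1
  refine Finset.sum_congr rfl fun a _ => ?_
  rw [Op_apply, add_sub_cancel_right]

theorem QF_add (f g f' g' : M → ℝ) (z : Fin q → M) :
    QF q f g z + QF q f' g' z = QF q (fun u => f u + f' u) (fun u => g u + g' u) z := by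
  unfold QF
  rw [Finset.sum_add_distrib]
  ring

theorem QF_smul (t : ℝ) (f g : M → ℝ) (z : Fin q → M) :
    t * QF q f g z = QF q (fun u => t * f u) (fun u => t * g u) z := by
  unfold QF
  rw [mul_add, Finset.mul_sum]
  ring

theorem QF_le {f g f' g' : M → ℝ} (hf : ∀ u, f u ≤ f' u) (hg : ∀ u, g u ≤ g' u)
    (z : Fin q → M) : QF q f g z ≤ QF q f' g' z := by
  unfold QF
  refine add_le_add (Finset.sum_le_sum fun a _ => hf _) ?_
  exact mul_le_mul_of_nonneg_left (hg _) (Nat.cast_nonneg q)

theorem QF_const (hq : 0 < q) {f g : M → ℝ} (hf : f 0 = 0) (y : M) :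
    QF q f g (fun _ => y) = q * g y := by
  unfold QF
  rw [av_const hq, Finset.sum_eq_zero fun a _ => by rw [sub_self, hf], zero_add]

theorem QF_two {f g : M → ℝ} (hf : f 0 = 0) (hg : g 0 = 0) (he : ∀ u, f (-u) = f u)
    {a b : Fin q} (hab : a ≠ b) (u : M) :
    QF q f g (fun i => if i = a then u else if i = b then -u else 0) = 2 * f u := by
  have h1 : ∀ i : Fin q, (if i = a then u else if i = b then -u else 0) =
      (if i = a then u else 0) + (if i = b then -u else 0) := by
    intro i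
    by_cases h : i = a
    · have h' : i ≠ b := fun h2 => hab (h.symm.trans h2)
      rw [if_pos h, if_pos h, if_neg h', add_zero]
    · rw [if_neg h, if_neg h, zero_add]
  have h2 : ∀ i : Fin q, f (if i = a then u else if i = b then -u else 0) =
      (if i = a then f u else 0) + (if i = b then f u else 0) := by
    intro i
    by_cases h : i = a
    · have h' : i ≠ b := fun h2 => hab (h.symm.trans h2)
      rw [if_pos h, if_pos h, if_neg h', add_zero]
    · rw [if_neg h, if_neg h, zero_add]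
      by_cases h' : i = b
      · rw [if_pos h', if_pos h', he]
      · rw [if_neg h', if_neg h', hf]
  have h3 : av (fun i : Fin q => if i = a then u else if i = b then -u else 0) = 0 := by
    unfold av
    rw [Finset.sum_congr rfl fun i _ => h1 i, Finset.sum_add_distrib, Finset.sum_ite_eq',
      Finset.sum_ite_eq', if_pos (Finset.mem_univ _), if_pos (Finset.mem_univ _),
      add_neg_cancel, smul_zero]
  unfold QF
  rw [h3, hg, mul_zero, add_zero]
  have h4 : ∀ i : Fin q, f ((if i = a then u else if i = b then -u else 0) - 0) =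
      (if i = a then f u else 0) + (if i = b then f u else 0) := by
    intro i
    rw [sub_zero, h2]
  rw [Finset.sum_congr rfl fun i _ => h4 i, Finset.sum_add_distrib, Finset.sum_ite_eq',
    Finset.sum_ite_eq', if_pos (Finset.mem_univ _), if_pos (Finset.mem_univ _)]
  ring

theorem Qf_Op_Op [Module.Finite ℝ M] (hq : 0 < q) (A B A' B' : M →ₗ[ℝ] M) (z : Fin q → M) :
    Qf (Fin q → M) (Op q A B z) (Op q A' B' z) =
      QF q (fun u => Qf M (A u) (A' u)) (fun u => Qf M (B u) (B' u)) z := by
  rw [Qf_pi]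
  have h1 : ∀ a, Qf M (Op q A B z a) (Op q A' B' z a) =
      Qf M (A (z a - av z) + B (av z)) (A' (z a - av z) + B' (av z)) := fun a => rfl
  rw [Finset.sum_congr rfl fun a _ => h1 a, BlkL_cross (u := fun a => A (z a - av z))
    (w := fun a => A' (z a - av z)) (BlkL_sumA hq A z) (BlkL_sumA hq A' z)]
  rfl

theorem Qf_QF [Module.Finite ℝ M] (hq : 0 < q) (z : Fin q → M) :
    Qf (Fin q → M) z z = QF q (fun u => Qf M u u) (fun u => Qf M u u) z := by
  have h1 := Qf_Op_Op hq (sc M 1) (sc M 1) (sc M 1) (sc M 1) z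
  have h2 : ∀ u : M, sc M 1 u = u := by
    intro u
    unfold sc
    rw [one_smul, LinearMap.id_apply]
  rw [Op_one] at h1
  simp only [h2] at h1
  exact h1

theorem QSym_Op [Module.Finite ℝ M] (hq : 0 < q) {A B : M →ₗ[ℝ] M} (hA : QSym A) (hB : QSym B) :
    QSym (Op q A B) := by
  intro x y
  rw [Qf_pi, Qf_pi]
  have h1 : ∀ a, Qf M (Op q A B x a) (y a) =
      Qf M (A (x a - av x) + B (av x)) ((y a - av y) + av y) := by
    intro a
    rw [sub_add_cancel]
    rfl
  have h2 : ∀ a, Qf M (x a) (Op q A B y a) =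
      Qf M ((x a - av x) + av x) (A (y a - av y) + B (av y)) := by
    intro a
    rw [sub_add_cancel]
    rfl
  rw [Finset.sum_congr rfl fun a _ => h1 a, Finset.sum_congr rfl fun a _ => h2 a,
    BlkL_cross (u := fun a => A (x a - av x)) (w := fun a => y a - av y) (BlkL_sumA hq A x)
      (BlkL_sum hq y),
    BlkL_cross (u := fun a => x a - av x) (w := fun a => A (y a - av y)) (BlkL_sum hq x)
      (BlkL_sumA hq A y), hB]
  congr 1
  exact Finset.sum_congr rfl fun a _ => hA _ _

/-- A vector with mean value zero is orthogonal to the diagonal. -/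
theorem Qf_diag [Module.Finite ℝ M] {x y : Fin q → M} (hx : ∑ a, x a = 0)
    (hy : ∀ a b, y a = y b) : Qf (Fin q → M) x y = 0 := by
  rw [Qf_pi]
  rcases isEmpty_or_nonempty (Fin q) with h | ⟨⟨b⟩⟩
  · exact Finset.sum_of_isEmpty _
  · have h1 : ∑ a, Qf M (x a) (y a) = Qf M (∑ a, x a) (y b) := by
      rw [map_sum, LinearMap.sum_apply]
      exact Finset.sum_congr rfl fun a _ => by rw [hy a b]
    rw [h1, hx, map_zero, LinearMap.zero_apply]

end Pool.Agent.EinG
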