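import Pool.Agent.EinG.Blk

/-!
# The trace form on products

`TH2 T U x y = - trace (ad x ∘ T ∘ ad y ∘ U)` on `∀ i, E i`.  `piLie_trace` (`EStab/PiLie.lean`) writes the trace as the sum over `i` of the
traces of the diagonal blocks; `ad x` and `DP T` are block diagonal, so the `i`-th block of `ad x ∘ DP T ∘ ad y ∘ U` is
`ad x_i ∘ T_i ∘ ad y_i ∘ bl U i` (compare `PiGap_TH` in `SmIso/PiGap.lean`); the other formula is similar (cyclicity of the trace or directly).
-/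

namespace Pool.Agent.EinG

open Pool.Agent.EStab Pool.Agent.EinS Pool.Agent.SmIso Pool.Agent.EinU

variable {n : ℕ} {E : Fin n → Type} [∀ i, LieRing (E i)] [∀ i, LieAlgebra ℝ (E i)]

private theorem PiTH_lie_single (x : ∀ i, E i) (i : Fin n) (u : E i) :
    ⁅x, LinearMap.single ℝ E i u⁆ = LinearMap.single ℝ E i ⁅x i, u⁆ := by
  funext l
  change ⁅x l, (LinearMap.single ℝ E i u) l⁆ = _
  by_cases hl : l = i
  · subst hl
    simp only [LinearMap.single_apply, Pi.single_eq_same]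
  · simp only [LinearMap.single_apply, Pi.single_eq_of_ne hl, lie_zero]

private theorem PiTH_DP_single (T : ∀ i, E i →ₗ[ℝ] E i) (i : Fin n) (u : E i) :
    DP T (LinearMap.single ℝ E i u) = LinearMap.single ℝ E i (T i u) := by
  funext l
  change T l ((LinearMap.single ℝ E i u) l) = _
  by_cases hl : l = i
  · subst hl
    simp only [LinearMap.single_apply, Pi.single_eq_same]
  · simp only [LinearMap.single_apply, Pi.single_eq_of_ne hl, map_zero]

private theorem PiTH_Qf [∀ i, Module.Finite ℝ (E i)] (x y : ∀ i, E i) :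
    Qf (∀ i, E i) x y = ∑ i, Qf (E i) (x i) (y i) := by
  simp only [Qf_apply]
  rw [killing_pi, Finset.sum_neg_distrib]

private theorem PiTH_Qf_single [∀ i, Module.Finite ℝ (E i)] (i : Fin n) (x : ∀ i, E i) (u : E i) :
    Qf (∀ i, E i) x (LinearMap.single ℝ E i u) = Qf (E i) (x i) u := by
  rw [PiTH_Qf, Finset.sum_eq_single i]
  · rw [LinearMap.single_apply, Pi.single_eq_same]
  · intro j _ hj
    rw [LinearMap.single_apply, Pi.single_eq_of_ne hj, map_zero]
  · intro hi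
    exact absurd (Finset.mem_univ i) hi

theorem TH2_DP_left [∀ i, Module.Finite ℝ (E i)] (T : ∀ i, E i →ₗ[ℝ] E i)
    (U : (∀ i, E i) →ₗ[ℝ] (∀ i, E i)) (x : ∀ i, E i) :
    TH2 (DP T) U x x = ∑ i, TH2 (T i) (bl U i) (x i) (x i) := by
  unfold TH2
  rw [piLie_trace, Finset.sum_neg_distrib]
  rfl

theorem TH2_DP_right [∀ i, Module.Finite ℝ (E i)] (T : ∀ i, E i →ₗ[ℝ] E i)
    (U : (∀ i, E i) →ₗ[ℝ] (∀ i, E i)) (x : ∀ i, E i) :
    TH2 U (DP T) x x = ∑ i, TH2 (bl U i) (T i) (x i) (x i) := by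
  unfold TH2
  rw [piLie_trace, Finset.sum_neg_distrib]
  congr 1
  refine Finset.sum_congr rfl fun i _ => ?_
  congr 1
  refine LinearMap.ext fun u => ?_
  change ⁅x i, U ⁅x, DP T (LinearMap.single ℝ E i u)⁆ i⁆ =
    ⁅x i, U (LinearMap.single ℝ E i ⁅x i, T i u⁆) i⁆
  rw [PiTH_DP_single, PiTH_lie_single]

theorem bl_DP (T : ∀ i, E i →ₗ[ℝ] E i) (i : Fin n) : bl (DP T) i = T i := by
  refine LinearMap.ext fun u => ?_
  change DP T (LinearMap.single ℝ E i u) i = T i u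
  rw [PiTH_DP_single, LinearMap.single_apply, Pi.single_eq_same]

theorem bl_conj (T : ∀ i, E i →ₗ[ℝ] E i) (U : (∀ i, E i) →ₗ[ℝ] (∀ i, E i)) (i : Fin n) :
    bl (DP T ∘ₗ U ∘ₗ DP T) i = T i ∘ₗ bl U i ∘ₗ T i := by
  refine LinearMap.ext fun u => ?_
  change T i (U (DP T (LinearMap.single ℝ E i u)) i) = T i (U (LinearMap.single ℝ E i (T i u)) i)
  rw [PiTH_DP_single]

theorem QSym_bl [∀ i, Module.Finite ℝ (E i)] {U : (∀ i, E i) →ₗ[ℝ] (∀ i, E i)} (hU : QSym U)
    (i : Fin n) : QSym (bl U i) := by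
  intro u v
  have h1 := hU (LinearMap.single ℝ E i u) (LinearMap.single ℝ E i v)
  rw [PiTH_Qf_single, Qf_symm (LinearMap.single ℝ E i u), PiTH_Qf_single] at h1
  rw [Qf_symm u]
  exact h1

theorem QSym_DP [∀ i, Module.Finite ℝ (E i)] {T : ∀ i, E i →ₗ[ℝ] E i} (hT : ∀ i, QSym (T i)) :
    QSym (DP T) := by
  intro x y
  rw [PiTH_Qf, PiTH_Qf]
  exact Finset.sum_congr rfl fun i _ => hT i (x i) (y i)

end Pool.Agent.EinG
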