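import Pool.Agent.EinG.BlkL
import Pool.Agent.EinG.PiTH

/-!
# Operators which commute with the permutations

`Cls (perm1 M q) β`: `β` is symmetric and commutes with the permutations of the copies.  Let `β_ab` be its blocks
(`β_ab u = β (Pi.single b u) a`); `β_{σa,σb} = β_ab` for all `σ`, so for `2 ≤ q` there are `X, Y` with `β_aa = X`, `β_ab = Y` for `a ≠ b`
(transitivity of the permutations on pairs: `Equiv.swap`), and `β = Op q (X - Y) (X + (q - 1) Y)`:
`(β x)_a = X x_a + Y ∑_{b ≠ a} x_b = (X - Y) x_a + q Y (av x)`.  `X` is symmetric (`β` is symmetric, vectors at the same place), `Y` is symmetric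
(`Qf (Y u) v = Qf (β (u at b)) (v at a) = Qf (u at b) (β (v at a)) = Qf u (Y v)`).
* `cls_off`: for `i ≠ j`, `z` at `j`, a permutation `σ` of the block `i` alone fixes `Pi.single j z`, so `β (Pi.single j z) i` is invariant
  under all permutations of `Fin (q i)`.
* `cls_off'`: a permutation `σ` of the block `j` alone: `β (Pi.single j (z ∘ σ)) i = β (Pi.single j z) i`; so `β (Pi.single j (u at a)) i` does not
  depend on `a`, and `β (Pi.single j z) i` depends only on `∑ a, z a`.
-/

namespace Pool.Agent.EinG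

open Pool.Agent.EStab Pool.Agent.EinS Pool.Agent.SmIso Pool.Agent.EinU

section

variable {M : Type} [LieRing M] [LieAlgebra ℝ M] {q : ℕ}

private theorem Cls_Qf_single [Module.Finite ℝ M] (x : Fin q → M) (b : Fin q) (v : M) :
    Qf (Fin q → M) x (Pi.single b v) = Qf M (x b) v := by
  rw [Qf_pi, Finset.sum_eq_single b]
  · rw [Pi.single_eq_same]
  · intro a _ ha
    rw [Pi.single_eq_of_ne ha, map_zero]
  · intro h
    exact absurd (Finset.mem_univ b) h

private theorem Cls_perm (σ : Equiv.Perm (Fin q)) (b : Fin q) (u : M) :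
    permAut1 M q σ (Pi.single b u) = Pi.single (σ.symm b) u := by
  funext a
  change (Pi.single b u : Fin q → M) (σ a) = _
  by_cases h : a = σ.symm b
  · subst h
    rw [Equiv.apply_symm_apply, Pi.single_eq_same, Pi.single_eq_same]
  · rw [Pi.single_eq_of_ne h, Pi.single_eq_of_ne]
    intro h2
    exact h ((Equiv.eq_symm_apply σ).2 h2)

private theorem Cls_blk {β : (Fin q → M) →ₗ[ℝ] (Fin q → M)} (hβ : Cls (perm1 M q) β)
    (σ : Equiv.Perm (Fin q)) (a b : Fin q) (u : M) :
    β (Pi.single b u) (σ a) = β (Pi.single (σ.symm b) u) a := by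
  rw [← Cls_perm, hβ.2 _ ⟨σ, rfl⟩]
  rfl

private theorem Cls_sum (β : (Fin q → M) →ₗ[ℝ] (Fin q → M)) (x : Fin q → M) (a : Fin q) :
    β x a = ∑ b, β (Pi.single b (x b)) a := by
  conv_lhs => rw [← Finset.univ_sum_single x]
  rw [map_sum, Finset.sum_apply]

end

theorem cls1_op {M : Type} [LieRing M] [LieAlgebra ℝ M] [Module.Finite ℝ M] {q : ℕ} (hq : 2 ≤ q)
    {β : (Fin q → M) →ₗ[ℝ] (Fin q → M)} (hβ : Cls (perm1 M q) β) :
    ∃ A B : M →ₗ[ℝ] M, QSym A ∧ QSym B ∧ β = Op q A B := by
  have hq0 : (q : ℝ) ≠ 0 := by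
    have : 0 < q := by omega
    exact_mod_cast this.ne'
  obtain ⟨o, p, hop⟩ : ∃ o p : Fin q, o ≠ p :=
    ⟨⟨0, by omega⟩, ⟨1, by omega⟩, fun h => by simpa using congrArg Fin.val h⟩
  let X : M →ₗ[ℝ] M := LinearMap.proj o ∘ₗ β ∘ₗ LinearMap.single ℝ (fun _ : Fin q => M) o
  let Y : M →ₗ[ℝ] M := LinearMap.proj o ∘ₗ β ∘ₗ LinearMap.single ℝ (fun _ : Fin q => M) p
  have hX : ∀ u, X u = β (Pi.single o u) o := fun u => rfl
  have hY : ∀ u, Y u = β (Pi.single p u) o := fun u => rfl
  have h1 : ∀ a u, β (Pi.single a u) a = X u := by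
    intro a u
    have h := Cls_blk hβ (Equiv.swap o a) o a u
    rw [Equiv.swap_apply_left, Equiv.symm_swap, Equiv.swap_apply_right] at h
    rw [h, hX]
  have h2 : ∀ a b, a ≠ b → ∀ u, β (Pi.single b u) a = Y u := by
    intro a b hab u
    have h := Cls_blk hβ (Equiv.swap o a) o b u
    rw [Equiv.swap_apply_left, Equiv.symm_swap] at h
    have hc : Equiv.swap o a b ≠ o := by
      intro h3
      have h4 := congrArg (Equiv.swap o a) h3
      rw [Equiv.swap_apply_self, Equiv.swap_apply_left] at h4
      exact hab h4.symm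
    have h5 := Cls_blk hβ (Equiv.swap p (Equiv.swap o a b)) o (Equiv.swap o a b) u
    rw [Equiv.swap_apply_of_ne_of_ne hop hc.symm, Equiv.symm_swap, Equiv.swap_apply_right] at h5
    rw [h, h5, hY]
  have sX : QSym X := by
    intro u v
    have h := hβ.1 (Pi.single o u) (Pi.single o v)
    rw [Cls_Qf_single, Qf_symm (Pi.single o u : Fin q → M), Cls_Qf_single] at h
    rw [Qf_symm u, hX, hX]
    exact h
  have sY : QSym Y := by
    intro u v
    have h := hβ.1 (Pi.single p u) (Pi.single o v)
    rw [Cls_Qf_single, Qf_symm (Pi.single p u : Fin q → M), Cls_Qf_single,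
      h2 p o hop.symm] at h
    rw [Qf_symm u, hY u]
    exact h
  refine ⟨X - Y, X + ((q : ℝ) - 1) • Y, ?_, ?_, ?_⟩
  · intro u v
    rw [LinearMap.sub_apply, LinearMap.sub_apply, map_sub, map_sub, LinearMap.sub_apply, sX, sY]
  · intro u v
    rw [LinearMap.add_apply, LinearMap.add_apply, LinearMap.smul_apply, LinearMap.smul_apply,
      map_add, map_add, map_smul, map_smul, LinearMap.add_apply, LinearMap.smul_apply, sX, sY]
  · refine LinearMap.ext fun x => ?_
    funext a
    rw [Cls_sum, Op_apply]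
    have h3 : ∀ b, β (Pi.single b (x b)) a = (if b = a then (X - Y) (x b) else 0) + Y (x b) := by
      intro b
      by_cases h : b = a
      · subst h
        rw [if_pos rfl, h1, LinearMap.sub_apply, sub_add_cancel]
      · rw [if_neg h, h2 a b (Ne.symm h), zero_add]
    rw [Finset.sum_congr rfl fun b _ => h3 b, Finset.sum_add_distrib, Finset.sum_ite_eq',
      if_pos (Finset.mem_univ _), ← map_sum]
    have h4 : ∑ b, x b = (q : ℝ) • av x := by
      unfold av
      rw [smul_smul, mul_inv_cancel₀ hq0, one_smul]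
    rw [h4, map_sub, LinearMap.add_apply, LinearMap.smul_apply, map_smul,
      LinearMap.sub_apply, LinearMap.sub_apply, sub_smul, one_smul]
    abel

section

variable {n : ℕ} {L : Fin n → Type} [∀ i, LieRing (L i)] [∀ i, LieAlgebra ℝ (L i)]
  {q : Fin n → ℕ}
  {β : (∀ i, Fin (q i) → L i) →ₗ[ℝ] (∀ i, Fin (q i) → L i)}

private theorem Cls_upd (hβ : Cls (perms L q) β) (i : Fin n) (σ : Equiv.Perm (Fin (q i)))
    (x : ∀ i, Fin (q i) → L i) (j : Fin n) (a : Fin (q j)) :
    β (permAut L q (Function.update (fun _ => 1) i σ) x) j a =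
      β x j (Function.update (fun j => (1 : Equiv.Perm (Fin (q j)))) i σ j a) := by
  rw [hβ.2 _ ⟨_, rfl⟩]
  rfl

private theorem Cls_single_same (i : Fin n) (σ : Equiv.Perm (Fin (q i)))
    (z : Fin (q i) → L i) :
    permAut L q (Function.update (fun _ => 1) i σ) (Pi.single i z) =
      Pi.single i (fun a => z (σ a)) := by
  funext j a
  change (Pi.single i z : ∀ i, Fin (q i) → L i) j
    (Function.update (fun j => (1 : Equiv.Perm (Fin (q j)))) i σ j a) = _
  by_cases h : j = i
  · subst h
    rw [Function.update_self, Pi.single_eq_same, Pi.single_eq_same]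
  · rw [Pi.single_eq_of_ne h, Pi.single_eq_of_ne h]
    rfl

private theorem Cls_single_ne {i j : Fin n} (hij : i ≠ j) (σ : Equiv.Perm (Fin (q i)))
    (z : Fin (q j) → L j) :
    permAut L q (Function.update (fun _ => 1) i σ) (Pi.single j z) = Pi.single j z := by
  funext l a
  change (Pi.single j z : ∀ i, Fin (q i) → L i) l
    (Function.update (fun j => (1 : Equiv.Perm (Fin (q j)))) i σ l a) = _
  by_cases h : l = i
  · subst h
    rw [Pi.single_eq_of_ne hij]
    rfl
  · rw [Function.update_of_ne h]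
    rfl

end

variable {n : ℕ} {L : Fin n → Type} [∀ i, LieRing (L i)] [∀ i, LieAlgebra ℝ (L i)]
  [∀ i, Module.Finite ℝ (L i)] {q : Fin n → ℕ}
  {β : (∀ i, Fin (q i) → L i) →ₗ[ℝ] (∀ i, Fin (q i) → L i)}

theorem cls_bl (hβ : Cls (perms L q) β) (i : Fin n) :
    Cls (perm1 (L i) (q i)) (bl (E := fun i => Fin (q i) → L i) β i) := by
  refine ⟨QSym_bl (E := fun i => Fin (q i) → L i) hβ.1 i, ?_⟩
  rintro _ ⟨σ, rfl⟩ x
  funext a
  have h := Cls_upd hβ i σ (Pi.single i x) i a
  rw [Cls_single_same, Function.update_self] at h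
  exact h

theorem cls_off (hβ : Cls (perms L q) β) {i j : Fin n} (hij : i ≠ j) (z : Fin (q j) → L j)
    (a b : Fin (q i)) : β (Pi.single j z) i a = β (Pi.single j z) i b := by
  have h := Cls_upd hβ i (Equiv.swap a b) (Pi.single j z) i a
  rw [Cls_single_ne hij, Function.update_self, Equiv.swap_apply_left] at h
  exact h

theorem cls_off' (hβ : Cls (perms L q) β) {i j : Fin n} (hij : i ≠ j) (z : Fin (q j) → L j)
    (hz : ∑ a, z a = 0) : β (Pi.single j z) i = 0 := by
  have h1 : ∀ (w : Fin (q j) → L j) (σ : Equiv.Perm (Fin (q j))),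
      β (Pi.single j fun a => w (σ a)) i = β (Pi.single j w) i := by
    intro w σ
    funext a
    have h := Cls_upd hβ j σ (Pi.single j w) i a
    rw [Cls_single_same, Function.update_of_ne hij] at h
    exact h
  rcases isEmpty_or_nonempty (Fin (q j)) with he | ⟨⟨o⟩⟩
  · have h2 : z = 0 := Subsingleton.elim _ _
    rw [h2, Pi.single_zero, map_zero]
    rfl
  · have h2 : ∀ (a : Fin (q j)) (u : L j),
        β (Pi.single j (Pi.single a u)) i = β (Pi.single j (Pi.single o u)) i := by
      intro a u
      rw [← h1 (Pi.single o u) (Equiv.swap a o)]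
      have h0 : (Pi.single a u : Fin (q j) → L j) =
          fun b => (Pi.single o u : Fin (q j) → L j) (Equiv.swap a o b) := by
        funext b
        by_cases hb : b = a
        · subst hb
          rw [Equiv.swap_apply_left, Pi.single_eq_same, Pi.single_eq_same]
        · rw [Pi.single_eq_of_ne hb, Pi.single_eq_of_ne]
          intro h3
          apply hb
          have h4 := congrArg (Equiv.swap a o) h3
          rw [Equiv.swap_apply_self, Equiv.swap_apply_right] at h4
          exact h4
      rw [h0]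
    have h3 : β (Pi.single j z) i = ∑ a, β (Pi.single j (Pi.single a (z a))) i := by
      conv_lhs => rw [← Finset.univ_sum_single z]
      have h4 : (Pi.single j (∑ a, Pi.single a (z a)) : ∀ i, Fin (q i) → L i) =
          ∑ a, Pi.single j (Pi.single a (z a)) := by
        exact map_sum (LinearMap.single ℝ (fun i => Fin (q i) → L i) j) _ _
      rw [h4, map_sum, Finset.sum_apply]
    have h5 : ∑ a, β (Pi.single j (Pi.single o (z a))) i =
        β (Pi.single j (Pi.single o (∑ a, z a))) i := by
      have h6 : (Pi.single j (Pi.single o (∑ a, z a)) : ∀ i, Fin (q i) → L i) =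
          ∑ a, Pi.single j (Pi.single o (z a)) := by
        exact map_sum (LinearMap.single ℝ (fun i => Fin (q i) → L i) j ∘ₗ
          LinearMap.single ℝ (fun _ : Fin (q j) => L j) o) _ _
      rw [h6, map_sum, Finset.sum_apply]
    rw [h3, Finset.sum_congr rfl fun a _ => h2 a (z a), h5, hz, Pi.single_zero, Pi.single_zero,
      map_zero]
    rfl

end Pool.Agent.EinG
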