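import Pool.Agent.EinG.Cls
import Pool.Agent.EinG.OpEll

/-!
# The data of the perturbation theorem for a product of powers

`S = DP Sb`, `T = DP Tb`, `Pp = DP Pb`, `D = DP Db` on `∀ i, Fin (q i) → L i`; `c = 4 (P + 1)`, `τ = c √δ`, `lam = 1`, `eps = 0`.
Everything is componentwise (`Qf_pi`, `Qf_Op_Op`, `Qf_QF`, `QF_le`, `Op_Op`, `QSym_DP`, `QSym_Op`); `1/4 < cq q ≤ 5/12` for `q ≥ 2`, so the
eigenvalues of `Sb` are between `1` and `4 (q + 1) ≤ c`, those of `Tb` between `0` and `1`.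
* `hpp`: `y ∈ h` is constant on the blocks, `Op_const`.
* `et`: for an orthonormal family `a` in `h`: `∑ -killingForm ⁅a_i, x⁆ ⁅a_i, x⁆ ≤ δ Qf x x` (`CasimirSmall`); `S (a_i)` is in the block `k` equal to
  `s_k a_i`, `s_k = (q_k + 1)/cq q_k ≤ c` (`Op_const`), so `Qf ⁅S a_i, x⁆ ⁅S a_i, x⁆ = ∑_k s_k² Qf ⁅a_ik, x_k⁆ ⁅a_ik, x_k⁆ ≤ c² Qf ⁅a_i, x⁆ ⁅a_i, x⁆`;
  the same for `T` with factors at most `1`.
* `uts`, `base`: `TH2_DP_left`, `bl_DP`, `uts_b`, `base_b`.
* `inv`: permutations fix `h` pointwise and commute with `Op`.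
* `cp`: `β = ∑` of blocks; the diagonal blocks are `Op q A B` (`cls_bl`, `cls1_op`) and commute with `Pb` (`Op_Op`), for `i ≠ j` `cls_off'` gives
  `β (Pi.single j (Pb z)) i = 0` and `cls_off`, `Op_const` give `Pb (β (Pi.single j z) i) = 0`.
* `z`: `TH2_DP_left`, `TH2_DP_right`, `bl_conj`, `cls1_op`, `z_b`.
-/

namespace Pool.Agent.EinG

open Pool.Agent.EStab Pool.Agent.EinS Pool.Agent.SmIso Pool.Agent.EinU

section One

variable {M : Type} [LieRing M] [LieAlgebra ℝ M]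

private theorem LB_sc_apply (t : ℝ) (x : M) : sc M t x = t • x := rfl

private theorem LB_sc_comp (s t : ℝ) : sc M s ∘ₗ sc M t = sc M (s * t) := by
  ext x
  change s • (t • x) = (s * t) • x
  rw [smul_smul]

private theorem LB_QSym_sc (t : ℝ) : QSym (sc M t) := by
  intro x y
  rw [LB_sc_apply, LB_sc_apply, map_smul, map_smul]
  rfl

private theorem LB_Op_sc_comp {q : ℕ} (hq : 0 < q) (a b a' b' : ℝ) (x : Fin q → M) :
    Op q (sc M a) (sc M b) (Op q (sc M a') (sc M b') x) =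
      Op q (sc M (a * a')) (sc M (b * b')) x := by
  rw [Op_Op hq, LB_sc_comp, LB_sc_comp]

private theorem LB_Qf_sc [Module.Finite ℝ M] {q : ℕ} (hq : 0 < q) (a b : ℝ) (z : Fin q → M) :
    Qf (Fin q → M) (Op q (sc M a) (sc M b) z) z =
      QF q (fun u => a * Qf M u u) (fun u => b * Qf M u u) z := by
  have h := Qf_Op_Op hq (sc M a) (sc M b) (sc M 1) (sc M 1) z
  rw [Op_one] at h
  rw [h]
  congr 1
  · funext u
    rw [LB_sc_apply, LB_sc_apply, one_smul, map_smul]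
    rfl
  · funext u
    rw [LB_sc_apply, LB_sc_apply, one_smul, map_smul]
    rfl

private theorem LB_bd [Module.Finite ℝ M] (hM : CompactSemisimple M) {q : ℕ} (hq : 0 < q)
    {a b lo hi : ℝ} (h1 : lo ≤ a) (h2 : a ≤ hi) (h3 : lo ≤ b) (h4 : b ≤ hi) (z : Fin q → M) :
    lo * Qf (Fin q → M) z z ≤ Qf (Fin q → M) (Op q (sc M a) (sc M b) z) z ∧
      Qf (Fin q → M) (Op q (sc M a) (sc M b) z) z ≤ hi * Qf (Fin q → M) z z := by
  rw [LB_Qf_sc hq, Qf_QF hq, QF_smul, QF_smul]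
  refine ⟨QF_le (fun u => ?_) (fun u => ?_) z, QF_le (fun u => ?_) (fun u => ?_) z⟩ <;>
  exact mul_le_mul_of_nonneg_right (by assumption) (Qf_nonneg hM u)

private theorem LB_av_perm {q : ℕ} (σ : Equiv.Perm (Fin q)) (x : Fin q → M) :
    av (fun a => x (σ a)) = av x := by
  unfold av
  rw [Equiv.sum_comp σ x]

private theorem LB_Op_perm {q : ℕ} (A B : M →ₗ[ℝ] M) (σ : Equiv.Perm (Fin q)) (x : Fin q → M) :
    Op q A B (fun a => x (σ a)) = fun a => Op q A B x (σ a) := by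
  funext a
  rw [Op_apply, Op_apply, LB_av_perm]

private theorem LB_sum_Pb {q : ℕ} (hq : 0 < q) (x : Fin q → M) : ∑ a, Pb M q x a = 0 := by
  have h := av_Op hq (sc M 1) (sc M 0) x
  rw [LB_sc_apply, zero_smul] at h
  unfold av at h
  have hq' : ((q : ℝ))⁻¹ ≠ 0 := inv_ne_zero (by exact_mod_cast hq.ne')
  exact (smul_eq_zero.1 h).resolve_left hq'

end One

private theorem LB_cq {q : ℕ} (hq : 2 ≤ q) : 0 < cq q ∧ cq q ≤ 1 ∧ 1 ≤ (cq q)⁻¹ ∧ (cq q)⁻¹ ≤ 4 := by
  have h2 : (2 : ℝ) ≤ q := by exact_mod_cast hq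
  have hpos : (0 : ℝ) < 4 * (q + 1) := by linarith
  have h0 : 0 < cq q := by
    unfold cq
    exact div_pos (by linarith) hpos
  have h1 : cq q ≤ 1 := by
    unfold cq
    rw [div_le_one hpos]
    linarith
  have h4 : 1 / 4 ≤ cq q := by
    unfold cq
    rw [le_div_iff₀ hpos]
    linarith
  refine ⟨h0, h1, ?_, ?_⟩
  · exact (one_le_inv₀ h0).2 h1
  · rw [inv_le_comm₀ h0 (by norm_num)]
    linarith

theorem lbase {n : ℕ} {L : Fin n → Type} [∀ i, LieRing (L i)] [∀ i, LieAlgebra ℝ (L i)]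
    [∀ i, Module.Finite ℝ (L i)] (hL : ∀ i, CompactSemisimple (L i)) {q : Fin n → ℕ} {P : ℕ}
    (hq : ∀ i, 2 ≤ q i ∧ q i ≤ P) {h : LieSubalgebra ℝ (∀ i, Fin (q i) → L i)}
    (hh : ∀ x ∈ h, ∀ i a b, x i a = x i b) {δ : ℝ} (hδ : 0 ≤ δ) (hc : CasimirSmall h δ) :
    LBaseG h (perms L q) (DP (E := fun i => Fin (q i) → L i) fun i => Sb (L i) (q i))
      (DP (E := fun i => Fin (q i) → L i) fun i => Tb (L i) (q i))
      (DP (E := fun i => Fin (q i) → L i) fun i => Pb (L i) (q i))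
      (DP (E := fun i => Fin (q i) → L i) fun i => Db (L i) (q i))
      (4 * ((P : ℝ) + 1)) (4 * ((P : ℝ) + 1) * √δ) 1 0 := by
  have hq0 : ∀ i, 0 < q i := fun i => lt_of_lt_of_le two_pos (hq i).1
  have hqr : ∀ i, (2 : ℝ) ≤ q i := fun i => by exact_mod_cast (hq i).1
  have hqP : ∀ i, (q i : ℝ) ≤ P := fun i => by exact_mod_cast (hq i).2
  have hP0 : (0 : ℝ) ≤ P := Nat.cast_nonneg P
  have hc1 : (1 : ℝ) ≤ 4 * ((P : ℝ) + 1) := by linarith
  have hc0 : (0 : ℝ) ≤ 4 * ((P : ℝ) + 1) := by linarith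
  have hcq := fun i => LB_cq (hq i).1
  have hs : ∀ i, ((q i : ℝ) + 1) * (cq (q i))⁻¹ ≤ 4 * ((P : ℝ) + 1) := by
    intro i
    have h1 := (hcq i).2.2.2
    have h2 := hqP i
    have h3 := hqr i
    nlinarith
  have hs' : ∀ i, (1 : ℝ) ≤ ((q i : ℝ) + 1) * (cq (q i))⁻¹ := by
    intro i
    have h1 := (hcq i).2.2.1
    have h3 := hqr i
    nlinarith
  have ht : ∀ i, 0 ≤ cq (q i) / ((q i : ℝ) + 1) ∧ cq (q i) / ((q i : ℝ) + 1) ≤ 1 := by
    intro i
    have h1 := (hcq i).1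
    have h2 := (hcq i).2.1
    have h3 := hqr i
    refine ⟨by positivity, ?_⟩
    rw [div_le_one (by linarith)]
    linarith
  have hd : ∀ i, -1 ≤ -((q i : ℝ) / ((q i : ℝ) + 1)) ∧ -((q i : ℝ) / ((q i : ℝ) + 1)) ≤ 0 := by
    intro i
    have h3 := hqr i
    have h4 : (q i : ℝ) / ((q i : ℝ) + 1) ≤ 1 := by
      rw [div_le_one (by linarith)]
      linarith
    have h5 : 0 ≤ (q i : ℝ) / ((q i : ℝ) + 1) := by positivity
    exact ⟨by linarith, by linarith⟩
  have hQ : ∀ x y : ∀ i, Fin (q i) → L i, Qf (∀ i, Fin (q i) → L i) x y =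
      ∑ i, Qf (Fin (q i) → L i) (x i) (y i) := fun x y =>
    Qf_pi (L := fun i => Fin (q i) → L i) x y
  have hQ0 : ∀ (i : Fin n) (z : Fin (q i) → L i), 0 ≤ Qf (Fin (q i) → L i) z z := by
    intro i z
    rw [Qf_pi (L := fun _ : Fin (q i) => L i) z z]
    exact Finset.sum_nonneg fun a _ => Qf_nonneg (hL i) _
  -- bounds for block diagonal operators
  have hbd : ∀ (a b : Fin n → ℝ) (lo hi : ℝ), (∀ i, lo ≤ a i) → (∀ i, a i ≤ hi) →
      (∀ i, lo ≤ b i) → (∀ i, b i ≤ hi) → ∀ x : ∀ i, Fin (q i) → L i,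
      lo * Qf (∀ i, Fin (q i) → L i) x x ≤ Qf (∀ i, Fin (q i) → L i)
        (DP (E := fun i => Fin (q i) → L i)
          (fun i => Op (q i) (sc (L i) (a i)) (sc (L i) (b i))) x) x ∧
      Qf (∀ i, Fin (q i) → L i) (DP (E := fun i => Fin (q i) → L i)
        (fun i => Op (q i) (sc (L i) (a i)) (sc (L i) (b i))) x) x ≤
        hi * Qf (∀ i, Fin (q i) → L i) x x := by
    intro a b lo hi h1 h2 h3 h4 x
    rw [hQ, hQ, Finset.mul_sum, Finset.mul_sum]
    exact ⟨Finset.sum_le_sum fun i _ => (LB_bd (hL i) (hq0 i) (h1 i) (h2 i) (h3 i) (h4 i) (x i)).1,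
      Finset.sum_le_sum fun i _ => (LB_bd (hL i) (hq0 i) (h1 i) (h2 i) (h3 i) (h4 i) (x i)).2⟩
  -- brackets with block scalar multiples
  have hbr : ∀ (a b : Fin n → ℝ), (∀ i, |b i| ≤ 4 * ((P : ℝ) + 1)) →
      ∀ y ∈ h, ∀ x : ∀ i, Fin (q i) → L i,
      Qf (∀ i, Fin (q i) → L i) ⁅DP (E := fun i => Fin (q i) → L i)
        (fun i => Op (q i) (sc (L i) (a i)) (sc (L i) (b i))) y, x⁆
        ⁅DP (E := fun i => Fin (q i) → L i)
        (fun i => Op (q i) (sc (L i) (a i)) (sc (L i) (b i))) y, x⁆ ≤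
        (4 * ((P : ℝ) + 1)) ^ 2 * Qf (∀ i, Fin (q i) → L i) ⁅y, x⁆ ⁅y, x⁆ := by
    intro a b hb y hy x
    have e : DP (E := fun i => Fin (q i) → L i)
        (fun i => Op (q i) (sc (L i) (a i)) (sc (L i) (b i))) y = fun i => b i • y i := by
      funext i
      rw [DP_apply]
      have h1 : y i = fun _ => y i ⟨0, hq0 i⟩ := by
        funext k
        exact hh y hy i k _
      rw [h1, Op_const (hq0 i)]
      rfl
    rw [e, hQ, hQ, Finset.mul_sum]
    refine Finset.sum_le_sum fun i _ => ?_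
    have e2 : (⁅(fun i => b i • y i : ∀ i, Fin (q i) → L i), x⁆ : ∀ i, Fin (q i) → L i) i =
        b i • (⁅y, x⁆ : ∀ i, Fin (q i) → L i) i := by
      change ⁅b i • y i, x i⁆ = b i • ⁅y i, x i⁆
      rw [smul_lie]
    rw [e2, map_smul, map_smul, LinearMap.smul_apply, smul_eq_mul, smul_eq_mul, ← mul_assoc]
    refine mul_le_mul_of_nonneg_right ?_ (hQ0 i _)
    have := hb i
    calc b i * b i = |b i| * |b i| := (abs_mul_abs_self _).symm
      _ ≤ (4 * ((P : ℝ) + 1)) * (4 * ((P : ℝ) + 1)) :=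
        mul_le_mul this this (abs_nonneg _) hc0
      _ = (4 * ((P : ℝ) + 1)) ^ 2 := (sq _).symm
  have hτ : (4 * ((P : ℝ) + 1) * √δ) ^ 2 = (4 * ((P : ℝ) + 1)) ^ 2 * δ := by
    rw [mul_pow, Real.sq_sqrt hδ]
  have hcas : ∀ (m : ℕ) (a : Fin m → ∀ i, Fin (q i) → L i), (∀ i, a i ∈ h) →
      (∀ i j, Qf (∀ i, Fin (q i) → L i) (a i) (a j) = if i = j then 1 else 0) → ∀ x,
      ∑ i, Qf (∀ i, Fin (q i) → L i) ⁅a i, x⁆ ⁅a i, x⁆ ≤ δ * Qf (∀ i, Fin (q i) → L i) x x := by
    intro m a ha hab x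
    refine hc m a ha (fun i j => ?_) x
    have h1 := hab i j
    rw [Qf_apply] at h1
    by_cases hij : i = j
    · rw [if_pos hij] at h1 ⊢
      linarith
    · rw [if_neg hij] at h1 ⊢
      linarith
  have hetg : ∀ (c b : Fin n → ℝ), (∀ i, |b i| ≤ 4 * ((P : ℝ) + 1)) →
      ∀ (m : ℕ) (a : Fin m → ∀ i, Fin (q i) → L i), (∀ i, a i ∈ h) →
      (∀ i j, Qf (∀ i, Fin (q i) → L i) (a i) (a j) = if i = j then 1 else 0) → ∀ x,
      ∑ j, Qf (∀ i, Fin (q i) → L i) ⁅DP (E := fun i => Fin (q i) → L i)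
        (fun i => Op (q i) (sc (L i) (c i)) (sc (L i) (b i))) (a j), x⁆
        ⁅DP (E := fun i => Fin (q i) → L i)
        (fun i => Op (q i) (sc (L i) (c i)) (sc (L i) (b i))) (a j), x⁆ ≤
        (4 * ((P : ℝ) + 1) * √δ) ^ 2 * Qf (∀ i, Fin (q i) → L i) x x := by
    intro c b hb m a ha hab x
    refine (Finset.sum_le_sum fun j _ => hbr c b hb (a j) (ha j) x).trans ?_
    rw [← Finset.mul_sum, hτ, mul_assoc]
    exact mul_le_mul_of_nonneg_left (hcas m a ha hab x) (sq_nonneg _)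
  refine
    { symS := QSym_DP fun i => QSym_Op (hq0 i) (LB_QSym_sc _) (LB_QSym_sc _)
      symT := QSym_DP fun i => QSym_Op (hq0 i) (LB_QSym_sc _) (LB_QSym_sc _)
      symP := QSym_DP fun i => QSym_Op (hq0 i) (LB_QSym_sc _) (LB_QSym_sc _)
      symD := QSym_DP fun i => QSym_Op (hq0 i) (LB_QSym_sc _) (LB_QSym_sc _)
      ST := ?_
      TS := ?_
      c1 := hc1
      t0 := mul_nonneg hc0 (Real.sqrt_nonneg _)
      e0 := le_rfl
      loS := ?_
      hiS := ?_
      loT := ?_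
      hiT := ?_
      bdD := ?_
      pp2 := ?_
      Spp := ?_
      Dpp := ?_
      SD := ?_
      hpp := ?_
      et := ?_
      uts := ?_
      la := one_pos
      la' := by rw [div_one]; exact hc1
      base := ?_
      inv := ?_
      cp := ?_
      z := ?_ }
  · intro x
    funext i
    change Op (q i) _ _ (Op (q i) _ _ (x i)) = x i
    rw [LB_Op_sc_comp (hq0 i), inv_mul_cancel₀ (hcq i).1.ne',
      show ((q i : ℝ) + 1) * (cq (q i))⁻¹ * (cq (q i) / ((q i : ℝ) + 1)) = 1 by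
        have h1 := (hcq i).1.ne'
        have h2 : (q i : ℝ) + 1 ≠ 0 := by have := hqr i; linarith
        field_simp, Op_one]
  · intro x
    funext i
    change Op (q i) _ _ (Op (q i) _ _ (x i)) = x i
    rw [LB_Op_sc_comp (hq0 i), mul_inv_cancel₀ (hcq i).1.ne',
      show (cq (q i) / ((q i : ℝ) + 1)) * (((q i : ℝ) + 1) * (cq (q i))⁻¹) = 1 by
        have h1 := (hcq i).1.ne'
        have h2 : (q i : ℝ) + 1 ≠ 0 := by have := hqr i; linarith
        field_simp, Op_one]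
  · intro x
    refine le_trans ?_ (hbd (fun i => (cq (q i))⁻¹) (fun i => ((q i : ℝ) + 1) * (cq (q i))⁻¹)
      1 (4 * ((P : ℝ) + 1)) (fun i => (hcq i).2.2.1) (fun i => ?_) hs' hs x).1
    · refine mul_le_mul_of_nonneg_right ?_ ?_
      · rw [div_le_one (by linarith)]
        exact hc1
      · rw [hQ]
        exact Finset.sum_nonneg fun i _ => hQ0 i _
    · have := (hcq i).2.2.2
      linarith
  · intro x
    refine (hbd (fun i => (cq (q i))⁻¹) (fun i => ((q i : ℝ) + 1) * (cq (q i))⁻¹)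
      1 (4 * ((P : ℝ) + 1)) (fun i => (hcq i).2.2.1) (fun i => ?_) hs' hs x).2
    have := (hcq i).2.2.2
    linarith
  · intro x
    have h1 := (hbd (fun i => cq (q i)) (fun i => cq (q i) / ((q i : ℝ) + 1)) 0 1
      (fun i => (hcq i).1.le) (fun i => (hcq i).2.1) (fun i => (ht i).1) (fun i => (ht i).2) x).1
    rw [zero_mul] at h1
    exact h1
  · intro x
    refine (hbd (fun i => cq (q i)) (fun i => cq (q i) / ((q i : ℝ) + 1)) 0 (4 * ((P : ℝ) + 1))
      (fun i => (hcq i).1.le) (fun i => (hcq i).2.1.trans hc1) (fun i => (ht i).1)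
      (fun i => (ht i).2.trans hc1) x).2
  · intro x
    have h0 : 0 ≤ Qf (∀ i, Fin (q i) → L i) x x := by
      rw [hQ]
      exact Finset.sum_nonneg fun i _ => hQ0 i _
    obtain ⟨h1, h2⟩ := hbd (fun i => -((q i : ℝ) / ((q i : ℝ) + 1))) (fun _ => 0) (-1) 0
      (fun i => (hd i).1) (fun i => (hd i).2) (fun i => by norm_num) (fun i => le_rfl) x
    have h3 : Qf (∀ i, Fin (q i) → L i) x x ≤
        4 * ((P : ℝ) + 1) * Qf (∀ i, Fin (q i) → L i) x x :=
      le_mul_of_one_le_left h0 hc1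
    refine abs_le.2 ⟨?_, ?_⟩
    · refine le_trans ?_ h1
      linarith
    · refine le_trans h2 ?_
      linarith
  · intro x
    funext i
    change Op (q i) _ _ (Op (q i) _ _ (x i)) = Op (q i) _ _ (x i)
    rw [LB_Op_sc_comp (hq0 i), mul_one, mul_zero]
  · intro x
    funext i
    change Op (q i) _ _ (Op (q i) _ _ (x i)) = Op (q i) _ _ (Op (q i) _ _ (x i))
    rw [LB_Op_sc_comp (hq0 i), LB_Op_sc_comp (hq0 i), mul_comm, mul_comm (0 : ℝ)]
  · intro x
    funext i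
    change Op (q i) _ _ (Op (q i) _ _ (x i)) = Op (q i) _ _ (x i)
    rw [LB_Op_sc_comp (hq0 i), mul_one, mul_zero]
  · intro x
    funext i
    change Op (q i) _ _ (Op (q i) _ _ (x i)) = Op (q i) _ _ (Op (q i) _ _ (x i))
    rw [LB_Op_sc_comp (hq0 i), LB_Op_sc_comp (hq0 i), mul_comm, mul_comm (0 : ℝ)]
  · intro y hy
    funext i
    change Op (q i) _ _ (y i) = 0
    have h1 : y i = fun _ => y i ⟨0, hq0 i⟩ := by
      funext k
      exact hh y hy i k _
    rw [h1, Op_const (hq0 i)]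
    funext k
    rw [LB_sc_apply, zero_smul]
    rfl
  · intro m a ha hab x
    have h0 : 0 ≤ Qf (∀ i, Fin (q i) → L i) x x := by
      rw [hQ]
      exact Finset.sum_nonneg fun i _ => hQ0 i _
    refine ⟨?_, ?_, ?_⟩
    · refine (hcas m a ha hab x).trans ?_
      rw [hτ]
      refine mul_le_mul_of_nonneg_right ?_ h0
      refine le_mul_of_one_le_left hδ ?_
      nlinarith
    · exact hetg _ (fun i => ((q i : ℝ) + 1) * (cq (q i))⁻¹)
        (fun i => by rw [abs_of_nonneg (by have := hs' i; linarith)]; exact hs i) m a ha hab x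
    · exact hetg _ (fun i => cq (q i) / ((q i : ℝ) + 1))
        (fun i => by rw [abs_of_nonneg (ht i).1]; exact (ht i).2.trans hc1) m a ha hab x
  · intro x
    rw [TH2_DP_left, hQ, hQ, ← Finset.sum_sub_distrib]
    refine Finset.sum_congr rfl fun i _ => ?_
    rw [bl_DP, uts_b (hq0 i)]
    rfl
  · intro x
    rw [zero_mul, TH2_DP_left, hQ, hQ, Finset.mul_sum, Finset.mul_sum, Finset.mul_sum,
      ← Finset.sum_add_distrib, ← Finset.sum_sub_distrib]
    refine (abs_nonpos_iff.2 (Finset.sum_eq_zero fun i _ => ?_))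
    rw [bl_DP]
    exact base_b (hq0 i) (x i)
  · rintro γ ⟨σ, rfl⟩
    have hfix : ∀ y ∈ h, permAut L q σ y = y := by
      intro y hy
      funext i a
      exact hh y hy i _ _
    refine ⟨?_, ?_⟩
    · ext x
      rw [LieSubalgebra.mem_map]
      constructor
      · rintro ⟨y, hy, rfl⟩
        have := hfix y hy
        change permAut L q σ y ∈ h
        rw [this]
        exact hy
      · intro hx
        exact ⟨x, hx, hfix x hx⟩
    · intro x
      funext i
      exact LB_Op_perm _ _ (σ i) (x i)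
  · intro β hβ x
    have hdec : ∀ y : ∀ i, Fin (q i) → L i, β y = ∑ j, β (Pi.single j (y j)) := by
      intro y
      rw [← map_sum, Finset.univ_sum_single]
    funext i
    rw [hdec (DP (E := fun i => Fin (q i) → L i) (fun i => Pb (L i) (q i)) x)]
    change (∑ j, β (Pi.single j (Pb (L j) (q j) (x j)))) i = Pb (L i) (q i) (β x i)
    rw [hdec x, Finset.sum_apply, Finset.sum_apply, map_sum]
    refine Finset.sum_congr rfl fun j _ => ?_
    by_cases hij : i = j
    · subst hij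
      obtain ⟨A, B, -, -, hAB⟩ := cls1_op (hq i).1 (cls_bl hβ i)
      change bl (E := fun i => Fin (q i) → L i) β i (Pb (L i) (q i) (x i)) =
        Pb (L i) (q i) (bl (E := fun i => Fin (q i) → L i) β i (x i))
      rw [hAB]
      unfold Pb
      rw [Op_Op (hq0 i), Op_Op (hq0 i)]
      congr 2
      · ext u
        change A ((1 : ℝ) • u) = (1 : ℝ) • A u
        rw [one_smul, one_smul]
      · ext u
        change B ((0 : ℝ) • u) = (0 : ℝ) • B u
        rw [zero_smul, zero_smul, map_zero]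
    · rw [cls_off' hβ hij (Pb (L j) (q j) (x j)) (LB_sum_Pb (hq0 j) (x j))]
      have h1 : β (Pi.single j (x j)) i = fun _ => β (Pi.single j (x j)) i ⟨0, hq0 i⟩ := by
        funext k
        exact cls_off hβ hij (x j) k _
      rw [h1]
      unfold Pb
      rw [Op_const (hq0 i)]
      funext k
      rw [LB_sc_apply, zero_smul]
      rfl
  · intro β hβ x
    have key : ∀ y : ∀ i, Fin (q i) → L i,
        TH2 (DP (E := fun i => Fin (q i) → L i) fun i => Tb (L i) (q i)) β y y -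
          TH2 ((DP (E := fun i => Fin (q i) → L i) fun i => Tb (L i) (q i)) ∘ₗ β ∘ₗ
            (DP (E := fun i => Fin (q i) → L i) fun i => Tb (L i) (q i)))
            (DP (E := fun i => Fin (q i) → L i) fun i => Sb (L i) (q i)) y y =
        ∑ i, (TH2 (Tb (L i) (q i)) (bl (E := fun i => Fin (q i) → L i) β i) (y i) (y i) -
          TH2 (Tb (L i) (q i) ∘ₗ bl (E := fun i => Fin (q i) → L i) β i ∘ₗ Tb (L i) (q i))
            (Sb (L i) (q i)) (y i) (y i)) := by
      intro y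
      rw [TH2_DP_left, TH2_DP_right, ← Finset.sum_sub_distrib]
      refine Finset.sum_congr rfl fun i _ => ?_
      rw [bl_conj]
    rw [key, key]
    refine Finset.sum_congr rfl fun i _ => ?_
    obtain ⟨A, B, -, -, hAB⟩ := cls1_op (hq i).1 (cls_bl hβ i)
    rw [hAB]
    exact z_b (hq0 i) A B (x i)

end Pool.Agent.EinG
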