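import Pool.Agent.EinG.Spec
import Pool.Agent.EinG.BlkL
import Pool.Agent.EinU.FrmA

/-!
# The linearised Einstein equation has no solution for large `q`

In a frame `e` of `M` (`exists_frame` for `⊤`) let `Φ α = UU (CF e) 1 α` (linear in `α`); `TH T x x = TH2 id T x x` (cyclicity of the trace), and
`TH2_frame` (`EinU/FrmA.lean`) gives `TH T x x = v ⬝ᵥ (Φ (mo e T) *ᵥ v)`, `v = co e x`.  For symmetric `A, B` with matrices `α, β` the
matrices `α, β, Φ α, Φ β` are symmetric (`UU_symm`), so the hypotheses are matrix equations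
(1) `- a0 α + a1 Φ α + x₂ Φ β = 0`, (2) `(1/2)(1 - 1/q) Φ α + ((q+1)/(2q)) Φ β - c β = 0`,
`a0 = (5q+3)/(4(q+1))`, `a1 = (3q²+3q-1)/(2q(q+1))`, `x₂ = 1/(2q(q+1)²)`, `c = (q+3)/(4(q+1))`.
By (1) `Φ β = (a0 α - a1 Φ α)/x₂`; insert it into (2) and apply `Φ`: `c Φ β = (1/2)(1-1/q) Φ² α + ((q+1)/(2q)) (a0 Φ α - a1 Φ² α)/x₂`; with (1) again:
`(12q²+36q+32) Φ² α - (16q²+50q+38) Φ α + (5q²+18q+9) α = 0` after multiplication by a nonzero constant
(the determinant of the system, with `θ` for `Φ`: `16 (q+1)² ((a0 - a1 θ)(c - ((q+1)/(2q)) θ) - x₂ (1/2)(1-1/q) θ²) =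
(12q²+36q+32) θ² - (16q²+50q+38) θ + (5q²+18q+9)`).  So `α = 0` by `spec_bound`, then `Φ β = 0` by (1) and `β = 0` by (2).
-/

namespace Pool.Agent.EinG

open Pool.Agent.EStab Pool.Agent.EinS Pool.Agent.SmIso Pool.Agent.EinU

section Aux

open Matrix
open scoped Matrix.Norms.L2Operator

variable {L : Type*} [LieRing L] [LieAlgebra ℝ L] {J : Type*} [Fintype J] [DecidableEq J]

private theorem NonR_mulVec {e : J → L} (he : IsFrame (⊤ : Submodule ℝ L) e) (T : L →ₗ[ℝ] L)
    (x : L) : mo e T *ᵥ co e x = co e (T x) := by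
  funext i
  have h1 : T x = ∑ y, Qf L x (e y) • T (e y) := by
    conv_lhs => rw [he.exp x Submodule.mem_top, map_sum]
    exact Finset.sum_congr rfl fun y _ => map_smul _ _ _
  rw [co_apply, h1, map_sum, LinearMap.sum_apply]
  unfold Matrix.mulVec dotProduct
  refine Finset.sum_congr rfl fun y _ => ?_
  rw [map_smul, LinearMap.smul_apply, smul_eq_mul, mul_comm]
  rfl

private theorem NonR_quad {e : J → L} (he : IsFrame (⊤ : Submodule ℝ L) e) (T : L →ₗ[ℝ] L)
    (x : L) : Qf L (T x) x = co e x ⬝ᵥ (mo e T *ᵥ co e x) := by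
  have h1 : co e x ⬝ᵥ co e (T x) = Qf L x (T x) := (he.parseval Submodule.mem_top (T x)).symm
  rw [NonR_mulVec he, h1, Qf_symm]

private theorem NonR_one {e : J → L} (he : IsFrame (⊤ : Submodule ℝ L) e) :
    mo e (LinearMap.id : L →ₗ[ℝ] L) = 1 := by
  ext x y
  change Qf L (e y) (e x) = _
  rw [he.orth, Matrix.one_apply]
  exact if_congr eq_comm rfl rfl

omit [Fintype J] [DecidableEq J] in
private theorem NonR_symm (e : J → L) {T : L →ₗ[ℝ] L} (hT : QSym T) : (mo e T).IsSymm := by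
  ext x y
  change Qf L (T (e x)) (e y) = Qf L (T (e y)) (e x)
  rw [hT, Qf_symm]

private theorem NonR_TH {e : J → L} (he : IsFrame (⊤ : Submodule ℝ L) e) {T : L →ₗ[ℝ] L}
    (hT : QSym T) (x : L) : TH T x x = co e x ⬝ᵥ (UU (CF e) (mo e T) 1 *ᵥ co e x) := by
  have hid : QSym (LinearMap.id : L →ₗ[ℝ] L) := fun _ _ => rfl
  have h := TH2_frame he hT hid x
  rw [NonR_one he] at h
  rw [← h]
  unfold TH TH2
  rfl

private theorem NonR_zero {A : Matrix J J ℝ} (hA : A.IsSymm)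
    (h : ∀ v : J → ℝ, v ⬝ᵥ (A *ᵥ v) = 0) : A = 0 := by
  have h1 : ‖A‖ ≤ 0 := by
    refine norm_le_of_quad hA le_rfl fun x => ?_
    rw [h x, abs_zero, zero_mul]
  exact norm_le_zero_iff.mp h1

private theorem NonR_inj {e : J → L} (he : IsFrame (⊤ : Submodule ℝ L) e) {T : L →ₗ[ℝ] L}
    (h : mo e T = 0) : T = 0 := by
  ext x
  have h1 : co e (T x) = 0 := by
    rw [← NonR_mulVec he, h, Matrix.zero_mulVec]
  rw [LinearMap.zero_apply, he.exp (T x) Submodule.mem_top]
  refine Finset.sum_eq_zero fun i _ => ?_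
  have h2 : Qf L (T x) (e i) = 0 := congrFun h1 i
  rw [h2, zero_smul]

/-- elimination in the module -/
private theorem NonR_elim {V : Type*} [AddCommGroup V] [Module ℝ V] (X Y Z W U : V)
    {a0 a1 x2 s t c Q cZ cY cX : ℝ} (h1 : -a0 • X + a1 • Y + x2 • W = 0)
    (h1' : -a0 • Y + a1 • Z + x2 • U = 0)
    (h2' : s • Z + t • U - c • W = 0)
    (eZ : cZ = Q * (x2 * s - t * a1)) (eY : -cY = Q * (t * a0 + c * a1))
    (eX : cX = Q * (-(c * a0))) :
    cZ • Z - cY • Y + cX • X = 0 := by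
  have e1 : cZ • Z - cY • Y + cX • X =
      Q • (x2 • (s • Z + t • U - c • W) - t • (-a0 • Y + a1 • Z + x2 • U) +
        c • (-a0 • X + a1 • Y + x2 • W)) := by
    rw [sub_eq_add_neg (cZ • Z), ← neg_smul, eZ, eY, eX]
    module
  rw [e1, h1, h1', h2', smul_zero, smul_zero, smul_zero, sub_zero, add_zero, smul_zero]

end Aux

theorem exists_nonres {M : Type} [LieRing M] [LieAlgebra ℝ M] [Module.Finite ℝ M]
    (hM : CompactSemisimple M) : ∃ p0 : ℕ, 2 ≤ p0 ∧ ∀ q : ℕ, p0 ≤ q → NonRes M q := by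
  classical
  obtain ⟨n, e, he⟩ := exists_frame hM (⊤ : Submodule ℝ M)
  let Φ : Matrix (Fin n) (Fin n) ℝ →ₗ[ℝ] Matrix (Fin n) (Fin n) ℝ :=
    { toFun := fun α => UU (CF e) α 1
      map_add' := fun α β => UU_add_left α β 1
      map_smul' := fun t α => UU_smul_left t α 1 }
  have hΦ : ∀ α, Φ α = UU (CF e) α 1 := fun _ => rfl
  obtain ⟨p0, hp0, hsp⟩ := spec_bound Φ
  refine ⟨p0, hp0, fun q hq A B hA hB h1 h2 => ?_⟩
  have hq2 : (2 : ℝ) ≤ q := by exact_mod_cast hp0.trans hq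
  have hq0 : (0 : ℝ) < q := by linarith
  have hq1 : (0 : ℝ) < q + 1 := by linarith
  have hq3 : (0 : ℝ) < q + 3 := by linarith
  have hα : (mo e A).IsSymm := NonR_symm e hA
  have hβ : (mo e B).IsSymm := NonR_symm e hB
  have hs1 : (1 : Matrix (Fin n) (Fin n) ℝ).IsSymm := Matrix.isSymm_one
  have hΦs : ∀ {α : Matrix (Fin n) (Fin n) ℝ}, α.IsSymm → (Φ α).IsSymm := fun h =>
    UU_symm (CF e) h hs1
  set a0 : ℝ := (5 * q + 3) / (4 * (q + 1)) with ha0
  set a1 : ℝ := (3 * q ^ 2 + 3 * q - 1) / (2 * q * (q + 1)) with ha1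
  set x2 : ℝ := 1 / (2 * q * (q + 1) ^ 2) with hx2
  set s : ℝ := 1 / 2 * (1 - 1 / q) with hs
  set t : ℝ := (q + 1) / (2 * q) with ht
  set c : ℝ := cq q with hc
  have hc0 : 0 < c := by
    rw [hc]
    unfold cq
    positivity
  have hx20 : 0 < x2 := by
    rw [hx2]
    positivity
  -- the two matrix equations
  have E1 : -a0 • mo e A + a1 • Φ (mo e A) + x2 • Φ (mo e B) = 0 := by
    refine NonR_zero ?_ ?_
    · exact ((hα.smul _).add ((hΦs hα).smul _)).add ((hΦs hβ).smul _)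
    · intro v
      have hv : co e (∑ i, v i • e i) = v := co_comb he v
      have h3 := h1 (∑ i, v i • e i)
      unfold mf at h3
      rw [NonR_quad he, NonR_TH he hA, NonR_TH he hB, hv] at h3
      rw [Matrix.add_mulVec, Matrix.add_mulVec, dotProduct_add, dotProduct_add,
        Matrix.smul_mulVec, Matrix.smul_mulVec, Matrix.smul_mulVec, dotProduct_smul,
        dotProduct_smul, dotProduct_smul, smul_eq_mul, smul_eq_mul, smul_eq_mul]
      exact h3
  have E2 : s • Φ (mo e A) + t • Φ (mo e B) - c • mo e B = 0 := by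
    refine NonR_zero ?_ ?_
    · exact (((hΦs hα).smul _).add ((hΦs hβ).smul _)).sub (hβ.smul _)
    · intro v
      have hv : co e (∑ i, v i • e i) = v := co_comb he v
      have h3 := h2 (∑ i, v i • e i)
      unfold df at h3
      rw [NonR_quad he, NonR_TH he hA, NonR_TH he hB, hv] at h3
      rw [Matrix.sub_mulVec, Matrix.add_mulVec, dotProduct_sub, dotProduct_add,
        Matrix.smul_mulVec, Matrix.smul_mulVec, Matrix.smul_mulVec, dotProduct_smul,
        dotProduct_smul, dotProduct_smul, smul_eq_mul, smul_eq_mul, smul_eq_mul]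
      exact h3
  have E1' : -a0 • Φ (mo e A) + a1 • Φ (Φ (mo e A)) + x2 • Φ (Φ (mo e B)) = 0 := by
    have h3 := congrArg Φ E1
    rwa [map_zero, map_add, map_add, map_smul, map_smul, map_smul] at h3
  have E2' : s • Φ (Φ (mo e A)) + t • Φ (Φ (mo e B)) - c • Φ (mo e B) = 0 := by
    have h3 := congrArg Φ E2
    rwa [map_zero, map_sub, map_add, map_smul, map_smul, map_smul] at h3
  have hα0 : mo e A = 0 := by
    refine hsp q hq (mo e A) ?_
    refine NonR_elim (Q := -16 * ((q : ℝ) + 1) ^ 2) (mo e A) (Φ (mo e A)) (Φ (Φ (mo e A)))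
      (Φ (mo e B)) (Φ (Φ (mo e B))) E1 E1' E2' ?_ ?_ ?_
    · rw [hx2, hs, ht, ha1]
      field_simp
      ring
    · rw [ht, ha0, ha1, hc]
      unfold cq
      field_simp
      ring
    · rw [hc, ha0]
      unfold cq
      field_simp
      ring
  have hΦβ : Φ (mo e B) = 0 := by
    rw [hα0, map_zero, smul_zero, smul_zero, zero_add, zero_add] at E1
    exact (smul_eq_zero.mp E1).resolve_left hx20.ne'
  have hβ0 : mo e B = 0 := by
    rw [hα0, hΦβ, map_zero, smul_zero, smul_zero, add_zero, zero_sub, neg_eq_zero] at E2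
    exact (smul_eq_zero.mp E2).resolve_left hc0.ne'
  exact ⟨NonR_inj he hα0, NonR_inj he hβ0⟩

end Pool.Agent.EinG
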