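import Pool.Agent.EinG.Cls

/-!
# The gap on a product of powers

For `β` in the class put `β_i = bl β i` (in the class of the block, `cls_bl`).  By `TH2_DP_left`, `TH2_DP_right`, `bl_conj`, `Qf_pi`:
`ellQG S T D 1 β z + Qf (β z) z = ∑ i, (ellQG_i β_i z_i + Qf (β_i z_i) z_i)`; the off-diagonal blocks of `β` do not contribute to
`Qf (β z) (S (D z))`, since `β (Pi.single j z_j) i` is constant (`cls_off`) and `S_i (D_i z_i)` has mean value zero (`Qf_diag`).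
At `z = Pi.single i u` this gives `ellQG_i β_i u = ellQG S T D 1 β (Pi.single i u)`, so `|ellQG_i β_i u| ≤ s Qf u u`, hence
`|Qf (β_i u) u| ≤ K s Qf u u`, and `|Qf (β z) z| ≤ s Qf z z + ∑ i, (s + K s) Qf z_i z_i = (K + 2) s Qf z z`.
-/

namespace Pool.Agent.EinG

open Pool.Agent.EStab Pool.Agent.EinS Pool.Agent.SmIso Pool.Agent.EinU

section Gen

variable {n : ℕ} {E : Fin n → Type} [∀ i, LieRing (E i)] [∀ i, LieAlgebra ℝ (E i)]
  [∀ i, Module.Finite ℝ (E i)]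

omit [∀ i, Module.Finite ℝ (E i)] in
private theorem pg_bl (β : (∀ i, E i) →ₗ[ℝ] (∀ i, E i)) (i : Fin n) (u : E i) :
    bl β i u = β (Pi.single i u) i := rfl

private theorem pg_TH2_zero {M : Type} [LieRing M] [LieAlgebra ℝ M] (T U : M →ₗ[ℝ] M) (y : M) :
    TH2 T U 0 y = 0 := by
  unfold TH2
  rw [map_zero]
  change -LinearMap.trace ℝ M ((0 : M →ₗ[ℝ] M) ∘ₗ _) = 0
  rw [LinearMap.zero_comp, map_zero, neg_zero]

private theorem pg_ell_zero {M : Type} [LieRing M] [LieAlgebra ℝ M] (S T D β : M →ₗ[ℝ] M) :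
    ellQG S T D 1 β 0 + Qf M (β 0) 0 = 0 := by
  unfold ellQG
  simp only [map_zero, pg_TH2_zero]
  ring

omit [∀ i, Module.Finite ℝ (E i)] in
/-- The component of `β z`. -/
private theorem pg_comp (β : (∀ i, E i) →ₗ[ℝ] (∀ i, E i)) (z : ∀ i, E i) (i : Fin n) :
    β z i = ∑ j, β (Pi.single j (z j)) i := by
  have h1 : z = ∑ j, (Pi.single j (z j) : ∀ i, E i) := (Finset.univ_sum_single z).symm
  conv_lhs => rw [h1]
  rw [map_sum, Finset.sum_apply]

private theorem pg_SD (S D : ∀ i, E i →ₗ[ℝ] E i) (β : (∀ i, E i) →ₗ[ℝ] (∀ i, E i))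
    (hoff : ∀ i j, i ≠ j → ∀ (w : E j) (u : E i),
      Qf (E i) (β (Pi.single j w) i) (S i (D i u)) = 0) (z : ∀ i, E i) :
    Qf (∀ i, E i) (β z) (DP S (DP D z)) =
      ∑ i, Qf (E i) (bl β i (z i)) (S i (D i (z i))) := by
  rw [Qf_pi]
  refine Finset.sum_congr rfl fun i _ => ?_
  rw [DP_apply, DP_apply, pg_comp, map_sum, LinearMap.sum_apply, Finset.sum_eq_single i]
  · rfl
  · intro j _ hj
    exact hoff i j (Ne.symm hj) _ _
  · intro hi
    exact absurd (Finset.mem_univ i) hi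

private theorem pg_sum (S T D : ∀ i, E i →ₗ[ℝ] E i) (β : (∀ i, E i) →ₗ[ℝ] (∀ i, E i))
    (hoff : ∀ i j, i ≠ j → ∀ (w : E j) (u : E i),
      Qf (E i) (β (Pi.single j w) i) (S i (D i u)) = 0) (z : ∀ i, E i) :
    ellQG (DP S) (DP T) (DP D) 1 β z + Qf (∀ i, E i) (β z) z =
      ∑ i, (ellQG (S i) (T i) (D i) 1 (bl β i) (z i) + Qf (E i) (bl β i (z i)) (z i)) := by
  have h1 : ∀ i, ellQG (S i) (T i) (D i) 1 (bl β i) (z i) + Qf (E i) (bl β i (z i)) (z i) =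
      Qf (E i) (bl β i (z i)) (S i (D i (z i))) -
        1 / 2 * (TH2 (T i) (bl β i) (S i (z i)) (S i (z i)) -
          TH2 (T i ∘ₗ bl β i ∘ₗ T i) (S i) (S i (z i)) (S i (z i))) +
        1 / 2 * TH2 (S i) (bl β i) (z i) (z i) := by
    intro i
    unfold ellQG
    ring
  simp only [h1]
  rw [Finset.sum_add_distrib, Finset.sum_sub_distrib, ← Finset.mul_sum, ← Finset.mul_sum,
    Finset.sum_sub_distrib]
  have h2 : ∑ i, TH2 (T i) (bl β i) (S i (z i)) (S i (z i)) =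
      TH2 (DP T) β (DP S z) (DP S z) := (TH2_DP_left T β (DP S z)).symm
  have h3 : ∑ i, TH2 (T i ∘ₗ bl β i ∘ₗ T i) (S i) (S i (z i)) (S i (z i)) =
      TH2 (DP T ∘ₗ β ∘ₗ DP T) (DP S) (DP S z) (DP S z) := by
    rw [TH2_DP_right]
    refine Finset.sum_congr rfl fun i _ => ?_
    rw [bl_conj]
    rfl
  rw [h2, h3, ← TH2_DP_left S β z, ← pg_SD S D β hoff z]
  unfold ellQG
  ring

private theorem pg_gap (S T D : ∀ i, E i →ₗ[ℝ] E i) (β : (∀ i, E i) →ₗ[ℝ] (∀ i, E i))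
    (hoff : ∀ i j, i ≠ j → ∀ (w : E j) (u : E i),
      Qf (E i) (β (Pi.single j w) i) (S i (D i u)) = 0) {s : ℝ}
    (hs : ∀ z, |ellQG (DP S) (DP T) (DP D) 1 β z| ≤ s * Qf (∀ i, E i) z z) :
    (∀ i u, |ellQG (S i) (T i) (D i) 1 (bl β i) u| ≤ s * Qf (E i) u u) ∧
      ∀ K : ℝ, (∀ i u, |Qf (E i) (bl β i u) u| ≤ K * s * Qf (E i) u u) →
        ∀ z, |Qf (∀ i, E i) (β z) z| ≤ (K + 2) * s * Qf (∀ i, E i) z z := by
  have hb : ∀ (i : Fin n) (u : E i), |ellQG (S i) (T i) (D i) 1 (bl β i) u| ≤ s * Qf (E i) u u := by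
    intro i u
    have h1 := hs (Pi.single i u)
    have h2 := pg_sum S T D β hoff (Pi.single i u)
    rw [Finset.sum_eq_single i] at h2
    · rw [Pi.single_eq_same, Qf_single, ← pg_bl] at h2
      have h3 : ellQG (DP S) (DP T) (DP D) 1 β (Pi.single i u) =
        ellQG (S i) (T i) (D i) 1 (bl β i) u := by linarith
      rw [h3, Qf_single, Pi.single_eq_same] at h1
      exact h1
    · intro j _ hj
      rw [Pi.single_eq_of_ne hj]
      exact pg_ell_zero _ _ _ _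
    · intro hi
      exact absurd (Finset.mem_univ i) hi
  refine ⟨hb, fun K hc z => ?_⟩
  have h0 := hs z
  have h1 := pg_sum S T D β hoff z
  rw [Finset.sum_add_distrib] at h1
  have h2 : |∑ i, ellQG (S i) (T i) (D i) 1 (bl β i) (z i)| ≤ s * Qf (∀ i, E i) z z := by
    rw [Qf_pi z z, Finset.mul_sum]
    exact (Finset.abs_sum_le_sum_abs _ _).trans (Finset.sum_le_sum fun i _ => hb i (z i))
  have h3 : |∑ i, Qf (E i) (bl β i (z i)) (z i)| ≤ K * s * Qf (∀ i, E i) z z := by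
    rw [Qf_pi z z, Finset.mul_sum]
    exact (Finset.abs_sum_le_sum_abs _ _).trans (Finset.sum_le_sum fun i _ => hc i (z i))
  rw [abs_le] at h0 h2 h3 ⊢
  constructor
  · nlinarith [h0.2, h2.1, h3.1]
  · nlinarith [h0.1, h2.2, h3.2]

end Gen

private theorem pg_mean {M : Type} [LieRing M] [LieAlgebra ℝ M] {q : ℕ} (hq : 0 < q)
    (z : Fin q → M) : ∑ a, Sb M q (Db M q z) a = 0 := by
  have h1 : av (Sb M q (Db M q z)) = 0 := by
    unfold Sb Db
    rw [av_Op hq, av_Op hq]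
    unfold sc
    simp
  unfold av at h1
  rcases smul_eq_zero.1 h1 with h2 | h2
  · exfalso
    have h3 : (q : ℝ) ≠ 0 := Nat.cast_ne_zero.2 hq.ne'
    exact (inv_ne_zero h3) h2
  · exact h2

theorem pi_gapG {n : ℕ} {L : Fin n → Type} [∀ i, LieRing (L i)] [∀ i, LieAlgebra ℝ (L i)]
    [∀ i, Module.Finite ℝ (L i)] (hL : ∀ i, CompactSemisimple (L i)) {q : Fin n → ℕ}
    (hq : ∀ i, 0 < q i) {K : ℝ} (hK : 0 ≤ K)
    (h : ∀ i, GapLG (perm1 (L i) (q i)) (Sb (L i) (q i)) (Tb (L i) (q i)) (Db (L i) (q i)) 1 K) :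
    GapLG (perms L q) (DP (E := fun i => Fin (q i) → L i) fun i => Sb (L i) (q i))
      (DP (E := fun i => Fin (q i) → L i) fun i => Tb (L i) (q i))
      (DP (E := fun i => Fin (q i) → L i) fun i => Db (L i) (q i)) 1 (K + 2) := by
  intro β hβ s hs
  have hoff : ∀ i j : Fin n, i ≠ j → ∀ (w : Fin (q j) → L j) (u : Fin (q i) → L i),
      Qf (Fin (q i) → L i) (β (Pi.single j w) i) (Sb (L i) (q i) (Db (L i) (q i) u)) = 0 := by
    intro i j hij w u
    rw [Qf_symm]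
    exact Qf_diag (pg_mean (hq i) u) fun a b => cls_off hβ hij w a b
  obtain ⟨h1, h2⟩ := pg_gap (E := fun i => Fin (q i) → L i) (fun i => Sb (L i) (q i))
    (fun i => Tb (L i) (q i)) (fun i => Db (L i) (q i)) β hoff hs
  exact h2 K fun i u => h i _ (cls_bl hβ i) s (h1 i) u

end Pool.Agent.EinG
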