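import Pool.Agent.EinU.AdB
import Pool.Agent.EinG.Blk

/-!
# Transport

* `einstein_equiv`: as `einstein_transport` in `EinU/AdB.lean`, for an isomorphism between two algebras (`killingForm` is preserved:
  `LieAlgebra.killingForm_of_equiv_apply`).
* `regroup`: the isomorphism `(Fin n → g) ≃ (∀ i, Fin (q i) → g)` for `n = ∑ i, q i` which renames the factors
  (`finSigmaFinEquiv`, `Equiv.piCurry`): every component of the image is a component of `x`, and constant vectors correspond to constant vectors.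
-/

namespace Pool.Agent.EinG

open Pool.Agent.EStab Pool.Agent.EinS Pool.Agent.SmIso Pool.Agent.EinU

theorem einstein_equiv {L L' : Type*} [LieRing L] [LieAlgebra ℝ L] [LieRing L'] [LieAlgebra ℝ L']
    {k : Submodule ℝ L} {Γ : Set (L →ₗ[ℝ] L)} {Γ' : Set (L' →ₗ[ℝ] L')} (φ : L ≃ₗ⁅ℝ⁆ L')
    (hΓ : ∀ γ' ∈ Γ', ∃ γ ∈ Γ, ∀ x, γ' (φ x) = φ (γ x)) (h : HasEinsteinMetric L k Γ) :
    HasEinsteinMetric L' (k.map (φ : L →ₗ[ℝ] L')) Γ' := by
  obtain ⟨m, π, β, D, X, c, h1, h2, h3, h4, h5, h6, h7, h8, h9, h10, h11⟩ := h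
  let e : L ≃ₗ[ℝ] L' := φ.toLinearEquiv
  let π' : L' →ₗ[ℝ] L' := (e : L →ₗ[ℝ] L') ∘ₗ π ∘ₗ (e.symm : L' →ₗ[ℝ] L)
  let β' : LinearMap.BilinForm ℝ L' := β.compl₁₂ (e.symm : L' →ₗ[ℝ] L) (e.symm : L' →ₗ[ℝ] L)
  have hπ : ∀ x, π' (φ x) = φ (π x) := by
    intro x
    show φ (π (φ.symm (φ x))) = φ (π x)
    rw [LieEquiv.symm_apply_apply]
  have hβ : ∀ x y, β' (φ x) (φ y) = β x y := by
    intro x y
    show β (φ.symm (φ x)) (φ.symm (φ y)) = β x y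
    rw [LieEquiv.symm_apply_apply, LieEquiv.symm_apply_apply]
  refine ⟨m.map (φ : L →ₗ[ℝ] L'), π', β', D, fun i => φ (X i), c, ?_, ?_, ?_, ?_, ?_, ?_, ?_,
    ?_, ?_, h10, ?_⟩
  · exact (Submodule.orderIsoMapComap e).isCompl h1
  · rintro _ ⟨y, hy, rfl⟩
    have := hπ y
    rw [h2 y hy, map_zero] at this
    exact this
  · rintro _ ⟨x, hx, rfl⟩
    have := hπ x
    rw [h3 x hx] at this
    exact this
  · rintro _ ⟨y, hy, rfl⟩ _ ⟨x, hx, rfl⟩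
    refine ⟨⁅y, x⁆, h4 y hy x hx, ?_⟩
    exact LieEquiv.map_lie φ y x
  · rintro γ' hγ' _ ⟨x, hx, rfl⟩
    obtain ⟨γ, hγ, hg⟩ := hΓ γ' hγ'
    exact ⟨γ x, h5 γ hγ x hx, (hg x).symm⟩
  · rintro γ' hγ' _ ⟨x, hx, rfl⟩ _ ⟨y, hy, rfl⟩
    obtain ⟨γ, hγ, hg⟩ := hΓ γ' hγ'
    show β' (γ' (φ x)) (γ' (φ y)) = β' (φ x) (φ y)
    rw [hg, hg, hβ, hβ]
    exact h6 γ hγ x hx y hy
  · intro x y
    exact h7 _ _
  · rw [← h8, Submodule.map_span, ← Set.range_comp]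
    rfl
  · intro i j
    show β' (φ (X i)) (φ (X j)) = _
    rw [hβ]
    exact h9 i j
  · rintro _ ⟨x, hx, rfl⟩
    show ricci π' β' (fun i => φ (X i)) (φ x) = c * β' (φ x) (φ x)
    rw [hβ, ← h11 x hx]
    unfold ricci
    have e1 : ∀ i, β' (π' ⁅φ x, φ (X i)⁆) (π' ⁅φ x, φ (X i)⁆) =
        β (π ⁅x, X i⁆) (π ⁅x, X i⁆) := by
      intro i
      rw [← LieEquiv.map_lie, hπ, hβ]
    have e2 : ∀ i j, β' (π' ⁅φ (X i), φ (X j)⁆) (φ x) = β (π ⁅X i, X j⁆) x := by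
      intro i j
      rw [← LieEquiv.map_lie, hπ, hβ]
    rw [LieAlgebra.killingForm_of_equiv_apply]
    simp only [e1, e2]

theorem exists_regroup {g : Type} [LieRing g] [LieAlgebra ℝ g] {m : ℕ} (q : Fin m → ℕ) {n : ℕ}
    (hn : n = ∑ i, q i) : ∃ (φ : (∀ i, Fin (q i) → g) ≃ₗ⁅ℝ⁆ (Fin n → g))
    (f : Fin n → Σ i, Fin (q i)), ∀ x j, φ x j = x (f j).1 (f j).2 := by
  let e : Fin n ≃ Σ i, Fin (q i) := (finCongr hn).trans finSigmaFinEquiv.symm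
  refine ⟨{ toFun := fun x j => x (e j).1 (e j).2
            map_add' := fun x y => rfl
            map_smul' := fun c x => rfl
            map_lie' := fun {x y} => rfl
            invFun := fun y i k => y (e.symm ⟨i, k⟩)
            left_inv := fun x => ?_
            right_inv := fun y => ?_ }, e, fun x j => rfl⟩
  · funext i k
    show x (e (e.symm ⟨i, k⟩)).1 (e (e.symm ⟨i, k⟩)).2 = x i k
    rw [Equiv.apply_symm_apply]
  · funext j
    show y (e.symm ⟨(e j).1, (e j).2⟩) = y j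
    rw [Sigma.eta, Equiv.symm_apply_apply]

end Pool.Agent.EinG
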