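import Pool.Agent.EinG.Frm
import Pool.Agent.EinG.NonR
import Pool.Agent.EinG.BlkGap
import Pool.Agent.EinG.PiGap
import Pool.Agent.EinG.LB
import Pool.Agent.EinG.Tr
import Pool.Agent.SmIso.Diag

/-!
# Main theorems: products of powers, and `G/H × G^(n-1)` for all `H`
-/

namespace Pool.Agent.EinG

open Pool.Agent.EStab Pool.Agent.EinS Pool.Agent.SmIso Pool.Agent.EinU

/-- The automorphisms of a product of powers which preserve `h` and act in the same way on all copies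
of `L i`. -/
def blockAuts {n : ℕ} {L : Fin n → Type} [∀ i, LieRing (L i)] [∀ i, LieAlgebra ℝ (L i)]
    {q : Fin n → ℕ} (h : LieSubalgebra ℝ (∀ i, Fin (q i) → L i)) :
    Set ((∀ i, Fin (q i) → L i) →ₗ[ℝ] (∀ i, Fin (q i) → L i)) :=
  {γ | ∃ δ : ∀ i, L i ≃ₗ⁅ℝ⁆ L i, h.toSubmodule.map γ = h.toSubmodule ∧
    ∀ x i a, γ x i a = δ i (x i a)}

/-- The automorphisms of `g^n` given by an automorphism of `g` which preserves `h`, acting in the same
way on all factors. -/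
def factorAuts {g : Type} [LieRing g] [LieAlgebra ℝ g] (n : ℕ) (h : LieSubalgebra ℝ g) :
    Set ((Fin n → g) →ₗ[ℝ] (Fin n → g)) :=
  {γ | ∃ δ : g ≃ₗ⁅ℝ⁆ g, h.map (δ : g →ₗ⁅ℝ⁆ g) = h ∧ ∀ x i, γ x i = δ (x i)}

/-- The componentwise automorphism. -/
def compAut {n : ℕ} {L : Fin n → Type} [∀ i, LieRing (L i)] [∀ i, LieAlgebra ℝ (L i)]
    (q : Fin n → ℕ) (δ : ∀ i, L i ≃ₗ⁅ℝ⁆ L i) :
    (∀ i, Fin (q i) → L i) ≃ₗ⁅ℝ⁆ (∀ i, Fin (q i) → L i) where
  toFun x i a := δ i (x i a)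
  map_add' x y := by
    funext i a
    exact map_add (δ i) (x i a) (y i a)
  map_smul' c x := by
    funext i a
    exact map_smul (δ i) c (x i a)
  map_lie' := by
    intro x y
    funext i a
    exact (δ i).map_lie (x i a) (y i a)
  invFun x i a := (δ i).symm (x i a)
  left_inv x := by
    funext i a
    exact (δ i).symm_apply_apply (x i a)
  right_inv x := by
    funext i a
    exact (δ i).apply_symm_apply (x i a)

theorem compAut_Op {n : ℕ} {L : Fin n → Type} [∀ i, LieRing (L i)] [∀ i, LieAlgebra ℝ (L i)]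
    (q : Fin n → ℕ) (δ : ∀ i, L i ≃ₗ⁅ℝ⁆ L i) (x : ∀ i, Fin (q i) → L i) :
    DP (E := fun i => Fin (q i) → L i) (fun i => Sb (L i) (q i)) (compAut q δ x) =
      compAut q δ (DP (E := fun i => Fin (q i) → L i) (fun i => Sb (L i) (q i)) x) := by
  have hav : ∀ i, av (compAut q δ x i) = δ i (av (x i)) := by
    intro i
    unfold av
    rw [map_smul, map_sum]
    rfl
  funext i a
  change (cq (q i))⁻¹ • (δ i (x i a) - av (compAut q δ x i)) +
      ((q i + 1) * (cq (q i))⁻¹) • av (compAut q δ x i) =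
    δ i ((cq (q i))⁻¹ • (x i a - av (x i)) + ((q i + 1) * (cq (q i))⁻¹) • av (x i))
  rw [hav, map_add, map_smul, map_smul, map_sub]

theorem einstein_monoG {L : Type*} [LieRing L] [LieAlgebra ℝ L] {k : Submodule ℝ L}
    {Γ Γ' : Set (L →ₗ[ℝ] L)} (h : HasEinsteinMetric L k Γ) (hΓ : Γ' ⊆ Γ) :
    HasEinsteinMetric L k Γ' := by
  obtain ⟨m, π, β, D, X, c, h1, h2, h3, h4, h5, h6, h7, h8, h9, h10, h11⟩ := h
  exact ⟨m, π, β, D, X, c, h1, h2, h3, h4, fun γ hγ => h5 γ (hΓ hγ), fun γ hγ => h6 γ (hΓ hγ),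
    h7, h8, h9, h10, h11⟩

theorem gapLG_mono {L : Type*} [LieRing L] [LieAlgebra ℝ L] {Γ : Set (L ≃ₗ⁅ℝ⁆ L)}
    {S T D : L →ₗ[ℝ] L} {lam K K' : ℝ} (h : GapLG Γ S T D lam K) (hK : K ≤ K') :
    GapLG Γ S T D lam K' := by
  intro β hβ s hs z
  refine (h β hβ s hs z).trans ?_
  have h1 : 0 ≤ s * Qf L z z := (abs_nonneg _).trans (hs z)
  rw [mul_assoc, mul_assoc]
  exact mul_le_mul_of_nonneg_right hK h1

/-- Products of powers of finitely many compact semisimple Lie algebras. -/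
theorem einstein_blocks {r : ℕ} (L : Fin r → Type) [∀ j, LieRing (L j)]
    [∀ j, LieAlgebra ℝ (L j)] [∀ j, Module.Finite ℝ (L j)]
    (hL : ∀ j, CompactSemisimple (L j)) :
    ∃ p : ℕ, 2 ≤ p ∧ ∀ P : ℕ, ∃ δ : ℝ, 0 < δ ∧
      ∀ (n : ℕ) (s : Fin n → Fin r) (q : Fin n → ℕ), (∀ i, p ≤ q i ∧ q i ≤ P) →
      ∀ h : LieSubalgebra ℝ (∀ i, Fin (q i) → L (s i)), (∀ x ∈ h, ∀ i a b, x i a = x i b) →
        CasimirSmall h δ →
          HasEinsteinMetric (∀ i, Fin (q i) → L (s i)) h.toSubmodule (blockAuts h) := by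
  classical
  choose p0 hp0 hnon using fun j => exists_nonres (hL j)
  refine ⟨2 + ∑ j, p0 j, by omega, fun P => ?_⟩
  have hle : ∀ j, p0 j ≤ 2 + ∑ j, p0 j := fun j =>
    (Finset.single_le_sum (f := p0) (fun j _ => Nat.zero_le _) (Finset.mem_univ j)).trans
      (by omega)
  obtain ⟨K, hK, hgap⟩ : ∃ K : ℝ, 1 ≤ K ∧ ∀ j (q : ℕ), 2 + ∑ j, p0 j ≤ q → q ≤ P →
      GapLG (perm1 (L j) q) (Sb (L j) q) (Tb (L j) q) (Db (L j) q) 1 K := by
    have h1 : ∀ j (q : ℕ), ∃ K : ℝ, 1 ≤ K ∧ (2 + ∑ j, p0 j ≤ q →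
        GapLG (perm1 (L j) q) (Sb (L j) q) (Tb (L j) q) (Db (L j) q) 1 K) := by
      intro j q
      by_cases hq : 2 + ∑ j, p0 j ≤ q
      · obtain ⟨K, hK, h2⟩ := blk_gap (hL j) (q := q) (by omega)
          (hnon j q ((hle j).trans hq))
        exact ⟨K, hK, fun _ => h2⟩
      · exact ⟨1, le_rfl, fun h => absurd h hq⟩
    choose K' hK' hgap' using h1
    refine ⟨1 + ∑ j, ∑ q ∈ Finset.range (P + 1), K' j q, ?_, fun j q h2 h3 => ?_⟩
    · have : 0 ≤ ∑ j, ∑ q ∈ Finset.range (P + 1), K' j q :=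
        Finset.sum_nonneg fun j _ => Finset.sum_nonneg fun q _ => by linarith [hK' j q]
      linarith
    · refine gapLG_mono (hgap' j q h2) ?_
      have h4 : K' j q ≤ ∑ q ∈ Finset.range (P + 1), K' j q :=
        Finset.single_le_sum (f := fun q => K' j q) (fun q _ => by linarith [hK' j q])
          (Finset.mem_range.2 (by omega))
      have h5 : ∑ q ∈ Finset.range (P + 1), K' j q ≤
          ∑ j, ∑ q ∈ Finset.range (P + 1), K' j q :=
        Finset.single_le_sum (f := fun j => ∑ q ∈ Finset.range (P + 1), K' j q)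
          (fun j _ => Finset.sum_nonneg fun q _ => by linarith [hK' j q]) (Finset.mem_univ j)
      linarith
  obtain ⟨c, hc⟩ : ∃ c : ℝ, c = 4 * ((P : ℝ) + 1) := ⟨_, rfl⟩
  have hP0 : (0 : ℝ) ≤ P := Nat.cast_nonneg P
  have hc0 : 0 < c := by rw [hc]; positivity
  have hD : 0 < 500 * (K + 2) * c ^ 11 := by positivity
  refine ⟨(1 / (500 * (K + 2) * c ^ 11)) ^ 2, by positivity, fun n s q hq h hh hcas => ?_⟩
  have hsq : √((1 / (500 * (K + 2) * c ^ 11)) ^ 2) = 1 / (500 * (K + 2) * c ^ 11) :=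
    Real.sqrt_sq (by positivity)
  have hB := lbase (fun i => hL (s i)) (q := q) (P := P)
    (fun i => ⟨by have := (hq i).1; omega, (hq i).2⟩) hh
    (δ := (1 / (500 * (K + 2) * c ^ 11)) ^ 2) (by positivity) hcas
  have hG := pi_gapG (fun i => hL (s i)) (q := q) (fun i => by have := (hq i).1; omega)
    (K := K) (by linarith) (fun i => hgap (s i) (q i) (hq i).1 (hq i).2)
  rw [hsq, ← hc] at hB
  have hcomp : CompactSemisimple (∀ i, Fin (q i) → L (s i)) :=
    compact_pi (L := fun i => Fin (q i) → L (s i)) fun i =>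
      compact_pi (L := fun _ : Fin (q i) => L (s i)) fun _ => hL (s i)
  have hmain := perturb_einsteinG hcomp hB (K := K + 2) (by linarith) hG (by
    have : 500 * (K + 2) * c ^ 10 * (c * (1 / (500 * (K + 2) * c ^ 11))) = 1 := by
      field_simp
    linarith) (by simp)
  refine einstein_monoG hmain ?_
  rintro γ ⟨δ, hγ, hδ⟩
  have hγ' : ∀ x, γ x = compAut q δ x := by
    intro x
    funext i a
    exact hδ x i a
  refine ⟨compAut q δ, ?_, compAut_Op q δ, hγ'⟩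
  apply LieSubalgebra.toSubmodule_injective
  rw [← hγ]
  ext x
  constructor
  · rintro ⟨y, hy, rfl⟩
    exact ⟨y, hy, hγ' y⟩
  · rintro ⟨y, hy, rfl⟩
    exact ⟨y, hy, (hγ' y).symm⟩

theorem casimirSmall_equiv {L L' : Type*} [LieRing L] [LieAlgebra ℝ L] [LieRing L']
    [LieAlgebra ℝ L'] (φ : L' ≃ₗ⁅ℝ⁆ L) {h : LieSubalgebra ℝ L} {h' : LieSubalgebra ℝ L'}
    (hh : ∀ x ∈ h', φ x ∈ h) {δ : ℝ} (hc : CasimirSmall h δ) : CasimirSmall h' δ := by
  intro n a ha ho x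
  have hk : ∀ u v, killingForm ℝ L (φ u) (φ v) = killingForm ℝ L' u v := fun u v =>
    LieAlgebra.killingForm_of_equiv_apply φ u v
  have h1 := hc n (fun i => φ (a i)) (fun i => hh _ (ha i)) (fun i j => by rw [hk, ho]) (φ x)
  rw [hk] at h1
  refine le_trans (le_of_eq ?_) h1
  refine Finset.sum_congr rfl fun i _ => ?_
  rw [← LieEquiv.map_lie, hk]

/-- `G/H × G^(n-1)` is an Einstein manifold for all `n ≥ n₀(G)` and all closed subgroups `H`. -/
theorem einstein_stable {g : Type} [LieRing g] [LieAlgebra ℝ g] [Module.Finite ℝ g]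
    (hg : CompactSemisimple g) : ∃ n₀ : ℕ, ∀ n, n₀ ≤ n → ∀ h : LieSubalgebra ℝ g,
      HasEinsteinMetric (Fin n → g) (diagonal n h) (factorAuts n h) := by
  obtain ⟨p, hp2, hp⟩ := einstein_blocks (r := 1) (fun _ => g) fun _ => hg
  obtain ⟨δ, hδ, hmain⟩ := hp (2 * p)
  obtain ⟨n₁, hn₁⟩ := exists_nat_gt (1 / δ)
  refine ⟨p + n₁, fun n hn h => ?_⟩
  have hp0 : 0 < p := by omega
  have hn0 : 0 < n := by omega
  -- the blocks
  obtain ⟨m, hm⟩ : ∃ m, m = n / p - 1 := ⟨_, rfl⟩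
  have hm1 : 1 ≤ n / p := (Nat.one_le_div_iff hp0).2 (by omega)
  have hdiv : n = p * (m + 1) + n % p := by
    have := Nat.div_add_mod n p
    have h2 : m + 1 = n / p := by omega
    rw [h2]
    omega
  obtain ⟨q, hq⟩ : ∃ q : Fin (m + 1) → ℕ, q = fun i => if i = 0 then p + n % p else p := ⟨_, rfl⟩
  have hsum : n = ∑ i, q i := by
    rw [Fin.sum_univ_succ, hq]
    simp only [if_true, Fin.succ_ne_zero, if_false, Finset.sum_const, Finset.card_univ,
      Fintype.card_fin, smul_eq_mul]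
    have h3 : p * (m + 1) = p + m * p := by ring
    omega
  have hqb : ∀ i, p ≤ q i ∧ q i ≤ 2 * p := by
    intro i
    have := Nat.mod_lt n hp0
    rw [hq]
    dsimp only
    split_ifs <;> omega
  obtain ⟨φ, f, hφ⟩ := exists_regroup (g := g) q hsum
  obtain ⟨h', hh'⟩ : ∃ h' : LieSubalgebra ℝ (∀ i, Fin (q i) → g),
      ∀ x, x ∈ h' ↔ φ x ∈ diagSub n h := ⟨(diagSub n h).comap (φ : _ →ₗ⁅ℝ⁆ _), fun x => Iff.rfl⟩
  have hconst : ∀ y : g, φ (fun _ _ => y) = fun _ => y := by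
    intro y
    funext j
    rw [hφ]
  have hmem : ∀ x ∈ h', ∃ y ∈ h, x = fun _ _ => y := by
    intro x hx
    obtain ⟨y, hy, hxy⟩ := (hh' x).1 hx
    refine ⟨y, hy, φ.injective ?_⟩
    change φ x = φ (fun _ _ => y)
    rw [hconst]
    funext j
    exact hxy j
  have hcas : CasimirSmall h' δ := by
    refine casimirSmall_equiv φ (h := diagSub n h) (fun x hx => (hh' x).1 hx) ?_
    intro k a ha ho x
    refine (diag_casimir hg hn0 h k a ha ho x).trans ?_
    have hx0 : 0 ≤ -killingForm ℝ (Fin n → g) x x :=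
      Qf_nonneg (compact_pi (L := fun _ : Fin n => g) fun _ => hg) x
    refine mul_le_mul_of_nonneg_right ?_ hx0
    have hnR : 1 / δ < n := by
      refine hn₁.trans_le ?_
      exact_mod_cast (by omega : n₁ ≤ n)
    rw [div_le_iff₀ (by exact_mod_cast hn0)]
    rw [div_lt_iff₀ hδ] at hnR
    linarith
  have hE := hmain (m + 1) (fun _ => 0) q hqb h'
    (fun x hx i a b => by
      obtain ⟨y, -, rfl⟩ := hmem x hx
      rfl) hcas
  have hT := einstein_equiv (Γ' := factorAuts n h) φ (fun γ' hγ' => by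
    obtain ⟨δ', h1, h2⟩ := hγ'
    refine ⟨(compAut q (fun _ => δ') : (∀ i, Fin (q i) → g) →ₗ[ℝ] _), ⟨fun _ => δ', ?_,
      fun x i a => rfl⟩, fun x => ?_⟩
    · have hst : ∀ y, y ∈ h → δ' y ∈ h := fun y hy => by
        rw [← h1]
        exact ⟨y, hy, rfl⟩
      ext x
      constructor
      · rintro ⟨y, hy, rfl⟩
        obtain ⟨u, hu, rfl⟩ := hmem y hy
        refine (hh' _).2 ⟨δ' u, hst u hu, fun j => ?_⟩
        rw [hφ]
        rfl
      · intro hx
        obtain ⟨u, hu, rfl⟩ := hmem x hx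
        rw [← h1] at hu
        obtain ⟨v, hv, rfl⟩ := hu
        refine ⟨fun _ _ => v, (hh' _).2 ⟨v, hv, fun j => by rw [hconst]⟩, rfl⟩
    · funext j
      rw [h2, hφ]
      exact (hφ (compAut q (fun _ => δ') x) j).symm) hE
  have hmap : h'.toSubmodule.map (φ : (∀ i, Fin (q i) → g) →ₗ[ℝ] (Fin n → g)) = diagonal n h := by
    ext x
    constructor
    · rintro ⟨y, hy, rfl⟩
      obtain ⟨u, hu, rfl⟩ := hmem y hy
      exact ⟨u, hu, (hconst u).symm⟩
    · rintro ⟨u, hu, rfl⟩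
      refine ⟨fun _ _ => u, (hh' _).2 ⟨u, hu, fun j => by rw [hconst]⟩, hconst u⟩
  rwa [hmap] at hT

end Pool.Agent.EinG
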