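import Pool.Agent.EinG.Base

/-!
# From the Lie algebra to matrices

As in `EinU/FrmA.lean` (copy its private lemmas).  New fields:
* `inv`: for `M = mat γ ê`, `γ ∈ Γ`: `CF_inv`, `FrmU_comm` (private in `EinU/FrmU.lean`, copy it), and `M * Ph * Mᵀ = Ph` since `M` is
  block diagonal (`FrmU_blocks`, `mat_orth`), so that `M * Ph = Ph * M`.
* `cp`, `z`: a symmetric matrix `β` with `M β Mᵀ = β` for all `M = mat γ ê` is `mo ê (op β)` with `Cls Γ (op β)`: `M β = β M`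
  (`Mᵀ M = 1`), hence `op β (γ x) = γ (op β x)` (coordinates: `co ê (γ x) = mat γ ê *ᵥ co ê x`, `co_equiv`).
* `Dpp`: `comp_eq`; `SD`, `Spp`: `FrmA_comp` and equality of the operators; `nD`: `FrmA_norm`; `base`: as there.
* `gapG_frame`: `v ⬝ (1/2) (β W + W β) v = β v ⬝ W v`, `W = mo S * mo D` symmetric, and `v ⬝ (S A S) v = (S v) ⬝ A (S v)`.
-/

namespace Pool.Agent.EinG

open Matrix Pool.Agent.EStab Pool.Agent.EinS Pool.Agent.SmIso Pool.Agent.EinU

variable {L : Type*} [LieRing L] [LieAlgebra ℝ L]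

section Aux

open scoped Matrix.Norms.L2Operator

variable {J : Type*} [Fintype J] [DecidableEq J]

private theorem FrmA_mulVec {e : J → L} (he : IsFrame (⊤ : Submodule ℝ L) e) (T : L →ₗ[ℝ] L)
    (x : L) : mo e T *ᵥ co e x = co e (T x) := by
  funext i
  have h1 : T x = ∑ y, Qf L x (e y) • T (e y) := by
    conv_lhs => rw [he.exp x Submodule.mem_top, map_sum]
    exact Finset.sum_congr rfl fun y _ => map_smul _ _ _
  rw [co_apply, h1, map_sum, LinearMap.sum_apply]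
  unfold Matrix.mulVec dotProduct
  refine Finset.sum_congr rfl fun y _ => ?_
  rw [map_smul, LinearMap.smul_apply, smul_eq_mul, mul_comm]
  rfl

private theorem FrmA_dot {e : J → L} (he : IsFrame (⊤ : Submodule ℝ L) e) (x y : L) :
    co e x ⬝ᵥ co e y = Qf L x y :=
  (he.parseval Submodule.mem_top y).symm

private theorem FrmA_quad {e : J → L} (he : IsFrame (⊤ : Submodule ℝ L) e) (T : L →ₗ[ℝ] L)
    (x : L) : co e x ⬝ᵥ (mo e T *ᵥ co e x) = Qf L (T x) x := by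
  rw [FrmA_mulVec he, FrmA_dot he, Qf_symm]

private theorem FrmA_comp {e : J → L} (he : IsFrame (⊤ : Submodule ℝ L) e) (T U : L →ₗ[ℝ] L) :
    mo e (T ∘ₗ U) = mo e T * mo e U := by
  ext x y
  have h1 := congrFun (FrmA_mulVec he T (U (e y))) x
  rw [co_apply] at h1
  change Qf L (T (U (e y))) (e x) = _
  rw [← h1, Matrix.mul_apply]
  rfl

private theorem FrmA_one {e : J → L} (he : IsFrame (⊤ : Submodule ℝ L) e) :
    mo e (LinearMap.id : L →ₗ[ℝ] L) = 1 := by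
  ext x y
  change Qf L (e y) (e x) = _
  rw [he.orth, Matrix.one_apply]
  exact if_congr eq_comm rfl rfl

omit [Fintype J] [DecidableEq J] in
private theorem FrmA_symm (e : J → L) {T : L →ₗ[ℝ] L} (hT : QSym T) : (mo e T).IsSymm := by
  ext x y
  change Qf L (T (e x)) (e y) = Qf L (T (e y)) (e x)
  rw [hT, Qf_symm]

private theorem FrmA_trace {e : J → L} (he : IsFrame (⊤ : Submodule ℝ L) e) (T : L →ₗ[ℝ] L) :
    LinearMap.trace ℝ L T = trace (mo e T) := he.trace_eq T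

private theorem FrmA_anti (e : J → L) (v : J → ℝ) : (lc (CF e) v)ᵀ = -(lc (CF e) v) := by
  unfold lc
  rw [Matrix.transpose_sum, ← Finset.sum_neg_distrib]
  refine Finset.sum_congr rfl fun a _ => ?_
  rw [Matrix.transpose_smul, (CF_sym e).anti, smul_neg]

private theorem FrmA_ad {e : J → L} (he : IsFrame (⊤ : Submodule ℝ L) e) (x : L) :
    mo e (LieAlgebra.ad ℝ L x : L →ₗ[ℝ] L) = (lc (CF e) (co e x))ᵀ := by
  ext z y
  rw [Matrix.transpose_apply, lc_CF]
  change Qf L ⁅x, e y⁆ (e z) = _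
  have h1 : ∑ i, co e x i • e i = x := (he.exp x Submodule.mem_top).symm
  rw [h1]

private theorem FrmA_TH2 {e : J → L} (he : IsFrame (⊤ : Submodule ℝ L) e) (T U : L →ₗ[ℝ] L)
    (x : L) : TH2 T U x x = co e x ⬝ᵥ (UU (CF e) (mo e T) (mo e U) *ᵥ co e x) := by
  rw [UU_quad]
  unfold TH2
  rw [FrmA_trace he, FrmA_comp he, FrmA_comp he, FrmA_comp he, FrmA_ad he]
  set M := lc (CF e) (co e x) with hM
  have h1 : Mᵀ = -M := FrmA_anti e _
  calc -trace (Mᵀ * (mo e T * (Mᵀ * mo e U))) = trace (M * (mo e T * (Mᵀ * mo e U))) := by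
        conv_lhs =>
          enter [1, 1, 1]
          rw [h1]
        rw [Matrix.neg_mul, Matrix.trace_neg, neg_neg]
    _ = trace (M * mo e T * Mᵀ * mo e U) := by
        simp only [Matrix.mul_assoc]
    _ = trace (mo e U * (M * mo e T * Mᵀ)) := Matrix.trace_mul_comm _ _

/-- the endomorphism with the matrix `α` -/
private noncomputable def FrmA_op (e : J → L) (α : Matrix J J ℝ) : L →ₗ[ℝ] L where
  toFun x := ∑ i, (α *ᵥ co e x) i • e i
  map_add' x y := by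
    rw [map_add, Matrix.mulVec_add, ← Finset.sum_add_distrib]
    refine Finset.sum_congr rfl fun i _ => ?_
    rw [Pi.add_apply, add_smul]
  map_smul' c x := by
    rw [map_smul, Matrix.mulVec_smul, RingHom.id_apply, Finset.smul_sum]
    refine Finset.sum_congr rfl fun i _ => ?_
    rw [Pi.smul_apply, smul_eq_mul, smul_smul]

private theorem FrmA_co_op {e : J → L} (he : IsFrame (⊤ : Submodule ℝ L) e)
    (α : Matrix J J ℝ) (x : L) : co e (FrmA_op e α x) = α *ᵥ co e x :=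
  co_comb he _

private theorem FrmA_co_e {e : J → L} (he : IsFrame (⊤ : Submodule ℝ L) e) (y : J) :
    co e (e y) = Pi.single y 1 := by
  funext i
  rw [co_apply, he.orth, Pi.single_apply]
  exact if_congr eq_comm rfl rfl

private theorem FrmA_mo_op {e : J → L} (he : IsFrame (⊤ : Submodule ℝ L) e)
    (α : Matrix J J ℝ) : mo e (FrmA_op e α) = α := by
  ext x y
  have h1 := congrFun (FrmA_co_op he α (e y)) x
  rw [FrmA_co_e he, Matrix.mulVec_single_one] at h1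
  exact h1

private theorem FrmA_inj {e : J → L} (he : IsFrame (⊤ : Submodule ℝ L) e) {x y : L}
    (h : co e x = co e y) : x = y := by
  rw [he.exp x Submodule.mem_top, he.exp y Submodule.mem_top]
  refine Finset.sum_congr rfl fun i _ => ?_
  congr 1
  exact congrFun h i

private theorem FrmA_op_symm {e : J → L} (he : IsFrame (⊤ : Submodule ℝ L) e)
    {α : Matrix J J ℝ} (hα : α.IsSymm) : QSym (FrmA_op e α) := by
  intro x y
  rw [← FrmA_dot he, ← FrmA_dot he, FrmA_co_op he, FrmA_co_op he, Matrix.dotProduct_mulVec,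
    ← Matrix.mulVec_transpose, hα.eq]

private theorem FrmA_op_comm {e : J → L} (he : IsFrame (⊤ : Submodule ℝ L) e)
    {α : Matrix J J ℝ} {P : L →ₗ[ℝ] L} (hα : α * mo e P = mo e P * α) (x : L) :
    FrmA_op e α (P x) = P (FrmA_op e α x) := by
  apply FrmA_inj he
  rw [FrmA_co_op he, ← FrmA_mulVec he, ← FrmA_mulVec he, FrmA_co_op he, Matrix.mulVec_mulVec,
    Matrix.mulVec_mulVec, hα]

private theorem FrmA_forall {e : J → L} (he : IsFrame (⊤ : Submodule ℝ L) e) {p : (J → ℝ) → Prop}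
    (h : ∀ x, p (co e x)) (v : J → ℝ) : p v := by
  have h1 := h (∑ i, v i • e i)
  rwa [co_comb he] at h1

private theorem FrmA_ext {A B : Matrix J J ℝ} (hA : A.IsSymm) (hB : B.IsSymm)
    (h : ∀ v, v ⬝ᵥ (A *ᵥ v) = v ⬝ᵥ (B *ᵥ v)) : A = B := by
  have h1 : (A - B).IsSymm := by
    unfold Matrix.IsSymm
    rw [Matrix.transpose_sub, hA.eq, hB.eq]
  have h2 : ‖A - B‖ ≤ 0 := by
    refine norm_le_of_quad h1 le_rfl fun v => ?_
    rw [Matrix.sub_mulVec, dotProduct_sub, h v, sub_self, abs_zero, zero_mul]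
  exact sub_eq_zero.1 (norm_le_zero_iff.1 h2)

omit [DecidableEq J] in
private theorem FrmA_conj_symm {A P : Matrix J J ℝ} (hA : A.IsSymm) (hP : P.IsSymm) :
    (P * A * P).IsSymm := by
  unfold Matrix.IsSymm
  rw [Matrix.transpose_mul, Matrix.transpose_mul, hA.eq, hP.eq, Matrix.mul_assoc]

omit [DecidableEq J] in
private theorem FrmA_conj_quad {A P : Matrix J J ℝ} (hP : P.IsSymm) (v : J → ℝ) :
    v ⬝ᵥ ((P * A * P) *ᵥ v) = (P *ᵥ v) ⬝ᵥ (A *ᵥ (P *ᵥ v)) := by
  rw [← Matrix.mulVec_mulVec, ← Matrix.mulVec_mulVec, Matrix.dotProduct_mulVec,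
    ← Matrix.mulVec_transpose, hP.eq]

private theorem FrmA_AA_symm {e : J → L} {S T β : Matrix J J ℝ} (hS : S.IsSymm) (hT : T.IsSymm)
    (hβ : β.IsSymm) : (AA (CF e) S T β).IsSymm := by
  have h1 := UU_symm (CF e) hT hβ
  have h2 := UU_symm (CF e) (FrmA_conj_symm hβ hT) hS
  unfold AA Matrix.IsSymm
  rw [Matrix.transpose_sub, h1.eq, h2.eq]

private theorem FrmA_AA_quad {e : J → L} (he : IsFrame (⊤ : Submodule ℝ L) e) (S T : L →ₗ[ℝ] L)
    (β : Matrix J J ℝ) (x : L) :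
    co e x ⬝ᵥ (AA (CF e) (mo e S) (mo e T) β *ᵥ co e x) =
      TH2 T (FrmA_op e β) x x - TH2 (T ∘ₗ FrmA_op e β ∘ₗ T) S x x := by
  rw [FrmA_TH2 he, FrmA_TH2 he, FrmA_comp he, FrmA_comp he, FrmA_mo_op he]
  unfold AA
  rw [Matrix.sub_mulVec, dotProduct_sub, Matrix.mul_assoc]

private theorem FrmA_norm {e : J → L} (he : IsFrame (⊤ : Submodule ℝ L) e) {A : Matrix J J ℝ}
    (hA : A.IsSymm) {s : ℝ} (hs : 0 ≤ s)
    (h : ∀ x, |co e x ⬝ᵥ (A *ᵥ co e x)| ≤ s * Qf L x x) : ‖A‖ ≤ s := by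
  refine norm_le_of_quad hA hs (FrmA_forall he fun x => ?_)
  rw [FrmA_dot he]
  exact h x

private theorem FrmA_beta_comm {M β : Matrix J J ℝ} (h1 : M * Mᵀ = 1) (h2 : M * β * Mᵀ = β) :
    β * M = M * β := by
  have h3 : Mᵀ * M = 1 := mul_eq_one_comm.1 h1
  calc β * M = M * β * Mᵀ * M := by rw [h2]
    _ = M * β * (Mᵀ * M) := by rw [Matrix.mul_assoc]
    _ = M * β := by rw [h3, Matrix.mul_one]

end Aux

private theorem FrmA_Ph {κ ι : Type*} [Fintype κ] [DecidableEq κ] [Fintype ι] [DecidableEq ι]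
    (A : Matrix (κ ⊕ ι) (κ ⊕ ι) ℝ) :
    trace ((A * Ph κ ι) * (A * Ph κ ι)ᵀ) = ∑ i : κ, ∑ z, A z (Sum.inl i) ^ 2 := by
  have h1 : ∀ z (i : κ), (A * Ph κ ι) z (Sum.inl i) = A z (Sum.inl i) := by
    intro z i
    rw [Matrix.mul_apply, Fintype.sum_sum_type]
    simp [Ph, Matrix.one_apply]
  have h2 : ∀ z (i : ι), (A * Ph κ ι) z (Sum.inr i) = 0 := by
    intro z i
    rw [Matrix.mul_apply, Fintype.sum_sum_type]
    simp [Ph]
  unfold trace
  have h3 : ∀ z, ((A * Ph κ ι) * (A * Ph κ ι)ᵀ).diag z = ∑ i : κ, A z (Sum.inl i) ^ 2 := by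
    intro z
    rw [Matrix.diag_apply, Matrix.mul_apply, Fintype.sum_sum_type]
    simp only [Matrix.transpose_apply, h1, h2, mul_zero, Finset.sum_const_zero, add_zero]
    exact Finset.sum_congr rfl fun i _ => (sq _).symm
  simp only [h3]
  rw [Finset.sum_comm]

private theorem FrmA_Eta {nf ne : ℕ} {f : Fin nf → L} {e : Fin ne → L}
    (F : IsFrame (⊤ : Submodule ℝ L) (Sum.elim f e)) (A : L →ₗ[ℝ] L) (x : L) :
    trace ((lc (CF (Sum.elim f e)) (co (Sum.elim f e) x) *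
      (mo (Sum.elim f e) A * Ph (Fin nf) (Fin ne))) *
      (lc (CF (Sum.elim f e)) (co (Sum.elim f e) x) *
      (mo (Sum.elim f e) A * Ph (Fin nf) (Fin ne)))ᵀ) =
      ∑ i, Qf L ⁅A (f i), x⁆ ⁅A (f i), x⁆ := by
  rw [← Matrix.mul_assoc, FrmA_Ph]
  refine Finset.sum_congr rfl fun i _ => ?_
  have h1 : ∀ z, (lc (CF (Sum.elim f e)) (co (Sum.elim f e) x) * mo (Sum.elim f e) A) z
      (Sum.inl i) = -Qf L ⁅x, A (f i)⁆ (Sum.elim f e z) := by
    intro z
    rw [Matrix.mul_apply]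
    have h2 : ∀ w, lc (CF (Sum.elim f e)) (co (Sum.elim f e) x) z w * mo (Sum.elim f e) A w
        (Sum.inl i) = Qf L ⁅x, Sum.elim f e z⁆ (Sum.elim f e w) *
          Qf L (A (f i)) (Sum.elim f e w) := by
      intro w
      rw [lc_CF]
      have h3 : ∑ j, co (Sum.elim f e) x j • Sum.elim f e j = x :=
        (F.exp x Submodule.mem_top).symm
      rw [h3]
      rfl
    rw [Finset.sum_congr rfl fun w _ => h2 w, ← F.parseval Submodule.mem_top, Qf_lie',
      Qf_symm]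
  simp only [h1]
  have h4 : ⁅A (f i), x⁆ = -⁅x, A (f i)⁆ := (lie_skew _ _).symm
  rw [h4]
  simp only [map_neg, LinearMap.neg_apply, neg_neg, neg_sq]
  rw [F.parseval (x := ⁅x, A (f i)⁆) Submodule.mem_top]
  exact Finset.sum_congr rfl fun z _ => sq _

private theorem FrmA_top (δ : L ≃ₗ⁅ℝ⁆ L) : EinS.Pres δ (⊤ : Submodule ℝ L) :=
  ⟨fun _ _ => Submodule.mem_top, fun _ _ => Submodule.mem_top⟩

private theorem FrmA_blocks {h : LieSubalgebra ℝ L} {nf ne : ℕ} {f : Fin nf → L} {e : Fin ne → L}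
    (hf : IsFrame h.toSubmodule f) (he : IsFrame (perp h.toSubmodule) e) {δ : L ≃ₗ⁅ℝ⁆ L}
    (hδ : h.map (δ : L →ₗ⁅ℝ⁆ L) = h) :
    mat δ (Sum.elim f e) = fromBlocks (mat δ f) 0 0 (mat δ e) := by
  have hp := pres_of_map hδ
  have hp' := hp.perp
  ext x y
  rcases x with i | i <;> rcases y with j | j
  · rfl
  · change Qf L (δ (e j)) (f i) = 0
    exact hp'.1 _ (he.mem j) _ (hf.mem i)
  · change Qf L (δ (f j)) (e i) = 0
    rw [Qf_symm]
    exact he.mem i _ (hp.1 _ (hf.mem j))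
  · rfl

private theorem FrmA_lin {J : Type*} [Fintype J] [DecidableEq J] {e : J → L}
    (he : IsFrame (⊤ : Submodule ℝ L) e) (F : L →ₗ[ℝ] L) (w y : L) :
    Qf L (F w) y = ∑ z, Qf L w (e z) * Qf L (F (e z)) y := by
  conv_lhs => rw [he.exp w Submodule.mem_top, map_sum]
  simp only [map_smul]
  exact Qf_sum (fun z => F (e z)) (fun z => Qf L w (e z)) y

private theorem FrmA_comm {J : Type*} [Fintype J] [DecidableEq J] {e : J → L}
    (he : IsFrame (⊤ : Submodule ℝ L) e) {F : L →ₗ[ℝ] L} {δ : L ≃ₗ⁅ℝ⁆ L}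
    (hF : ∀ x, F (δ x) = δ (F x)) : mat δ e * mo e F * (mat δ e)ᵀ = mo e F := by
  have h1 : mat δ e * mo e F = mo e F * mat δ e := by
    ext x y
    rw [Matrix.mul_apply, Matrix.mul_apply]
    have h2 : Qf L (δ (F (e y))) (e x) =
        ∑ z, Qf L (F (e y)) (e z) * Qf L (δ (e z)) (e x) :=
      FrmA_lin he (δ : L →ₗ[ℝ] L) (F (e y)) (e x)
    have h3 : Qf L (F (δ (e y))) (e x) =
        ∑ z, Qf L (δ (e y)) (e z) * Qf L (F (e z)) (e x) :=
      FrmA_lin he F (δ (e y)) (e x)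
    rw [hF, h2] at h3
    calc ∑ z, mat δ e x z * mo e F z y
        = ∑ z, Qf L (F (e y)) (e z) * Qf L (δ (e z)) (e x) := by
          refine Finset.sum_congr rfl fun z _ => ?_
          rw [mul_comm]
          rfl
      _ = ∑ z, Qf L (δ (e y)) (e z) * Qf L (F (e z)) (e x) := h3
      _ = ∑ z, mo e F x z * mat δ e z y := by
          refine Finset.sum_congr rfl fun z _ => ?_
          rw [mul_comm]
          rfl
  rw [h1, Matrix.mul_assoc, mat_orth he (FrmA_top δ), Matrix.mul_one]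

private theorem FrmA_Cls {J : Type*} [Fintype J] [DecidableEq J] {e : J → L}
    (he : IsFrame (⊤ : Submodule ℝ L) e) {Γ : Set (L ≃ₗ⁅ℝ⁆ L)} {β : Matrix J J ℝ}
    (hβ : β.IsSymm) (hc : ∀ M ∈ {M | ∃ γ ∈ Γ, M = mat γ e}, M * β * Mᵀ = β) :
    Cls Γ (FrmA_op e β) := by
  refine ⟨FrmA_op_symm he hβ, fun γ hγ x => ?_⟩
  have h1 := FrmA_beta_comm (mat_orth he (FrmA_top γ)) (hc (mat γ e) ⟨γ, hγ, rfl⟩)
  apply FrmA_inj he
  rw [FrmA_co_op he, co_equiv he (FrmA_top γ), co_equiv he (FrmA_top γ), FrmA_co_op he,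
    Matrix.mulVec_mulVec, Matrix.mulVec_mulVec, h1]

private theorem FrmA_Ph_inv {h : LieSubalgebra ℝ L} {nf ne : ℕ} {f : Fin nf → L}
    {e : Fin ne → L} (hf : IsFrame h.toSubmodule f) (he : IsFrame (perp h.toSubmodule) e)
    {δ : L ≃ₗ⁅ℝ⁆ L} (hδ : h.map (δ : L →ₗ⁅ℝ⁆ L) = h) :
    mat δ (Sum.elim f e) * Ph (Fin nf) (Fin ne) * (mat δ (Sum.elim f e))ᵀ =
      Ph (Fin nf) (Fin ne) := by
  rw [FrmA_blocks hf he hδ]
  unfold Ph
  rw [Matrix.fromBlocks_transpose, Matrix.fromBlocks_multiply, Matrix.fromBlocks_multiply]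
  simp only [Matrix.mul_zero, Matrix.zero_mul, add_zero, Matrix.transpose_zero, Matrix.mul_one]
  rw [mat_orth hf (pres_of_map hδ)]

theorem baseG_frame {h : LieSubalgebra ℝ L} {Γ : Set (L ≃ₗ⁅ℝ⁆ L)} {S T Pp D : L →ₗ[ℝ] L}
    {c τ lam eps : ℝ} (hB : LBaseG h Γ S T Pp D c τ lam eps) {nf ne : ℕ} {f : Fin nf → L}
    {e : Fin ne → L} (hf : IsFrame h.toSubmodule f) (he : IsFrame (perp h.toSubmodule) e) :
    BaseG (CF (Sum.elim f e)) {M | ∃ γ ∈ Γ, M = mat γ (Sum.elim f e)} (mo (Sum.elim f e) S)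
      (mo (Sum.elim f e) T) (mo (Sum.elim f e) Pp) (mo (Sum.elim f e) D) c τ lam eps := by
  have F : IsFrame (⊤ : Submodule ℝ L) (Sum.elim f e) := hf.full he
  obtain ⟨g, hg⟩ : ∃ g, g = Sum.elim f e := ⟨_, rfl⟩
  have Fg : IsFrame (⊤ : Submodule ℝ L) g := by rw [hg]; exact F
  have c0 : (0 : ℝ) ≤ c := by linarith [hB.c1]
  have sS := FrmA_symm g hB.symS
  have sT := FrmA_symm g hB.symT
  have sP := FrmA_symm g hB.symP
  have sD := FrmA_symm g hB.symD
  have hQ0 : ∀ x, 0 ≤ Qf L x x := by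
    intro x
    rw [← FrmA_dot Fg]
    exact dot_self_nonneg _
  have hE0 : 0 ≤ eps := hB.e0
  have hEta : ∀ A : L →ₗ[ℝ] L, (∀ x, ∑ i, Qf L ⁅A (f i), x⁆ ⁅A (f i), x⁆ ≤ τ ^ 2 * Qf L x x) →
      Eta (CF (Sum.elim f e)) (mo (Sum.elim f e) A * Ph (Fin nf) (Fin ne)) τ := by
    intro A hA
    refine ⟨hB.t0, FrmA_forall F fun x => ?_⟩
    rw [FrmA_Eta F, FrmA_dot F]
    exact hA x
  have het := hB.et nf f hf.mem hf.orth
  have comp_eq : ∀ A B D : L →ₗ[ℝ] L, (∀ x, A (B x) = D x) → mo g A * mo g B = mo g D := by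
    intro A B D hABD
    rw [← FrmA_comp Fg]
    congr 1
    exact LinearMap.ext hABD
  rw [← hg]
  refine
    { csym := CF_sym g
      one := UU_CF_one Fg
      symS := sS
      symT := sT
      symp := sP
      symD := sD
      ST := ?_
      c1 := hB.c1
      nS := ?_
      nT := ?_
      nD := ?_
      posS := ?_
      pp2 := comp_eq _ _ _ hB.pp2
      Spp := ?_
      Dpp := comp_eq _ _ _ hB.Dpp
      SD := ?_
      hpp := ?_
      eh := ?_
      eS := ?_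
      eT := ?_
      uts := ?_
      la := hB.la
      la' := hB.la'
      base := ?_
      inv := ?_
      cp := ?_
      z := ?_ }
  · rw [comp_eq _ _ LinearMap.id hB.ST, FrmA_one Fg]
  · refine FrmA_norm Fg sS c0 fun x => ?_
    rw [FrmA_quad Fg, abs_of_nonneg]
    · exact hB.hiS x
    · refine le_trans ?_ (hB.loS x)
      exact mul_nonneg (by positivity) (hQ0 x)
  · refine FrmA_norm Fg sT c0 fun x => ?_
    rw [FrmA_quad Fg, abs_of_nonneg (hB.loT x)]
    exact hB.hiT x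
  · refine FrmA_norm Fg sD c0 fun x => ?_
    rw [FrmA_quad Fg]
    exact hB.bdD x
  · refine FrmA_forall Fg fun x => ?_
    rw [FrmA_quad Fg, FrmA_dot Fg]
    exact hB.loS x
  · rw [← FrmA_comp Fg, ← FrmA_comp Fg]
    congr 1
    exact LinearMap.ext hB.Spp
  · rw [← FrmA_comp Fg, ← FrmA_comp Fg]
    congr 1
    exact LinearMap.ext hB.SD
  · ext z w
    rw [Matrix.mul_apply, Fintype.sum_sum_type, Matrix.zero_apply]
    rcases z with i | i
    · have h1 : ∀ j : Fin nf, mo g Pp (Sum.inl j) w = 0 := by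
        intro j
        change Qf L (Pp (g w)) (g (Sum.inl j)) = 0
        rw [hB.symP, hg]
        change Qf L (Sum.elim f e w) (Pp (f j)) = 0
        rw [hB.hpp _ (hf.mem j), map_zero]
      simp only [h1, mul_zero, Finset.sum_const_zero, zero_add]
      refine Finset.sum_eq_zero fun j _ => ?_
      simp [Ph]
    · simp [Ph]
  · have h1 := hEta LinearMap.id fun x => (het x).1
    rw [FrmA_one F, Matrix.one_mul] at h1
    rw [hg]
    exact h1
  · rw [hg]
    exact hEta S fun x => (het x).2.1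
  · rw [hg]
    exact hEta T fun x => (het x).2.2
  · refine FrmA_ext (UU_symm _ sT sS) ?_ (FrmA_forall Fg fun x => ?_)
    · unfold Matrix.IsSymm
      rw [Matrix.transpose_sub, Matrix.transpose_one, sD.eq]
    · rw [← FrmA_TH2 Fg, hB.uts, Matrix.sub_mulVec, Matrix.one_mulVec,
        dotProduct_sub, FrmA_quad Fg, FrmA_dot Fg]
  · have hSDS : mo g S * mo g D * mo g S = mo g (S ∘ₗ D ∘ₗ S) := by
      rw [FrmA_comp Fg, FrmA_comp Fg, Matrix.mul_assoc]
    refine FrmA_norm Fg ?_ hE0 fun x => ?_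
    · have h1 := UU_symm (CF g) sS sS
      have h2 := FrmA_conj_symm sD sS
      unfold Matrix.IsSymm
      rw [Matrix.transpose_sub, Matrix.transpose_add, Matrix.transpose_smul, Matrix.transpose_smul,
        Matrix.transpose_smul, h2.eq, h1.eq, sS.eq]
    · rw [hSDS, Matrix.sub_mulVec, Matrix.add_mulVec, Matrix.smul_mulVec, Matrix.smul_mulVec,
        Matrix.smul_mulVec, dotProduct_sub, dotProduct_add, dotProduct_smul, dotProduct_smul,
        dotProduct_smul, smul_eq_mul, smul_eq_mul, smul_eq_mul, ← FrmA_TH2 Fg, FrmA_quad Fg,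
        FrmA_quad Fg]
      exact hB.base x
  · rintro M ⟨γ, hγ, rfl⟩
    obtain ⟨h1, h2⟩ := hB.inv γ hγ
    refine ⟨CF_inv Fg (FrmA_top γ), FrmA_comm Fg h2, ?_⟩
    rw [hg]
    exact FrmA_Ph_inv hf he h1
  · intro β hβ hc
    have h1 := hB.cp _ (FrmA_Cls Fg hβ hc)
    calc β * mo g Pp = mo g (FrmA_op g β) * mo g Pp := by rw [FrmA_mo_op Fg]
      _ = mo g Pp * mo g (FrmA_op g β) := by
          rw [← FrmA_comp Fg, ← FrmA_comp Fg]
          congr 1
          exact LinearMap.ext h1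
      _ = mo g Pp * β := by rw [FrmA_mo_op Fg]
  · intro β hβ hc
    refine FrmA_ext (FrmA_AA_symm sS sT hβ) (FrmA_conj_symm (FrmA_AA_symm sS sT hβ) sP)
      (FrmA_forall Fg fun x => ?_)
    rw [FrmA_conj_quad sP, FrmA_mulVec Fg, FrmA_AA_quad Fg, FrmA_AA_quad Fg]
    exact hB.z _ (FrmA_Cls Fg hβ hc) x

section Gap

open scoped Matrix.Norms.L2Operator

private theorem FrmA_gap {Γ : Set (L ≃ₗ⁅ℝ⁆ L)} {S T D : L →ₗ[ℝ] L} {lam K : ℝ} (hS : QSym S)
    (hD : QSym D) (hSD : ∀ x, S (D x) = D (S x)) (hK : 0 ≤ K)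
    (hgap : GapLG Γ S T D lam K) {J : Type*} [Fintype J] [DecidableEq J] {e : J → L}
    (he : IsFrame (⊤ : Submodule ℝ L) e) :
    GapG (CF e) {M | ∃ γ ∈ Γ, M = mat γ e} (mo e S) (mo e T) (mo e D) lam K := by
  intro β hβ hc
  have sS := FrmA_symm e hS
  have sD := FrmA_symm e hD
  obtain ⟨s, hs⟩ : ∃ s, s = ‖ellG (CF e) (mo e S) (mo e T) (mo e D) lam β‖ := ⟨_, rfl⟩
  have hs0 : 0 ≤ s := by rw [hs]; exact norm_nonneg _
  rw [← hs]
  have hop : ∀ z, co e z ⬝ᵥ (β *ᵥ co e z) = Qf L (FrmA_op e β z) z := by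
    intro z
    rw [← FrmA_quad he, FrmA_mo_op he]
  have hW : (mo e S * mo e D).IsSymm := by
    unfold Matrix.IsSymm
    rw [Matrix.transpose_mul, sS.eq, sD.eq, ← FrmA_comp he, ← FrmA_comp he]
    congr 1
    exact LinearMap.ext fun x => (hSD x).symm
  have hq : ∀ z, co e z ⬝ᵥ ((β * (mo e S * mo e D) + mo e S * mo e D * β) *ᵥ co e z) =
      2 * Qf L (FrmA_op e β z) (S (D z)) := by
    intro z
    have hv : (mo e S * mo e D) *ᵥ co e z = co e (S (D z)) := by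
      rw [← FrmA_comp he, FrmA_mulVec he]
      rfl
    rw [Matrix.add_mulVec, dotProduct_add]
    have a1 : co e z ⬝ᵥ ((β * (mo e S * mo e D)) *ᵥ co e z) =
        Qf L (FrmA_op e β z) (S (D z)) := by
      rw [← Matrix.mulVec_mulVec, Matrix.dotProduct_mulVec, ← Matrix.mulVec_transpose, hβ.eq,
        hv, ← FrmA_co_op he, FrmA_dot he]
    have a2 : co e z ⬝ᵥ ((mo e S * mo e D * β) *ᵥ co e z) =
        Qf L (FrmA_op e β z) (S (D z)) := by
      rw [← Matrix.mulVec_mulVec, Matrix.dotProduct_mulVec, ← Matrix.mulVec_transpose, hW.eq,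
        hv, ← FrmA_co_op he, FrmA_dot he, Qf_symm]
    rw [a1, a2]
    ring
  have h1 : ∀ z, |ellQG S T D lam (FrmA_op e β) z| ≤ s * Qf L z z := by
    intro z
    have h2 := quad_le_norm (ellG (CF e) (mo e S) (mo e T) (mo e D) lam β) (co e z)
    rw [← hs, FrmA_dot he] at h2
    refine le_trans (le_of_eq ?_) h2
    congr 1
    unfold ellG ellQG
    rw [Matrix.sub_mulVec, Matrix.add_mulVec, Matrix.sub_mulVec, Matrix.smul_mulVec,
      Matrix.smul_mulVec, Matrix.smul_mulVec, Matrix.smul_mulVec, dotProduct_sub, dotProduct_add,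
      dotProduct_sub, dotProduct_smul, dotProduct_smul, dotProduct_smul, dotProduct_smul,
      smul_eq_mul, smul_eq_mul, smul_eq_mul, smul_eq_mul, hq, FrmA_conj_quad sS,
      FrmA_mulVec he, FrmA_AA_quad he, FrmA_TH2 he S, FrmA_mo_op he, hop z]
    ring
  have h2 := hgap (FrmA_op e β) (FrmA_Cls he hβ hc) s h1
  refine FrmA_norm he hβ (mul_nonneg hK hs0) fun x => ?_
  have h3 := h2 x
  rw [← FrmA_quad he, FrmA_mo_op he] at h3
  exact h3

end Gap

theorem gapG_frame {Γ : Set (L ≃ₗ⁅ℝ⁆ L)} {S T D : L →ₗ[ℝ] L} {lam K : ℝ} (hS : QSym S)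
    (hT : QSym T) (hD : QSym D) (hSD : ∀ x, S (D x) = D (S x)) (hK : 0 ≤ K)
    (hgap : GapLG Γ S T D lam K) {J : Type*} [Fintype J] [DecidableEq J] {e : J → L}
    (he : IsFrame (⊤ : Submodule ℝ L) e) :
    GapG (CF e) {M | ∃ γ ∈ Γ, M = mat γ e} (mo e S) (mo e T) (mo e D) lam K := by
  exact FrmA_gap hS hD hSD hK hgap he

end Pool.Agent.EinG
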