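import Pool.Agent.EinG.Abs
import Pool.Agent.EinG.FrmA

/-!
# The perturbation theorem on the Lie algebra

As in `EinU/FrmU.lean` (copy its private lemmas and the construction of the metric).  `baseG_frame`, `gapG_frame` feed `abs_g` with
`Γ' = {mat δ e | h.map δ = h, S δ = δ S}`; `T δ = δ T` follows from `S (T x) = x`, `T (S x) = x`; `mat δ ê = fromBlocks (mat δ f) 0 0 (mat δ e)`
(`FrmU_blocks`), which also gives `hcl` (`hB.inv`).
-/

namespace Pool.Agent.EinG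

open Matrix Pool.Agent.EStab Pool.Agent.EinS Pool.Agent.SmIso Pool.Agent.EinU

variable {L : Type*} [LieRing L] [LieAlgebra ℝ L]

private theorem FrmG_top (δ : L ≃ₗ⁅ℝ⁆ L) : EinS.Pres δ (⊤ : Submodule ℝ L) :=
  ⟨fun _ _ => Submodule.mem_top, fun _ _ => Submodule.mem_top⟩

private theorem FrmG_blocks {h : LieSubalgebra ℝ L} {nf ne : ℕ} {f : Fin nf → L} {e : Fin ne → L}
    (hf : IsFrame h.toSubmodule f) (he : IsFrame (perp h.toSubmodule) e) {δ : L ≃ₗ⁅ℝ⁆ L}
    (hδ : h.map (δ : L →ₗ⁅ℝ⁆ L) = h) :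
    mat δ (Sum.elim f e) = fromBlocks (mat δ f) 0 0 (mat δ e) := by
  have hp := pres_of_map hδ
  have hp' := hp.perp
  ext x y
  rcases x with i | i <;> rcases y with j | j
  · rfl
  · change Qf L (δ (e j)) (f i) = 0
    exact hp'.1 _ (he.mem j) _ (hf.mem i)
  · change Qf L (δ (f j)) (e i) = 0
    rw [Qf_symm]
    exact he.mem i _ (hp.1 _ (hf.mem j))
  · rfl

private theorem FrmG_lin {J : Type*} [Fintype J] [DecidableEq J] {e : J → L}
    (he : IsFrame (⊤ : Submodule ℝ L) e) (F : L →ₗ[ℝ] L) (w y : L) :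
    Qf L (F w) y = ∑ z, Qf L w (e z) * Qf L (F (e z)) y := by
  conv_lhs => rw [he.exp w Submodule.mem_top, map_sum]
  simp only [map_smul]
  exact Qf_sum (fun z => F (e z)) (fun z => Qf L w (e z)) y

private theorem FrmG_comm {J : Type*} [Fintype J] [DecidableEq J] {e : J → L}
    (he : IsFrame (⊤ : Submodule ℝ L) e) {F : L →ₗ[ℝ] L} {δ : L ≃ₗ⁅ℝ⁆ L}
    (hF : ∀ x, F (δ x) = δ (F x)) : mat δ e * mo e F * (mat δ e)ᵀ = mo e F := by
  have h1 : mat δ e * mo e F = mo e F * mat δ e := by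
    ext x y
    rw [Matrix.mul_apply, Matrix.mul_apply]
    have h2 : Qf L (δ (F (e y))) (e x) =
        ∑ z, Qf L (F (e y)) (e z) * Qf L (δ (e z)) (e x) :=
      FrmG_lin he (δ : L →ₗ[ℝ] L) (F (e y)) (e x)
    have h3 : Qf L (F (δ (e y))) (e x) =
        ∑ z, Qf L (δ (e y)) (e z) * Qf L (F (e z)) (e x) :=
      FrmG_lin he F (δ (e y)) (e x)
    rw [hF, h2] at h3
    calc ∑ z, mat δ e x z * mo e F z y
        = ∑ z, Qf L (F (e y)) (e z) * Qf L (δ (e z)) (e x) := by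
          refine Finset.sum_congr rfl fun z _ => ?_
          rw [mul_comm]
          rfl
      _ = ∑ z, Qf L (δ (e y)) (e z) * Qf L (F (e z)) (e x) := h3
      _ = ∑ z, mo e F x z * mat δ e z y := by
          refine Finset.sum_congr rfl fun z _ => ?_
          rw [mul_comm]
          rfl
  rw [h1, Matrix.mul_assoc, mat_orth he (FrmG_top δ), Matrix.mul_one]

theorem perturb_einsteinG [Module.Finite ℝ L] (hg : CompactSemisimple L) {h : LieSubalgebra ℝ L}
    {Γ : Set (L ≃ₗ⁅ℝ⁆ L)} {S T Pp D : L →ₗ[ℝ] L} {c τ lam eps K : ℝ}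
    (hB : LBaseG h Γ S T Pp D c τ lam eps) (hK : 1 ≤ K) (hgap : GapLG Γ S T D lam K)
    (hτ : 500 * K * c ^ 10 * τ ≤ 1) (heps : 5000 * K ^ 2 * c ^ 10 * eps ≤ 1) :
    HasEinsteinMetric L h.toSubmodule (autsG h S) := by
  classical
  obtain ⟨nf, f, hf⟩ := exists_frame hg h.toSubmodule
  obtain ⟨ne, e, he⟩ := exists_frame hg (perp h.toSubmodule)
  have hê := hf.full he
  have hB' := baseG_frame hB hf he
  have hgap' := gapG_frame hB.symS hB.symT hB.symD hB.SD (by linarith) hgap hê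
  have hT : ∀ γ : L ≃ₗ⁅ℝ⁆ L, (∀ x, S (γ x) = γ (S x)) → ∀ x, T (γ x) = γ (T x) := by
    intro γ hS x
    have h1 : T (γ (S (T x))) = T (S (γ (T x))) := by rw [hS]
    rw [hB.ST, hB.TS] at h1
    exact h1
  set Γ' : Set (Matrix (Fin ne) (Fin ne) ℝ) :=
    {M | ∃ γ : L ≃ₗ⁅ℝ⁆ L, h.map (γ : L →ₗ⁅ℝ⁆ L) = h ∧ (∀ x, S (γ x) = γ (S x)) ∧
      M = mat γ e} with hΓ
  have hΓ' : ∀ κ' ∈ Γ', ∃ M₁ : Matrix (Fin nf) (Fin nf) ℝ,
      CInv (CF (Sum.elim f e)) (fromBlocks M₁ 0 0 κ') ∧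
      fromBlocks M₁ 0 0 κ' * mo (Sum.elim f e) S * (fromBlocks M₁ 0 0 κ')ᵀ =
        mo (Sum.elim f e) S ∧
      fromBlocks M₁ 0 0 κ' * mo (Sum.elim f e) T * (fromBlocks M₁ 0 0 κ')ᵀ =
        mo (Sum.elim f e) T := by
    rintro κ' ⟨γ, hγ, hS, rfl⟩
    refine ⟨mat γ f, ?_⟩
    rw [← FrmG_blocks hf he hγ]
    exact ⟨CF_inv hê (FrmG_top γ), FrmG_comm hê hS, FrmG_comm hê (hT γ hS)⟩
  have hcl : ∀ M ∈ {M | ∃ γ ∈ Γ, M = mat γ (Sum.elim f e)},
      ∃ M₁ : Matrix (Fin nf) (Fin nf) ℝ, ∃ κ' ∈ Γ', M = fromBlocks M₁ 0 0 κ' := by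
    rintro M ⟨γ, hγ, rfl⟩
    obtain ⟨h1, h2⟩ := hB.inv γ hγ
    exact ⟨mat γ f, mat γ e, ⟨γ, h1, h2, rfl⟩, FrmG_blocks hf he h1⟩
  obtain ⟨G, hGs, hG0, hGΓ, hGd, hRic⟩ := abs_g hB' hK hgap' hΓ' hcl hτ heps
  have hCm : Cm (CF (Sum.elim f e)) = CF e := rfl
  rw [hCm] at hRic
  have hc : 0 < c := by linarith [hB.c1]
  have hG0' : ∀ x, 0 ≤ x ⬝ᵥ (G *ᵥ x) := fun x => by
    have h3 := hG0 x
    have h4 := dot_self_nonneg x
    have h5 : 0 ≤ 1 / (2 * c) * (x ⬝ᵥ x) := by positivity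
    linarith
  have hGG : G * G⁻¹ = 1 := Matrix.mul_nonsing_inv _ hGd
  obtain ⟨E, hE⟩ := exists_orthonormal hGs hG0' hGd.ne_zero
  have hEd : E.det ≠ 0 := by
    intro h0
    have h1 := congrArg Matrix.det hE
    rw [Matrix.det_mul, h0, mul_zero, Matrix.det_one] at h1
    exact one_ne_zero h1.symm
  have hEE : E * E⁻¹ = 1 := Matrix.mul_nonsing_inv _ (isUnit_iff_ne_zero.2 hEd)
  set W := h.toSubmodule with hW
  refine ⟨perp W, prj e, bet e G, ne, fun i => XE e E i, lam,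
    ?_, ?_, ?_, ?_, ?_, ?_, ?_, ?_, ?_, ?_, ?_⟩
  · -- complement
    constructor
    · rw [Submodule.disjoint_def]
      intro x hx hx'
      exact Qf_eq_zero hg (hx' x hx)
    · rw [codisjoint_iff, eq_top_iff]
      intro x _
      have h3 : x = (∑ i, Qf L x (f i) • f i) + (x - ∑ i, Qf L x (f i) • f i) := by abel
      rw [h3]
      exact Submodule.add_mem_sup (frame_mem hf _) (hf.sub_mem_perp x)
  · intro y hy
    rw [prj_apply]
    refine Finset.sum_eq_zero fun x _ => ?_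
    rw [Qf_symm, he.mem x y hy, zero_smul]
  · intro x hx
    exact (he.exp x hx).symm
  · intro y hy x hx z hz
    rw [Qf_lie', hx _ (h.lie_mem hy hz), neg_zero]
  · rintro γ ⟨δ', h3, -, hγ⟩ x hx
    rw [hγ]
    exact (pres_of_map h3).perp.1 x hx
  · rintro γ ⟨δ', h3, hS, hγ⟩ x hx y hy
    have hWp : EinS.Pres δ' (perp W) := (pres_of_map h3).perp
    rw [hγ, hγ, bet_apply, bet_apply, co_equiv he hWp, co_equiv he hWp]
    have hM := mat_orth he hWp
    have hM' : (mat δ' e)ᵀ * mat δ' e = 1 := mul_eq_one_comm.1 hM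
    have hMG : mat δ' e * G * (mat δ' e)ᵀ = G := hGΓ _ ⟨δ', h3, hS, rfl⟩
    have hMG' : (mat δ' e)ᵀ * (G * mat δ' e) = G := by
      calc (mat δ' e)ᵀ * (G * mat δ' e)
          = (mat δ' e)ᵀ * (mat δ' e * G * (mat δ' e)ᵀ * mat δ' e) := by rw [hMG]
        _ = ((mat δ' e)ᵀ * mat δ' e) * G * ((mat δ' e)ᵀ * mat δ' e) := by
            simp only [Matrix.mul_assoc]
        _ = G := by rw [hM', Matrix.one_mul, Matrix.mul_one]
    have h5 : ∀ c d : Fin ne → ℝ, (mat δ' e *ᵥ c) ⬝ᵥ (G *ᵥ (mat δ' e *ᵥ d)) =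
        c ⬝ᵥ (G *ᵥ d) := by
      intro c d
      rw [Matrix.mulVec_mulVec]
      have h6 : (mat δ' e *ᵥ c) ⬝ᵥ ((G * mat δ' e) *ᵥ d) =
          c ⬝ᵥ ((mat δ' e)ᵀ *ᵥ ((G * mat δ' e) *ᵥ d)) := by
        rw [Matrix.dotProduct_mulVec c, ← Matrix.mulVec_transpose, Matrix.transpose_transpose]
      rw [h6, Matrix.mulVec_mulVec, hMG']
    exact h5 _ _
  · intro x y
    exact bet_symm e hGs x y
  · apply le_antisymm
    · rw [Submodule.span_le]
      rintro x ⟨i, rfl⟩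
      exact Submodule.sum_mem _ fun y _ => Submodule.smul_mem _ _ (he.mem y)
    · intro x hx
      rw [he.exp x hx]
      refine Submodule.sum_mem _ fun y _ => Submodule.smul_mem _ _ ?_
      have h1 : e y = ∑ i, E⁻¹ i y • XE e E i := by
        have h2 : ∀ i, XE e E i = ∑ z, E z i • e z := fun i => rfl
        simp only [h2, Finset.smul_sum, smul_smul]
        rw [Finset.sum_comm]
        have h3 : ∀ z, ∑ i, (E⁻¹ i y * E z i) • e z = (E * E⁻¹) z y • e z := by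
          intro z
          rw [← Finset.sum_smul, Matrix.mul_apply]
          congr 1
          refine Finset.sum_congr rfl fun i _ => ?_
          rw [mul_comm]
        simp only [h3, hEE, Matrix.one_apply, ite_smul, one_smul, zero_smul]
        simp
      rw [h1]
      refine Submodule.sum_mem _ fun i _ => Submodule.smul_mem _ _ (Submodule.subset_span ?_)
      exact ⟨i, rfl⟩
  · intro i j
    have hX : ∀ i, co e (XE e E i) = fun z => E z i := fun i => co_comb he fun z => E z i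
    have h1 : ∀ i j, bet e G (XE e E i) (XE e E j) = (Eᵀ * G * E) i j := by
      intro i j
      rw [bet_apply, hX, hX, Matrix.mul_assoc, Matrix.mul_apply]
      unfold dotProduct
      refine Finset.sum_congr rfl fun z _ => ?_
      rw [Matrix.transpose_apply, Matrix.mul_apply]
      rfl
    rw [h1, hE, Matrix.one_apply]
  · exact hB.la
  · intro x hx
    have h7 := ricci_eval (Equiv.refl (Fin ne)) he hE hGs hGG hx
    simp only [Equiv.refl_apply] at h7
    rw [h7, hRic, Matrix.smul_mulVec, dotProduct_smul, smul_eq_mul, bet_apply]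

end Pool.Agent.EinG
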