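import Pool.Agent.EinG.Base

/-!
# The inverse metric on the complement

As in `EinU/GHat.lean`, for `BaseG`.
-/

namespace Pool.Agent.EinG

open Matrix Pool.Agent.EStab Pool.Agent.EinS Pool.Agent.SmIso Pool.Agent.EinU
open scoped Matrix.Norms.L2Operator

variable {κ ι : Type*} [Fintype κ] [DecidableEq κ] [Fintype ι] [DecidableEq ι]
  {C : κ ⊕ ι → Matrix (κ ⊕ ι) (κ ⊕ ι) ℝ} {Γ : Set (Matrix (κ ⊕ ι) (κ ⊕ ι) ℝ)}
  {S T pp D : Matrix (κ ⊕ ι) (κ ⊕ ι) ℝ} {c τ lam eps : ℝ}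

private theorem GHatG_blk_quad (α : Matrix ι ι ℝ) (x : κ ⊕ ι → ℝ) :
    x ⬝ᵥ (blk κ α *ᵥ x) = (x ∘ Sum.inr) ⬝ᵥ (α *ᵥ (x ∘ Sum.inr)) := by
  unfold blk
  rw [fromBlocks_mulVec, dotProduct_block]
  have h1 : (Sum.elim ((0 : Matrix κ κ ℝ) *ᵥ (x ∘ Sum.inl) + (0 : Matrix κ ι ℝ) *ᵥ (x ∘ Sum.inr))
      ((0 : Matrix ι κ ℝ) *ᵥ (x ∘ Sum.inl) + α *ᵥ (x ∘ Sum.inr))) ∘ Sum.inl = 0 := by
    funext i
    simp
  have h2 : (Sum.elim ((0 : Matrix κ κ ℝ) *ᵥ (x ∘ Sum.inl) + (0 : Matrix κ ι ℝ) *ᵥ (x ∘ Sum.inr))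
      ((0 : Matrix ι κ ℝ) *ᵥ (x ∘ Sum.inl) + α *ᵥ (x ∘ Sum.inr))) ∘ Sum.inr =
      α *ᵥ (x ∘ Sum.inr) := by
    funext i
    simp
  rw [h1, h2, dotProduct_zero, zero_add]

private theorem GHatG_inr_le (x : κ ⊕ ι → ℝ) : (x ∘ Sum.inr) ⬝ᵥ (x ∘ Sum.inr) ≤ x ⬝ᵥ x := by
  rw [dotProduct_block x x]
  have := dot_self_nonneg (x ∘ Sum.inl)
  linarith

private theorem GHatG_inl_le (x : κ ⊕ ι → ℝ) : (x ∘ Sum.inl) ⬝ᵥ (x ∘ Sum.inl) ≤ x ⬝ᵥ x := by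
  rw [dotProduct_block x x]
  have := dot_self_nonneg (x ∘ Sum.inr)
  linarith

private theorem GHatG_blk_symm {α : Matrix ι ι ℝ} (hα : α.IsSymm) : (blk κ α).IsSymm := by
  unfold blk Matrix.IsSymm
  rw [fromBlocks_transpose, hα.eq, transpose_zero, transpose_zero, transpose_zero]

private theorem GHatG_ext (A : Matrix (κ ⊕ ι) (κ ⊕ ι) ℝ) (v : ι → ℝ) :
    (Sum.elim (0 : κ → ℝ) v) ⬝ᵥ (A *ᵥ (Sum.elim 0 v)) = v ⬝ᵥ (A.toBlocks₂₂ *ᵥ v) := by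
  conv_lhs => rw [← fromBlocks_toBlocks A]
  rw [fromBlocks_mulVec, dotProduct_block]
  simp only [Sum.elim_comp_inl, Sum.elim_comp_inr, mulVec_zero, zero_add, zero_dotProduct]

private theorem GHatG_ext_self (v : ι → ℝ) :
    (Sum.elim (0 : κ → ℝ) v) ⬝ᵥ (Sum.elim (0 : κ → ℝ) v) = v ⬝ᵥ v := by
  rw [dotProduct_block]
  simp only [Sum.elim_comp_inl, Sum.elim_comp_inr, zero_dotProduct, zero_add]

private theorem GHatG_symm22 {A : Matrix (κ ⊕ ι) (κ ⊕ ι) ℝ} (hA : A.IsSymm) :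
    A.toBlocks₂₂.IsSymm := by
  ext i j
  exact congrFun (congrFun hA.eq (Sum.inr i)) (Sum.inr j)

private theorem GHatG_symm_dot {A : Matrix ι ι ℝ} (hA : A.IsSymm) (x y : ι → ℝ) :
    x ⬝ᵥ (A *ᵥ y) = (A *ᵥ x) ⬝ᵥ y := by
  rw [dotProduct_mulVec, ← mulVec_transpose, hA.eq]

/-- the abstract form of `ghat_inv` -/
private theorem GHatG_inv_aux {P : Matrix ι ι ℝ} (hP : P.IsSymm) {d : ℝ} (hd : 0 < d)
    (hlo : ∀ v, 1 / d * (v ⬝ᵥ v) ≤ v ⬝ᵥ (P *ᵥ v)) (hhi : ‖P‖ ≤ d) :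
    IsUnit P.det ∧ (P⁻¹).IsSymm ∧ ‖P⁻¹‖ ≤ d ∧
      ∀ v, 1 / d * (v ⬝ᵥ v) ≤ v ⬝ᵥ (P⁻¹ *ᵥ v) := by
  have hdet : P.det ≠ 0 := by
    intro h0
    obtain ⟨v, hv, h⟩ := exists_mulVec_eq_zero_iff.mpr h0
    have h1 := hlo v
    rw [h, dotProduct_zero] at h1
    have h2 : v ⬝ᵥ v ≤ 0 := by
      have h3 : 0 < 1 / d := by positivity
      nlinarith
    exact hv (dotProduct_self_eq_zero.mp (le_antisymm h2 (dot_self_nonneg v)))
  have hu : IsUnit P.det := isUnit_iff_ne_zero.mpr hdet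
  have hsym : (P⁻¹).IsSymm := by
    unfold Matrix.IsSymm
    rw [transpose_nonsing_inv, hP.eq]
  have hPG : ∀ v, P *ᵥ (P⁻¹ *ᵥ v) = v := by
    intro v
    rw [mulVec_mulVec, mul_nonsing_inv P hu, one_mulVec]
  refine ⟨hu, hsym, ?_, ?_⟩
  · refine norm_le_of_quad hsym hd.le fun x => ?_
    set y := P⁻¹ *ᵥ x with hy
    have hx : P *ᵥ y = x := hPG x
    have h1 := hlo y
    rw [hx] at h1
    have h0 : 0 ≤ y ⬝ᵥ x := le_trans (mul_nonneg (by positivity) (dot_self_nonneg y)) h1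
    have hyx : x ⬝ᵥ y = y ⬝ᵥ x := dotProduct_comm _ _
    rw [hyx, abs_of_nonneg h0]
    have h2 : y ⬝ᵥ y ≤ d * (y ⬝ᵥ x) := by
      have h4 := mul_le_mul_of_nonneg_left h1 hd.le
      have h5 : d * (1 / d * (y ⬝ᵥ y)) = y ⬝ᵥ y := by
        field_simp
      linarith
    have h3 := dot_self_nonneg (y - d • x)
    simp only [sub_dotProduct, dotProduct_sub, smul_dotProduct, dotProduct_smul, smul_eq_mul,
      hyx] at h3
    nlinarith
  · intro v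
    set y := P⁻¹ *ᵥ v with hy
    have hv : P *ᵥ y = v := hPG v
    have hvy : v ⬝ᵥ y = y ⬝ᵥ v := dotProduct_comm _ _
    set t : ℝ := 1 / d with ht
    have h1 := hlo (y - t • v)
    have h2 : 0 ≤ (y - t • v) ⬝ᵥ (P *ᵥ (y - t • v)) :=
      le_trans (mul_nonneg (by positivity) (dot_self_nonneg _)) h1
    have hyPv : y ⬝ᵥ (P *ᵥ v) = v ⬝ᵥ v := by
      rw [GHatG_symm_dot hP, hv]
    simp only [mulVec_sub, mulVec_smul, sub_dotProduct, dotProduct_sub, smul_dotProduct,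
      dotProduct_smul, smul_eq_mul, hv, hyPv] at h2
    have h3 := (abs_le.1 (quad_le_norm P v)).2
    have h4 : v ⬝ᵥ (P *ᵥ v) ≤ d * (v ⬝ᵥ v) :=
      h3.trans (mul_le_mul_of_nonneg_right hhi (dot_self_nonneg v))
    have htd : t * d = 1 := by
      rw [ht]
      field_simp
    have ht0 : 0 < t := by positivity
    have h5 : t * (t * (v ⬝ᵥ (P *ᵥ v))) ≤ t * (v ⬝ᵥ v) := by
      calc t * (t * (v ⬝ᵥ (P *ᵥ v))) ≤ t * (t * (d * (v ⬝ᵥ v))) := by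
            apply mul_le_mul_of_nonneg_left _ ht0.le
            exact mul_le_mul_of_nonneg_left h4 ht0.le
        _ = t * ((t * d) * (v ⬝ᵥ v)) := by ring
        _ = t * (v ⬝ᵥ v) := by rw [htd, one_mul]
    rw [hvy]
    nlinarith

private theorem GHatG_P (hB : BaseG C Γ S T pp D c τ lam eps) {α : Matrix ι ι ℝ} (hα : α.IsSymm)
    (hαr : ‖α‖ ≤ 1 / (2 * c)) :
    (S.toBlocks₂₂ + α).IsSymm ∧ (∀ v, 1 / (2 * c) * (v ⬝ᵥ v) ≤ v ⬝ᵥ ((S.toBlocks₂₂ + α) *ᵥ v)) ∧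
      ‖S.toBlocks₂₂ + α‖ ≤ 2 * c := by
  have hc := hB.c1
  have hc0 : 0 < c := by linarith
  have hS22 : S.toBlocks₂₂.IsSymm := GHatG_symm22 hB.symS
  refine ⟨?_, ?_, ?_⟩
  · unfold Matrix.IsSymm
    rw [transpose_add, hS22.eq, hα.eq]
  · intro v
    rw [add_mulVec, dotProduct_add]
    have h1 := hB.posS (Sum.elim 0 v)
    rw [GHatG_ext, GHatG_ext_self] at h1
    have h2 := (abs_le.1 (quad_le_norm α v)).1
    have h3 : ‖α‖ * (v ⬝ᵥ v) ≤ 1 / (2 * c) * (v ⬝ᵥ v) :=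
      mul_le_mul_of_nonneg_right hαr (dot_self_nonneg v)
    have h4 : 1 / c * (v ⬝ᵥ v) = 2 * (1 / (2 * c) * (v ⬝ᵥ v)) := by
      field_simp
    linarith
  · have h1 : ‖S.toBlocks₂₂‖ ≤ c := (norm_blocks_le hB.symS).trans hB.nS
    have h2 : 1 / (2 * c) ≤ 1 / 2 := by
      apply one_div_le_one_div_of_le (by norm_num)
      linarith
    calc ‖S.toBlocks₂₂ + α‖ ≤ ‖S.toBlocks₂₂‖ + ‖α‖ := norm_add_le _ _
      _ ≤ 2 * c := by linarith

theorem ghatG_inv (hB : BaseG C Γ S T pp D c τ lam eps) {α : Matrix ι ι ℝ} (hα : α.IsSymm)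
    (hαr : ‖α‖ ≤ 1 / (2 * c)) :
    IsUnit (S.toBlocks₂₂ + α).det ∧ (S.toBlocks₂₂ + α)⁻¹.IsSymm ∧
      ‖(S.toBlocks₂₂ + α)⁻¹‖ ≤ 2 * c ∧
      ∀ v, 1 / (2 * c) * (v ⬝ᵥ v) ≤ v ⬝ᵥ ((S.toBlocks₂₂ + α)⁻¹ *ᵥ v) := by
  have hc := hB.c1
  obtain ⟨h1, h2, h3⟩ := GHatG_P hB hα hαr
  exact GHatG_inv_aux h1 (by linarith) h2 h3

private theorem GHatG_blk_mul (A B : Matrix ι ι ℝ) : blk κ A * blk κ B = blk κ (A * B) := by
  unfold blk
  rw [fromBlocks_multiply]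
  simp

private theorem GHatG_blk_add (A B : Matrix ι ι ℝ) : blk κ (A + B) = blk κ A + blk κ B := by
  unfold blk
  rw [fromBlocks_add]
  simp

private theorem GHatG_one : (1 : Matrix (κ ⊕ ι) (κ ⊕ ι) ℝ) = Ph κ ι + blk κ 1 := by
  unfold Ph blk
  rw [fromBlocks_add, ← fromBlocks_one]
  simp

private theorem GHatG_blk_Ph (A : Matrix ι ι ℝ) : blk κ A * Ph κ ι = 0 := by
  unfold blk Ph
  rw [fromBlocks_multiply]
  simp

private theorem GHatG_Ph_blk (A : Matrix ι ι ℝ) : Ph κ ι * blk κ A = 0 := by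
  unfold blk Ph
  rw [fromBlocks_multiply]
  simp

private theorem GHatG_Ph_Ph : Ph κ ι * Ph κ ι = (Ph κ ι : Matrix (κ ⊕ ι) (κ ⊕ ι) ℝ) := by
  unfold Ph
  rw [fromBlocks_multiply]
  simp

private theorem GHatG_PSP (S : Matrix (κ ⊕ ι) (κ ⊕ ι) ℝ) :
    blk κ 1 * S * blk κ 1 = blk κ S.toBlocks₂₂ := by
  conv_lhs => rw [← fromBlocks_toBlocks S]
  unfold blk
  rw [fromBlocks_multiply, fromBlocks_multiply]
  simp

private theorem GHatG_Ph_symm : (Ph κ ι : Matrix (κ ⊕ ι) (κ ⊕ ι) ℝ)ᵀ = Ph κ ι := by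
  unfold Ph
  rw [fromBlocks_transpose, transpose_one, transpose_zero, transpose_zero, transpose_zero]

/-- the algebra behind `ghat_err` -/
private theorem GHatG_I1 {S T : Matrix (κ ⊕ ι) (κ ⊕ ι) ℝ} (hTS : T * S = 1) {α G : Matrix ι ι ℝ}
    (hG : (S.toBlocks₂₂ + α) * G = 1) :
    blk κ G - T + T * blk κ α * T =
      ((T - T * blk κ α * T) * Ph κ ι) * (S * blk κ G - 1) +
        T * blk κ α * T * blk κ α * blk κ G := by
  set Q : Matrix (κ ⊕ ι) (κ ⊕ ι) ℝ := blk κ 1 with hQ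
  set a := blk κ α with ha
  set g := blk κ G with hg
  set Hh : Matrix (κ ⊕ ι) (κ ⊕ ι) ℝ := Ph κ ι with hPh
  set X := T - T * a * T with hX
  have h1 : (1 : Matrix (κ ⊕ ι) (κ ⊕ ι) ℝ) = Hh + Q := GHatG_one
  have hQg : Q * g = g := by
    rw [hQ, hg, GHatG_blk_mul, one_mul]
  have haQ : a * Q = a := by
    rw [hQ, ha, GHatG_blk_mul, mul_one]
  have h2 : (Q * S * Q + a) * g = Q := by
    rw [hQ, GHatG_PSP, ha, ← GHatG_blk_add, hg, GHatG_blk_mul, hG]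
  -- X (S Q) = Q - T a
  have h3 : X * S = 1 - T * a := by
    rw [hX, sub_mul, hTS, mul_assoc (T * a), hTS, mul_one]
  have hQd : Q = 1 - Hh := by
    rw [h1]
    abel
  have h4 : X * (Q * S * Q) = (1 - T * a) * Q - X * Hh * S * Q := by
    calc X * (Q * S * Q) = X * ((1 - Hh) * S * Q) := by rw [← hQd]
      _ = (X * S) * Q - X * Hh * S * Q := by
          noncomm_ring
      _ = _ := by rw [h3]
  have h5 : X * Q = g - X * Hh * S * g - T * a * T * a * g := by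
    calc X * Q = X * ((Q * S * Q + a) * g) := by rw [h2]
      _ = (X * (Q * S * Q)) * g + X * a * g := by noncomm_ring
      _ = ((1 - T * a) * Q - X * Hh * S * Q) * g + X * a * g := by rw [h4]
      _ = (1 - T * a) * (Q * g) - X * Hh * S * (Q * g) + X * a * g := by noncomm_ring
      _ = (1 - T * a) * g - X * Hh * S * g + X * a * g := by rw [hQg]
      _ = g - X * Hh * S * g - T * a * T * a * g := by
          rw [hX]
          noncomm_ring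
  have h6 : X = X * Q + X * Hh := by
    rw [← mul_add, add_comm Q, ← h1, mul_one]
  have h7 : g - T + T * a * T = g - X := by
    rw [hX]
    abel
  rw [h7]
  calc g - X = g - (X * Q + X * Hh) := by rw [← h6]
    _ = g - ((g - X * Hh * S * g - T * a * T * a * g) + X * Hh) := by rw [h5]
    _ = _ := by noncomm_ring

private theorem GHatG_I2 {S T : Matrix (κ ⊕ ι) (κ ⊕ ι) ℝ} (hTS : T * S = 1) {α G : Matrix ι ι ℝ}
    (hG : (S.toBlocks₂₂ + α) * G = 1) :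
    (blk κ G * S - 1) * Ph κ ι =
      ((T - T * blk κ α * T) * Ph κ ι) * ((S * blk κ G - 1) * S * Ph κ ι) +
        (T * blk κ α * T * blk κ α * blk κ G) * (S * Ph κ ι) := by
  have h := congrArg (fun M => M * (S * (Ph κ ι : Matrix (κ ⊕ ι) (κ ⊕ ι) ℝ)))
    (GHatG_I1 hTS hG)
  have h1 : (blk κ G - T + T * blk κ α * T) * (S * Ph κ ι) = (blk κ G * S - 1) * Ph κ ι := by
    have h2 : (blk κ G - T + T * blk κ α * T) * (S * Ph κ ι) =
        (blk κ G * S) * Ph κ ι - (T * S) * Ph κ ι + T * blk κ α * (T * S) * Ph κ ι := by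
      noncomm_ring
    rw [h2, hTS, mul_one, mul_assoc T, GHatG_blk_Ph, mul_zero, add_zero, one_mul, sub_mul, one_mul]
  rw [h1] at h
  rw [h]
  noncomm_ring

theorem ghatG_err (hB : BaseG C Γ S T pp D c τ lam eps) {α : Matrix ι ι ℝ} (hα : α.IsSymm) {r : ℝ}
    (hr : r ≤ 1 / (2 * c)) (hαr : ‖α‖ ≤ r) {V : Matrix (κ ⊕ ι) (κ ⊕ ι) ℝ} (hV : V.IsSymm) :
    ‖UU C (blk κ (S.toBlocks₂₂ + α)⁻¹ - T + T * blk κ α * T) V‖ ≤
      6 * c ^ 7 * (τ + r) ^ 2 * ‖V‖ := by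
  have hc := hB.c1
  have hc0 : 0 < c := by linarith
  have hr0 : 0 ≤ r := le_trans (norm_nonneg _) hαr
  have hτ0 : 0 ≤ τ := hB.eh.1
  obtain ⟨hu, hGs, hGn, -⟩ := ghatG_inv hB hα (hαr.trans hr)
  have hG : (S.toBlocks₂₂ + α) * (S.toBlocks₂₂ + α)⁻¹ = 1 := mul_nonsing_inv _ hu
  have hTS : T * S = 1 := mul_eq_one_comm.mp hB.ST
  generalize (S.toBlocks₂₂ + α)⁻¹ = G at hGs hGn hG ⊢
  have hI1 := GHatG_I1 (κ := κ) hTS hG
  have hI2 := GHatG_I2 (κ := κ) hTS hG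
  have ha : ‖blk κ α‖ ≤ r := (norm_blk_le hα).trans hαr
  have hg : ‖blk κ G‖ ≤ 2 * c := (norm_blk_le hGs).trans hGn
  have hgs : (blk κ G).IsSymm := GHatG_blk_symm hGs
  have has : (blk κ α).IsSymm := GHatG_blk_symm hα
  have hT := hB.nT
  have hS := hB.nS
  have hrc : r * (2 * c) ≤ 1 := by
    rwa [le_div_iff₀ (by positivity)] at hr
  have hone : ‖(1 : Matrix (κ ⊕ ι) (κ ⊕ ι) ℝ)‖ ≤ 1 := by
    refine norm_le_of_quad transpose_one zero_le_one fun x => ?_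
    rw [one_mulVec, abs_of_nonneg (dot_self_nonneg x), one_mul]
  set a := blk κ α with hadef
  set g := blk κ G with hgdef
  set H : Matrix (κ ⊕ ι) (κ ⊕ ι) ℝ := Ph κ ι with hHdef
  have hH : ‖H‖ ≤ 1 := norm_Ph_le
  -- norms
  have hTa : ‖T * a‖ ≤ c * r := (norm_mul_le _ _).trans
    (mul_le_mul hT ha (norm_nonneg _) hc0.le)
  have hTaT : ‖T * a * T‖ ≤ c * r * c := (norm_mul_le _ _).trans
    (mul_le_mul hTa hT (norm_nonneg _) (by positivity))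
  have hTaTa : ‖T * a * T * a‖ ≤ c * r * c * r := (norm_mul_le _ _).trans
    (mul_le_mul hTaT ha (norm_nonneg _) (by positivity))
  have hY : ‖T * a * T * a * g‖ ≤ c * r * c * r * (2 * c) := (norm_mul_le _ _).trans
    (mul_le_mul hTaTa hg (norm_nonneg _) (by positivity))
  have hBn : ‖S * g - 1‖ ≤ 3 * c ^ 2 := by
    calc ‖S * g - 1‖ ≤ ‖S * g‖ + ‖(1 : Matrix (κ ⊕ ι) (κ ⊕ ι) ℝ)‖ := norm_sub_le _ _
      _ ≤ c * (2 * c) + 1 := add_le_add ((norm_mul_le _ _).trans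
          (mul_le_mul hS hg (norm_nonneg _) hc0.le)) hone
      _ ≤ 3 * c ^ 2 := by nlinarith
  have hSH : ‖S * H‖ ≤ c := by
    calc ‖S * H‖ ≤ ‖S‖ * ‖H‖ := norm_mul_le _ _
      _ ≤ c * 1 := mul_le_mul hS hH (norm_nonneg _) hc0.le
      _ = c := mul_one c
  have hTH : ‖T * H‖ ≤ c := by
    calc ‖T * H‖ ≤ ‖T‖ * ‖H‖ := norm_mul_le _ _
      _ ≤ c * 1 := mul_le_mul hT hH (norm_nonneg _) hc0.le
      _ = c := mul_one c
  have hBSH : ‖(S * g - 1) * S * H‖ ≤ 3 * c ^ 2 * c := by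
    rw [mul_assoc]
    exact (norm_mul_le _ _).trans (mul_le_mul hBn hSH (norm_nonneg _) (by positivity))
  have hYSH : ‖(T * a * T * a * g) * (S * H)‖ ≤ c * r * c * r * (2 * c) * c :=
    (norm_mul_le _ _).trans (mul_le_mul hY hSH (norm_nonneg _) (by positivity))
  -- Eta estimates
  have hone' := hB.one
  have hE1 : Eta C ((T - T * a * T) * H) (c ^ 2 * (τ + r)) := by
    have h1 : (T - T * a * T) * H = T * H + -((T * a) * (T * H)) := by noncomm_ring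
    rw [h1]
    have h2 : ‖T * a * (T * H)‖ ≤ c * r * c := (norm_mul_le _ _).trans
      (mul_le_mul hTa hTH (norm_nonneg _) (by positivity))
    refine (Eta.add hB.eT (Eta.neg ((eta_of_norm hone' _).mono h2))).mono ?_
    nlinarith [mul_nonneg hτ0 (sub_nonneg.mpr (one_le_pow₀ hc (n := 2)))]
  have hE2 : Eta C ((g * S - 1) * H) (4 * c ^ 5 * (τ + r)) := by
    rw [hI2]
    have h1 := (Eta.mul hE1 ((S * g - 1) * S * H)).mono
      (mul_le_mul_of_nonneg_left hBSH (by positivity))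
    have h2 := (eta_of_norm hone' ((T * a * T * a * g) * (S * H))).mono hYSH
    refine (Eta.add h1 h2).mono ?_
    have h3 : c * r * c * r * (2 * c) * c ≤ c ^ 3 * r := by
      calc c * r * c * r * (2 * c) * c = c ^ 3 * r * (r * (2 * c)) := by ring
        _ ≤ c ^ 3 * r * 1 := mul_le_mul_of_nonneg_left hrc (by positivity)
        _ = c ^ 3 * r := mul_one _
    have h4 : c ^ 3 * r ≤ c ^ 5 * (τ + r) := by
      have h5 : c ^ 3 ≤ c ^ 5 := pow_le_pow_right₀ hc (by norm_num)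
      calc c ^ 3 * r ≤ c ^ 5 * r := mul_le_mul_of_nonneg_right h5 hr0
        _ ≤ c ^ 5 * (τ + r) := by
            apply mul_le_mul_of_nonneg_left _ (by positivity)
            linarith
    calc c ^ 2 * (τ + r) * (3 * c ^ 2 * c) + c * r * c * r * (2 * c) * c
        ≤ 3 * c ^ 5 * (τ + r) + c ^ 5 * (τ + r) := by
          have h6 : c ^ 2 * (τ + r) * (3 * c ^ 2 * c) = 3 * c ^ 5 * (τ + r) := by ring
          linarith
      _ = 4 * c ^ 5 * (τ + r) := by ring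
  have hE3 : Eta C (T * a * T * a * g) (2 * c ^ 3 * r ^ 2) := by
    refine (eta_of_norm hone' _).mono (hY.trans (le_of_eq ?_))
    ring
  have hE4 : Eta C (1 : Matrix (κ ⊕ ι) (κ ⊕ ι) ℝ) 1 := (eta_of_norm hone' _).mono hone
  -- the matrix is symmetric
  have hsym : (g - T + T * a * T).IsSymm := by
    unfold Matrix.IsSymm
    rw [transpose_add, transpose_sub, transpose_mul, transpose_mul, hgs.eq, hB.symT.eq, has.eq,
      mul_assoc]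
  refine norm_UU_of_qf hsym hV (by positivity) fun v => ?_
  have hv0 := dot_self_nonneg v
  have hBt : ((g * S - 1) * H)ᵀ = H * (S * g - 1) := by
    rw [transpose_mul, transpose_sub, transpose_mul, hgs.eq, hB.symS.eq, transpose_one,
      hHdef, GHatG_Ph_symm]
  have hsplit : g - T + T * a * T =
      ((T - T * a * T) * H) * ((g * S - 1) * H)ᵀ + (T * a * T * a * g) * 1ᵀ := by
    rw [hBt, transpose_one, mul_one, hI1]
    congr 1
    have hHH : H * H = H := GHatG_Ph_Ph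
    calc (T - T * a * T) * H * (S * g - 1) = (T - T * a * T) * (H * H) * (S * g - 1) := by
          rw [hHH]
      _ = _ := by noncomm_ring
  rw [hsplit, qf_add]
  have hq1 := qf_le hE1 hE2 V v
  have hq2 := qf_le hE3 hE4 V v
  refine (abs_add_le _ _).trans ((add_le_add hq1 hq2).trans ?_)
  have hVn := norm_nonneg V
  have h1 : ‖V‖ * (c ^ 2 * (τ + r)) * (4 * c ^ 5 * (τ + r)) * (v ⬝ᵥ v) =
      4 * c ^ 7 * (τ + r) ^ 2 * ‖V‖ * (v ⬝ᵥ v) := by ring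
  have h2 : ‖V‖ * (2 * c ^ 3 * r ^ 2) * 1 * (v ⬝ᵥ v) ≤
      2 * c ^ 7 * (τ + r) ^ 2 * ‖V‖ * (v ⬝ᵥ v) := by
    have h3 : 2 * c ^ 3 * r ^ 2 ≤ 2 * c ^ 7 * (τ + r) ^ 2 := by
      have h4 : c ^ 3 ≤ c ^ 7 := pow_le_pow_right₀ hc (by norm_num)
      have h5 : r ^ 2 ≤ (τ + r) ^ 2 := pow_le_pow_left₀ hr0 (by linarith) 2
      calc 2 * c ^ 3 * r ^ 2 ≤ 2 * c ^ 7 * r ^ 2 := by
            apply mul_le_mul_of_nonneg_right _ (by positivity)
            linarith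
        _ ≤ 2 * c ^ 7 * (τ + r) ^ 2 := mul_le_mul_of_nonneg_left h5 (by positivity)
    calc ‖V‖ * (2 * c ^ 3 * r ^ 2) * 1 * (v ⬝ᵥ v) = (2 * c ^ 3 * r ^ 2) * (‖V‖ * (v ⬝ᵥ v)) := by
          ring
      _ ≤ (2 * c ^ 7 * (τ + r) ^ 2) * (‖V‖ * (v ⬝ᵥ v)) :=
          mul_le_mul_of_nonneg_right h3 (by positivity)
      _ = _ := by ring
  rw [h1]
  calc 4 * c ^ 7 * (τ + r) ^ 2 * ‖V‖ * (v ⬝ᵥ v) + ‖V‖ * (2 * c ^ 3 * r ^ 2) * 1 * (v ⬝ᵥ v)
      ≤ 4 * c ^ 7 * (τ + r) ^ 2 * ‖V‖ * (v ⬝ᵥ v) + 2 * c ^ 7 * (τ + r) ^ 2 * ‖V‖ * (v ⬝ᵥ v) := by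
        linarith
    _ = 6 * c ^ 7 * (τ + r) ^ 2 * ‖V‖ * (v ⬝ᵥ v) := by ring

end Pool.Agent.EinG
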