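import Pool.Agent.EinG.GHat
import Pool.Agent.EinU.NL

/-!
# The nonlinear estimate

As in `EinU/NL.lean` (copy its private lemmas, `BaseH` replaced by `BaseG`; `UU_blk` can be used).  Put `s = S.toBlocks₂₂`, `P = s + α`.

* `UU C P̂⁻¹ P̂ = UU C T S + AA C S T α̂ + e₂`, `UU C P̂ P̂ = UU C S S + 2 UU C S α̂ + e₃` are as there (`ghatG_err`).
* `D = D * pp = pp * D`, `Ph * pp = 0`, so `pp = blk κ p`, `D = blk κ d`, `(S * D).toBlocks₂₂ = s * d =: w`, `w` symmetric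
  (`S D = D S`), `(S * D * S).toBlocks₂₂ = s * d * s`; `AA = pp AA pp = blk κ Z` (`hB.z` for `β = blk κ α`, hypothesis `hcl`), and
  `(S * AA * S).toBlocks₂₂ = s * Z * s`.
* `1 - U = (D - AA - e₂)₂₂ = d - Z - E₂`, so
  `(1/2) P (1 - U) P = (1/2) (s d s + α w + w α + α d α) - (1/2) (s Z s + α Z s + s Z α + α Z α) - (1/2) P E₂ P`.
* Error: `(1/2) ‖α d α‖ ≤ (1/2) c r²`, `‖Z‖ ≤ 2 c³ r`, `(1/2) ‖α Z s + s Z α + α Z α‖ ≤ 2 c⁴ r² + c³ r³`,
  `(1/2) ‖P E₂ P‖ ≤ (135/8) c¹⁰ (τ + r)²`, `(1/4) ‖E₃‖ ≤ (5/2) c² (τ + r)²`.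
-/

namespace Pool.Agent.EinG

open Matrix Pool.Agent.EStab Pool.Agent.EinS Pool.Agent.SmIso Pool.Agent.EinU
open scoped Matrix.Norms.L2Operator

variable {κ ι : Type*} [Fintype κ] [DecidableEq κ] [Fintype ι] [DecidableEq ι]
  {C : κ ⊕ ι → Matrix (κ ⊕ ι) (κ ⊕ ι) ℝ} {Γ : Set (Matrix (κ ⊕ ι) (κ ⊕ ι) ℝ)}
  {S T pp D : Matrix (κ ⊕ ι) (κ ⊕ ι) ℝ} {c τ lam eps : ℝ}

set_option linter.unusedSectionVars false

private theorem NLG_t22_add (A B : Matrix (κ ⊕ ι) (κ ⊕ ι) ℝ) :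
    (A + B).toBlocks₂₂ = A.toBlocks₂₂ + B.toBlocks₂₂ := rfl

private theorem NLG_t22_sub (A B : Matrix (κ ⊕ ι) (κ ⊕ ι) ℝ) :
    (A - B).toBlocks₂₂ = A.toBlocks₂₂ - B.toBlocks₂₂ := rfl

private theorem NLG_t22_smul (a : ℝ) (A : Matrix (κ ⊕ ι) (κ ⊕ ι) ℝ) :
    (a • A).toBlocks₂₂ = a • A.toBlocks₂₂ := rfl

private theorem NLG_t22_one : (1 : Matrix (κ ⊕ ι) (κ ⊕ ι) ℝ).toBlocks₂₂ = 1 := by
  rw [← Matrix.fromBlocks_one, Matrix.toBlocks_fromBlocks₂₂]

private theorem NLG_t22_blk (A : Matrix ι ι ℝ) : (blk κ A).toBlocks₂₂ = A := by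
  rw [blk, Matrix.toBlocks_fromBlocks₂₂]

private theorem NLG_blk_add (A B : Matrix ι ι ℝ) : blk κ (A + B) = blk κ A + blk κ B := by
  unfold blk
  rw [Matrix.fromBlocks_add]
  simp

private theorem NLG_blk_mul (A B : Matrix ι ι ℝ) : blk κ (A * B) = blk κ A * blk κ B := by
  unfold blk
  rw [Matrix.fromBlocks_multiply]
  simp

private theorem NLG_blk_symm {A : Matrix ι ι ℝ} (hA : A.IsSymm) : (blk κ A).IsSymm := by
  unfold Matrix.IsSymm blk
  rw [Matrix.fromBlocks_transpose, hA.eq]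
  simp

private theorem NLG_t22_symm {A : Matrix (κ ⊕ ι) (κ ⊕ ι) ℝ} (hA : A.IsSymm) :
    A.toBlocks₂₂.IsSymm := by
  ext i j
  exact congrFun (congrFun hA (Sum.inr i)) (Sum.inr j)

private theorem NLG_blk_mul_blk (p : Matrix ι ι ℝ) (A : Matrix (κ ⊕ ι) (κ ⊕ ι) ℝ) :
    (blk κ p * A * blk κ p).toBlocks₂₂ = p * A.toBlocks₂₂ * p := by
  rw [← Matrix.fromBlocks_toBlocks A]
  unfold blk
  simp only [Matrix.toBlocks_fromBlocks₂₂, Matrix.fromBlocks_multiply, Matrix.mul_zero,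
    Matrix.zero_mul, add_zero, zero_add]

private theorem NLG_blk_left (α : Matrix ι ι ℝ) (M : Matrix (κ ⊕ ι) (κ ⊕ ι) ℝ) :
    (blk κ α * M).toBlocks₂₂ = α * M.toBlocks₂₂ := by
  rw [← Matrix.fromBlocks_toBlocks M]
  unfold blk
  simp only [Matrix.toBlocks_fromBlocks₂₂, Matrix.fromBlocks_multiply, Matrix.zero_mul, zero_add]

private theorem NLG_blk_right (α : Matrix ι ι ℝ) (M : Matrix (κ ⊕ ι) (κ ⊕ ι) ℝ) :
    (M * blk κ α).toBlocks₂₂ = M.toBlocks₂₂ * α := by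
  rw [← Matrix.fromBlocks_toBlocks M]
  unfold blk
  simp only [Matrix.toBlocks_fromBlocks₂₂, Matrix.fromBlocks_multiply, Matrix.mul_zero, zero_add]

private theorem NLG_blk_mid (α : Matrix ι ι ℝ) (M N : Matrix (κ ⊕ ι) (κ ⊕ ι) ℝ) :
    (M * blk κ α * N).toBlocks₂₂ = M.toBlocks₂₂ * α * N.toBlocks₂₂ := by
  rw [← Matrix.fromBlocks_toBlocks M, ← Matrix.fromBlocks_toBlocks N]
  unfold blk
  simp only [Matrix.toBlocks_fromBlocks₂₂, Matrix.fromBlocks_multiply, Matrix.mul_zero,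
    Matrix.zero_mul, zero_add]

private theorem NLG_blk_of (p : Matrix ι ι ℝ) (A : Matrix (κ ⊕ ι) (κ ⊕ ι) ℝ)
    (h : A = blk κ p * A * blk κ p) : A = blk κ A.toBlocks₂₂ := by
  have h1 : blk κ p * A * blk κ p = blk κ (p * A.toBlocks₂₂ * p) := by
    conv_lhs => rw [← Matrix.fromBlocks_toBlocks A]
    unfold blk
    simp only [Matrix.fromBlocks_multiply, Matrix.mul_zero, Matrix.zero_mul, add_zero, zero_add]
  have h2 : A.toBlocks₂₂ = p * A.toBlocks₂₂ * p := by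
    conv_lhs => rw [h, NLG_blk_mul_blk]
  rw [← h2] at h1
  rw [← h1]
  exact h

private theorem NLG_D (S : Matrix (κ ⊕ ι) (κ ⊕ ι) ℝ) :
    S - blk κ S.toBlocks₂₂ = Ph κ ι * S + S * Ph κ ι + (-1 : ℝ) • (Ph κ ι * S * Ph κ ι) := by
  conv_lhs => rw [← Matrix.fromBlocks_toBlocks S]
  conv_rhs => rw [← Matrix.fromBlocks_toBlocks S]
  unfold blk Ph
  simp only [Matrix.toBlocks_fromBlocks₂₂, Matrix.fromBlocks_multiply, Matrix.mul_zero,
    Matrix.zero_mul, add_zero, zero_add, Matrix.one_mul, Matrix.mul_one, Matrix.fromBlocks_add,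
    sub_eq_add_neg, Matrix.fromBlocks_neg, neg_zero, neg_smul, one_smul]
  congr 1
  · abel
  · abel

private theorem NLG_Ph_symm : (Ph κ ι : Matrix (κ ⊕ ι) (κ ⊕ ι) ℝ)ᵀ = Ph κ ι := by
  unfold Ph
  rw [Matrix.fromBlocks_transpose]
  simp

private theorem NLG_Ph_sq : (Ph κ ι : Matrix (κ ⊕ ι) (κ ⊕ ι) ℝ) * Ph κ ι = Ph κ ι := by
  unfold Ph
  rw [Matrix.fromBlocks_multiply]
  simp

private theorem NLG_pp (hB : BaseG C Γ S T pp D c τ lam eps) : pp = blk κ pp.toBlocks₂₂ := by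
  have h1 := hB.hpp
  have h2 := hB.symp.eq
  rw [← Matrix.fromBlocks_toBlocks pp] at h1 h2
  unfold Ph at h1
  rw [Matrix.fromBlocks_multiply] at h1
  rw [Matrix.fromBlocks_transpose] at h2
  have h0 : (0 : Matrix (κ ⊕ ι) (κ ⊕ ι) ℝ) = fromBlocks 0 0 0 0 := Matrix.fromBlocks_zero.symm
  rw [h0, Matrix.fromBlocks_inj] at h1
  rw [Matrix.fromBlocks_inj] at h2
  obtain ⟨a1, a2, -, -⟩ := h1
  obtain ⟨-, b2, -, -⟩ := h2
  simp only [Matrix.one_mul, Matrix.zero_mul, add_zero] at a1 a2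
  have a3 : pp.toBlocks₂₁ = 0 := by
    have := congrArg Matrix.transpose b2
    rw [Matrix.transpose_transpose, a2, Matrix.transpose_zero] at this
    exact this
  conv_lhs => rw [← Matrix.fromBlocks_toBlocks pp]
  unfold blk
  rw [a1, a2, a3]

private theorem NLG_norm_UU (hB : BaseG C Γ S T pp D c τ lam eps)
    {A B : Matrix (κ ⊕ ι) (κ ⊕ ι) ℝ} (hA : A.IsSymm) (hBs : B.IsSymm) :
    ‖UU C A B‖ ≤ ‖A‖ * ‖B‖ := by
  refine norm_UU_le (fun v => ?_) hA hBs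
  rw [hB.one, Matrix.one_mulVec]

/-- the estimate for `D` -/
private theorem NLG_UU_D (hB : BaseG C Γ S T pp D c τ lam eps)
    {V : Matrix (κ ⊕ ι) (κ ⊕ ι) ℝ} (hV : V.IsSymm) :
    ‖UU C (S - blk κ S.toBlocks₂₂) V‖ ≤ 3 * c * τ ^ 2 * ‖V‖ := by
  have hc0 : 0 ≤ c := zero_le_one.trans hB.c1
  have hD : (S - blk κ S.toBlocks₂₂).IsSymm :=
    hB.symS.sub (NLG_blk_symm (NLG_t22_symm hB.symS))
  have hτ := hB.eh.1
  refine norm_UU_of_qf hD hV (by positivity) fun v => ?_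
  have e1 : Ph κ ι * S = Ph κ ι * (S * Ph κ ι)ᵀ := by
    rw [Matrix.transpose_mul, NLG_Ph_symm, hB.symS.eq, ← Matrix.mul_assoc, NLG_Ph_sq]
  have e2 : S * Ph κ ι = (S * Ph κ ι) * (Ph κ ι)ᵀ := by
    rw [NLG_Ph_symm, Matrix.mul_assoc, NLG_Ph_sq]
  have e3 : Ph κ ι * S * Ph κ ι = Ph κ ι * (Ph κ ι * (S * Ph κ ι))ᵀ := by
    rw [Matrix.transpose_mul, Matrix.transpose_mul, NLG_Ph_symm, hB.symS.eq, ← Matrix.mul_assoc,
      ← Matrix.mul_assoc, NLG_Ph_sq]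
  have hE3 : Eta C (Ph κ ι * (S * Ph κ ι)) (τ * c) := by
    refine (hB.eh.mul (S * Ph κ ι)).mono (mul_le_mul_of_nonneg_left ?_ hτ)
    refine (norm_mul_le _ _).trans ?_
    calc ‖S‖ * ‖(Ph κ ι : Matrix (κ ⊕ ι) (κ ⊕ ι) ℝ)‖ ≤ c * 1 :=
          mul_le_mul hB.nS norm_Ph_le (norm_nonneg _) hc0
      _ = c := mul_one c
  have q1 := qf_le hB.eh hB.eS V v
  have q2 := qf_le hB.eS hB.eh V v
  have q3 := qf_le hB.eh hE3 V v
  rw [← e1] at q1
  rw [← e2] at q2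
  rw [← e3] at q3
  rw [NLG_D, qf_add, qf_add, qf_smul]
  have hvv : 0 ≤ v ⬝ᵥ v := dot_self_nonneg v
  have h1 : |qf C (Ph κ ι * S) V v + qf C (S * Ph κ ι) V v +
      -1 * qf C (Ph κ ι * S * Ph κ ι) V v| ≤
      ‖V‖ * τ * τ * (v ⬝ᵥ v) + ‖V‖ * τ * τ * (v ⬝ᵥ v) + ‖V‖ * τ * (τ * c) * (v ⬝ᵥ v) := by
    rw [abs_le] at q1 q2 q3 ⊢
    constructor <;> linarith [q1.1, q1.2, q2.1, q2.2, q3.1, q3.2]
  refine h1.trans ?_
  have h2 : 0 ≤ ‖V‖ * τ ^ 2 * (v ⬝ᵥ v) := by positivity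
  nlinarith [hB.c1]

theorem nlG_bound (hB : BaseG C Γ S T pp D c τ lam eps) {α : Matrix ι ι ℝ} (hα : α.IsSymm)
    (hcl : ∀ M ∈ Γ, M * blk κ α * Mᵀ = blk κ α) {r : ℝ}
    (hr : r ≤ 1 / (2 * c)) (hαr : ‖α‖ ≤ r) :
    ‖EE (Cm C) lam (S.toBlocks₂₂ + α) (S.toBlocks₂₂ + α)⁻¹ -
        ((1 / 2 : ℝ) • (S * D * S) + (1 / 4 : ℝ) • UU C S S - lam • S).toBlocks₂₂ -
        (ellG C S T D lam (blk κ α)).toBlocks₂₂‖ ≤ 50 * c ^ 10 * (τ + r) ^ 2 := by
  have hc1 := hB.c1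
  have hc0 : 0 < c := by linarith
  have hτ := hB.eh.1
  have hr0 : 0 ≤ r := (norm_nonneg α).trans hαr
  have hr2 : r ≤ 1 / 2 := by
    refine hr.trans ?_
    rw [div_le_div_iff₀ (by positivity) (by norm_num)]
    linarith
  have hcr : c * r ≤ 1 / 2 := by
    calc c * r ≤ c * (1 / (2 * c)) := mul_le_mul_of_nonneg_left hr hc0.le
      _ = 1 / 2 := by field_simp
  obtain ⟨-, hGs, -, -⟩ := ghatG_inv hB hα (hαr.trans hr)
  have hs : S.toBlocks₂₂.IsSymm := NLG_t22_symm hB.symS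
  set s := S.toBlocks₂₂ with hsdef
  set p := pp.toBlocks₂₂ with hpdef
  set P := s + α with hP
  have hPs : P.IsSymm := hs.add hα
  have hah : (blk κ α).IsSymm := NLG_blk_symm hα
  have hPh : (blk κ P).IsSymm := NLG_blk_symm hPs
  have hGh : (blk κ P⁻¹).IsSymm := NLG_blk_symm hGs
  have nα : ‖blk κ α‖ ≤ r := (norm_blk_le hα).trans hαr
  have nP : ‖P‖ ≤ 3 / 2 * c := by
    refine (norm_add_le _ _).trans ?_
    have := (norm_blocks_le hB.symS).trans hB.nS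
    linarith
  have nPh : ‖blk κ P‖ ≤ 3 / 2 * c := (norm_blk_le hPs).trans nP
  have hTaT : (T * blk κ α * T).IsSymm := by
    unfold Matrix.IsSymm
    rw [Matrix.transpose_mul, Matrix.transpose_mul, hB.symT.eq, hah.eq, Matrix.mul_assoc]
  have nTaT : ‖T * blk κ α * T‖ ≤ c * r * c := by
    refine (norm_mul_le _ _).trans (mul_le_mul ?_ hB.nT (norm_nonneg _) (by positivity))
    exact (norm_mul_le _ _).trans (mul_le_mul hB.nT nα (norm_nonneg _) hc0.le)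
  have hX : (T - T * blk κ α * T).IsSymm := hB.symT.sub hTaT
  have nX : ‖T - T * blk κ α * T‖ ≤ 3 / 2 * c := by
    refine (norm_sub_le _ _).trans ?_
    have := hB.nT
    nlinarith
  have hSa : (S + blk κ α).IsSymm := hB.symS.add hah
  have nSa : ‖S + blk κ α‖ ≤ 3 / 2 * c := by
    refine (norm_add_le _ _).trans ?_
    have := hB.nS
    linarith
  have hDs : (S - blk κ s).IsSymm := hB.symS.sub (NLG_blk_symm hs)
  -- the decomposition of `UU C Ĝ P̂`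
  have hPhat : blk κ P = (S + blk κ α) + (-1 : ℝ) • (S - blk κ s) := by
    rw [hP, NLG_blk_add]
    module
  have e2eq : UU C (blk κ P⁻¹) (blk κ P) = UU C T S + AA C S T (blk κ α) +
      (UU C (blk κ P⁻¹ - T + T * blk κ α * T) (blk κ P) -
        UU C (S - blk κ s) (T - T * blk κ α * T) - UU C (T * blk κ α * T) (blk κ α)) := by
    have h1 : blk κ P⁻¹ = (blk κ P⁻¹ - T + T * blk κ α * T) + (T - T * blk κ α * T) := by abel
    have h2 : UU C (T - T * blk κ α * T) (blk κ P) =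
        UU C (T - T * blk κ α * T) (S + blk κ α) - UU C (S - blk κ s) (T - T * blk κ α * T) := by
      rw [UU_comm hB.csym hDs hX]
      conv_lhs => rw [hPhat, UU_add_right, UU_smul_right]
      module
    have h3 : UU C (T - T * blk κ α * T) (S + blk κ α) = UU C T S + AA C S T (blk κ α) -
        UU C (T * blk κ α * T) (blk κ α) := by
      have h4 : T - T * blk κ α * T = T + (-1 : ℝ) • (T * blk κ α * T) := by module
      rw [h4, UU_add_left, UU_smul_left, UU_add_right, UU_add_right]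
      unfold AA
      module
    conv_lhs => rw [h1, UU_add_left, h2, h3]
    abel
  set e2 := UU C (blk κ P⁻¹ - T + T * blk κ α * T) (blk κ P) -
        UU C (S - blk κ s) (T - T * blk κ α * T) - UU C (T * blk κ α * T) (blk κ α) with he2
  have he2s : e2.IsSymm := by
    rw [he2]
    refine ((UU_symm C ?_ hPh).sub (UU_symm C hDs hX)).sub (UU_symm C hTaT hah)
    exact (hGh.sub hB.symT).add hTaT
  have ne2 : ‖e2‖ ≤ 15 * c ^ 8 * (τ + r) ^ 2 := by
    have b1 := ghatG_err hB hα hr hαr hPh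
    have b2 := NLG_UU_D hB hX
    have b3 := NLG_norm_UU hB hTaT hah
    rw [← hsdef] at b2
    have hcp : (1 : ℝ) ≤ c ^ 6 := one_le_pow₀ hc1
    have b1' : ‖UU C (blk κ P⁻¹ - T + T * blk κ α * T) (blk κ P)‖ ≤
        6 * c ^ 7 * (τ + r) ^ 2 * (3 / 2 * c) :=
      b1.trans (mul_le_mul_of_nonneg_left nPh (by positivity))
    have b2' : ‖UU C (S - blk κ s) (T - T * blk κ α * T)‖ ≤ 3 * c * τ ^ 2 * (3 / 2 * c) :=
      b2.trans (mul_le_mul_of_nonneg_left nX (by positivity))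
    have b3' : ‖UU C (T * blk κ α * T) (blk κ α)‖ ≤ c * r * c * r :=
      b3.trans (mul_le_mul nTaT nα (norm_nonneg _) (by positivity))
    have tri : ‖e2‖ ≤ 6 * c ^ 7 * (τ + r) ^ 2 * (3 / 2 * c) + 3 * c * τ ^ 2 * (3 / 2 * c) +
        c * r * c * r := by
      rw [he2]
      refine (norm_sub_le _ _).trans (add_le_add ((norm_sub_le _ _).trans (add_le_add b1' b2')) b3')
    refine tri.trans ?_
    have t1 : τ ^ 2 ≤ (τ + r) ^ 2 := pow_le_pow_left₀ hτ (by linarith) 2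
    have t2 : r ^ 2 ≤ (τ + r) ^ 2 := pow_le_pow_left₀ hr0 (by linarith) 2
    have t3 : c ^ 2 * (τ + r) ^ 2 ≤ c ^ 8 * (τ + r) ^ 2 :=
      mul_le_mul_of_nonneg_right (pow_le_pow_right₀ hc1 (by norm_num)) (by positivity)
    have t4 : c ^ 2 * τ ^ 2 ≤ c ^ 2 * (τ + r) ^ 2 := mul_le_mul_of_nonneg_left t1 (by positivity)
    have t5 : c ^ 2 * r ^ 2 ≤ c ^ 2 * (τ + r) ^ 2 := mul_le_mul_of_nonneg_left t2 (by positivity)
    have t6 : 0 ≤ c ^ 8 * (τ + r) ^ 2 := by positivity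
    nlinarith
  -- the decomposition of `UU C P̂ P̂`
  have e3eq : UU C (blk κ P) (blk κ P) = UU C S S + (2 : ℝ) • UU C S (blk κ α) +
      (UU C (blk κ α) (blk κ α) - UU C (S - blk κ s) (S + blk κ α) -
        UU C (S - blk κ s) (blk κ P)) := by
    have h1 : UU C (blk κ P) (blk κ P) =
        UU C (S + blk κ α) (blk κ P) - UU C (S - blk κ s) (blk κ P) := by
      nth_rewrite 1 [hPhat]
      rw [UU_add_left, UU_smul_left]
      module
    have h2 : UU C (S + blk κ α) (blk κ P) =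
        UU C (S + blk κ α) (S + blk κ α) - UU C (S - blk κ s) (S + blk κ α) := by
      rw [UU_comm hB.csym hDs hSa]
      conv_lhs => rw [hPhat, UU_add_right, UU_smul_right]
      module
    have h3 : UU C (S + blk κ α) (S + blk κ α) = UU C S S + (2 : ℝ) • UU C S (blk κ α) +
        UU C (blk κ α) (blk κ α) := by
      rw [UU_add_left, UU_add_right, UU_add_right, UU_comm hB.csym hah hB.symS]
      module
    rw [h1, h2, h3]
    abel
  set e3 := UU C (blk κ α) (blk κ α) - UU C (S - blk κ s) (S + blk κ α) -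
        UU C (S - blk κ s) (blk κ P) with he3
  have he3s : e3.IsSymm := by
    rw [he3]
    exact ((UU_symm C hah hah).sub (UU_symm C hDs hSa)).sub (UU_symm C hDs hPh)
  have ne3 : ‖e3‖ ≤ 10 * c ^ 2 * (τ + r) ^ 2 := by
    have b1 := NLG_norm_UU hB hah hah
    have b2 := NLG_UU_D hB hSa
    have b3 := NLG_UU_D hB hPh
    rw [← hsdef] at b2 b3
    have b1' : ‖UU C (blk κ α) (blk κ α)‖ ≤ r * r :=
      b1.trans (mul_le_mul nα nα (norm_nonneg _) hr0)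
    have b2' : ‖UU C (S - blk κ s) (S + blk κ α)‖ ≤ 3 * c * τ ^ 2 * (3 / 2 * c) :=
      b2.trans (mul_le_mul_of_nonneg_left nSa (by positivity))
    have b3' : ‖UU C (S - blk κ s) (blk κ P)‖ ≤ 3 * c * τ ^ 2 * (3 / 2 * c) :=
      b3.trans (mul_le_mul_of_nonneg_left nPh (by positivity))
    have tri : ‖e3‖ ≤ r * r + 3 * c * τ ^ 2 * (3 / 2 * c) + 3 * c * τ ^ 2 * (3 / 2 * c) := by
      rw [he3]
      refine (norm_sub_le _ _).trans (add_le_add ((norm_sub_le _ _).trans (add_le_add b1' b2')) b3')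
    refine tri.trans ?_
    have t1 : τ ^ 2 + r ^ 2 ≤ (τ + r) ^ 2 := by nlinarith [mul_nonneg hτ hr0]
    have t2 : (1 : ℝ) ≤ c ^ 2 := one_le_pow₀ hc1
    have t3 : c ^ 2 * (τ ^ 2 + r ^ 2) ≤ c ^ 2 * (τ + r) ^ 2 :=
      mul_le_mul_of_nonneg_left t1 (by positivity)
    have t4 : r ^ 2 ≤ c ^ 2 * r ^ 2 := le_mul_of_one_le_left (by positivity) t2
    have t5 : 0 ≤ c ^ 2 * τ ^ 2 := by positivity
    have t6 : 0 ≤ c ^ 2 * r ^ 2 := by positivity
    nlinarith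
  -- the matrices on the complement
  have hppblk : pp = blk κ p := NLG_pp hB
  have hpD : pp * D = D := by
    have h1 := congrArg Matrix.transpose hB.Dpp
    rw [Matrix.transpose_mul, hB.symp.eq, hB.symD.eq] at h1
    exact h1
  set d := D.toBlocks₂₂ with hddef
  have hDblk : D = blk κ d := by
    refine NLG_blk_of p D ?_
    rw [← hppblk, hpD, hB.Dpp]
  have hsd : s * d = d * s := by
    have h1 := congrArg Matrix.toBlocks₂₂ hB.SD
    rw [hDblk, NLG_blk_right, NLG_blk_left] at h1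
    exact h1
  set AAa := AA C S T (blk κ α) with hAAa
  have hAAs : AAa.IsSymm := by
    rw [hAAa]
    unfold AA
    exact (UU_symm C hB.symT hah).sub (UU_symm C hTaT hB.symS)
  have hAAz : AAa = pp * AAa * pp := hB.z _ hah hcl
  set Z := AAa.toBlocks₂₂ with hZdef
  have hAblk : AAa = blk κ Z := by
    refine NLG_blk_of p AAa ?_
    rw [← hppblk]
    exact hAAz
  have nZ : ‖Z‖ ≤ 2 * c ^ 3 * r := by
    refine (norm_blocks_le hAAs).trans ?_
    rw [hAAa]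
    unfold AA
    refine (norm_sub_le _ _).trans ?_
    have b1 := (NLG_norm_UU hB hB.symT hah).trans
      (mul_le_mul hB.nT nα (norm_nonneg _) hc0.le)
    have b2 := (NLG_norm_UU hB hTaT hB.symS).trans
      (mul_le_mul nTaT hB.nS (norm_nonneg _) (by positivity))
    have t1 : c * r ≤ c ^ 3 * r := by
      refine mul_le_mul_of_nonneg_right ?_ hr0
      calc c = c ^ 1 := (pow_one c).symm
        _ ≤ c ^ 3 := pow_le_pow_right₀ hc1 (by norm_num)
    nlinarith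
  set E2 := e2.toBlocks₂₂ with hE2
  set E3 := e3.toBlocks₂₂ with hE3
  have nE2 : ‖E2‖ ≤ 15 * c ^ 8 * (τ + r) ^ 2 := (norm_blocks_le he2s).trans ne2
  have nE3 : ‖E3‖ ≤ 10 * c ^ 2 * (τ + r) ^ 2 := (norm_blocks_le he3s).trans ne3
  have hU : UU (Cm C) P⁻¹ P = 1 - d + Z + E2 := by
    rw [UU_blk, e2eq, hB.uts, NLG_t22_add, NLG_t22_add, NLG_t22_sub, NLG_t22_one]
  have hV : UU (Cm C) P P = (UU C S S).toBlocks₂₂ + (2 : ℝ) • (UU C S (blk κ α)).toBlocks₂₂ +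
      E3 := by
    rw [UU_blk, e3eq, NLG_t22_add, NLG_t22_add, NLG_t22_smul]
  have hell : (ellG C S T D lam (blk κ α)).toBlocks₂₂ =
      (1 / 2 : ℝ) • (α * (s * d) + s * d * α) - (1 / 2 : ℝ) • (s * Z * s) +
        (1 / 2 : ℝ) • (UU C S (blk κ α)).toBlocks₂₂ - lam • α := by
    unfold ellG
    rw [← hAAa, NLG_t22_sub, NLG_t22_add, NLG_t22_sub, NLG_t22_smul, NLG_t22_smul, NLG_t22_smul,
      NLG_t22_smul, NLG_t22_add, NLG_t22_blk, NLG_blk_left, NLG_blk_right, hDblk, NLG_blk_right,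
      hAblk, NLG_blk_mid]
  have hbase : ((1 / 2 : ℝ) • (S * D * S) + (1 / 4 : ℝ) • UU C S S - lam • S).toBlocks₂₂ =
      (1 / 2 : ℝ) • (s * d * s) + (1 / 4 : ℝ) • (UU C S S).toBlocks₂₂ - lam • s := by
    rw [NLG_t22_sub, NLG_t22_add, NLG_t22_smul, NLG_t22_smul, NLG_t22_smul, hDblk, NLG_blk_mid]
  have hmain : EE (Cm C) lam P P⁻¹ -
        ((1 / 2 : ℝ) • (S * D * S) + (1 / 4 : ℝ) • UU C S S - lam • S).toBlocks₂₂ -
        (ellG C S T D lam (blk κ α)).toBlocks₂₂ =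
      (1 / 2 : ℝ) • (α * d * α) - (1 / 2 : ℝ) • (s * Z * α + α * Z * s + α * Z * α) -
        (1 / 2 : ℝ) • (P * E2 * P) + (1 / 4 : ℝ) • E3 := by
    unfold EE
    have h1 : ∀ Q : Matrix ι ι ℝ, Q * (1 - d + Z + E2) * Q =
        Q * Q - Q * d * Q + Q * Z * Q + Q * E2 * Q := fun Q => by
      rw [Matrix.mul_add, Matrix.mul_add, Matrix.mul_sub, Matrix.mul_one,
        Matrix.add_mul, Matrix.add_mul, Matrix.sub_mul]
    have h2 : P * d * P = s * d * s + s * d * α + α * (s * d) + α * d * α := by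
      have h4 : α * (s * d) = α * d * s := by rw [hsd, Matrix.mul_assoc]
      rw [h4, hP]
      simp only [Matrix.add_mul, Matrix.mul_add]
      abel
    have h3 : P * Z * P = s * Z * s + s * Z * α + α * Z * s + α * Z * α := by
      rw [hP]
      simp only [Matrix.add_mul, Matrix.mul_add]
      abel
    rw [hU, hV, hell, hbase, h1, h2, h3, hP]
    module
  rw [hmain]
  have nd : ‖d‖ ≤ c := (norm_blocks_le hB.symD).trans hB.nD
  have ns : ‖s‖ ≤ c := (norm_blocks_le hB.symS).trans hB.nS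
  have hcp : (1 : ℝ) ≤ c ^ 6 := one_le_pow₀ hc1
  have n1 : ‖(1 / 2 : ℝ) • (α * d * α)‖ ≤ 1 / 2 * (r * c * r) := by
    rw [norm_smul, Real.norm_of_nonneg (by norm_num)]
    refine mul_le_mul_of_nonneg_left ?_ (by norm_num)
    refine (norm_mul_le _ _).trans (mul_le_mul ?_ hαr (norm_nonneg _) (by positivity))
    exact (norm_mul_le _ _).trans (mul_le_mul hαr nd (norm_nonneg _) hr0)
  have n2 : ‖(1 / 2 : ℝ) • (s * Z * α + α * Z * s + α * Z * α)‖ ≤
      1 / 2 * (c * (2 * c ^ 3 * r) * r + r * (2 * c ^ 3 * r) * c + r * (2 * c ^ 3 * r) * r) := by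
    rw [norm_smul, Real.norm_of_nonneg (by norm_num)]
    refine mul_le_mul_of_nonneg_left ?_ (by norm_num)
    refine (norm_add_le _ _).trans (add_le_add ((norm_add_le _ _).trans (add_le_add ?_ ?_)) ?_)
    · refine (norm_mul_le _ _).trans (mul_le_mul ?_ hαr (norm_nonneg _) (by positivity))
      exact (norm_mul_le _ _).trans (mul_le_mul ns nZ (norm_nonneg _) hc0.le)
    · refine (norm_mul_le _ _).trans (mul_le_mul ?_ ns (norm_nonneg _) (by positivity))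
      exact (norm_mul_le _ _).trans (mul_le_mul hαr nZ (norm_nonneg _) hr0)
    · refine (norm_mul_le _ _).trans (mul_le_mul ?_ hαr (norm_nonneg _) (by positivity))
      exact (norm_mul_le _ _).trans (mul_le_mul hαr nZ (norm_nonneg _) hr0)
  have n3 : ‖(1 / 2 : ℝ) • (P * E2 * P)‖ ≤
      1 / 2 * ((3 / 2 * c) * (15 * c ^ 8 * (τ + r) ^ 2) * (3 / 2 * c)) := by
    rw [norm_smul, Real.norm_of_nonneg (by norm_num)]
    refine mul_le_mul_of_nonneg_left ?_ (by norm_num)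
    refine (norm_mul_le _ _).trans (mul_le_mul ?_ nP (norm_nonneg _) (by positivity))
    exact (norm_mul_le _ _).trans (mul_le_mul nP nE2 (norm_nonneg _) (by positivity))
  have n4 : ‖(1 / 4 : ℝ) • E3‖ ≤ 1 / 4 * (10 * c ^ 2 * (τ + r) ^ 2) := by
    rw [norm_smul, Real.norm_of_nonneg (by norm_num)]
    exact mul_le_mul_of_nonneg_left nE3 (by norm_num)
  refine (norm_add_le _ _).trans ?_
  refine (add_le_add ((norm_sub_le _ _).trans (add_le_add ((norm_sub_le _ _).trans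
    (add_le_add n1 n2)) n3)) n4).trans ?_
  set Q := (τ + r) ^ 2 with hQ
  have hQ0 : 0 ≤ Q := by positivity
  have t2 : r ^ 2 ≤ Q := pow_le_pow_left₀ hr0 (by linarith) 2
  have u1 : c * r ^ 2 ≤ c ^ 10 * Q := by
    refine mul_le_mul ?_ t2 (by positivity) (by positivity)
    calc c = c ^ 1 := (pow_one c).symm
      _ ≤ c ^ 10 := pow_le_pow_right₀ hc1 (by norm_num)
  have u2 : c ^ 3 * r ^ 2 ≤ c ^ 10 * Q :=
    mul_le_mul (pow_le_pow_right₀ hc1 (by norm_num)) t2 (by positivity) (by positivity)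
  have u6 : c ^ 4 * r ^ 2 ≤ c ^ 10 * Q :=
    mul_le_mul (pow_le_pow_right₀ hc1 (by norm_num)) t2 (by positivity) (by positivity)
  have u3 : c ^ 3 * r ^ 2 * r ≤ c ^ 10 * Q * (1 / 2) :=
    mul_le_mul u2 hr2 hr0 (by positivity)
  have u4 : c ^ 2 * Q ≤ c ^ 10 * Q :=
    mul_le_mul_of_nonneg_right (pow_le_pow_right₀ hc1 (by norm_num)) hQ0
  have u5 : 0 ≤ c ^ 10 * Q := by positivity
  have e1 : 1 / 2 * (r * c * r) = 1 / 2 * (c * r ^ 2) := by ring
  have e2' : 1 / 2 * (c * (2 * c ^ 3 * r) * r + r * (2 * c ^ 3 * r) * c +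
      r * (2 * c ^ 3 * r) * r) = 2 * (c ^ 4 * r ^ 2) + c ^ 3 * r ^ 2 * r := by ring
  have e3' : 1 / 2 * ((3 / 2 * c) * (15 * c ^ 8 * Q) * (3 / 2 * c)) = 135 / 8 * (c ^ 10 * Q) := by
    ring
  have e4' : 1 / 4 * (10 * c ^ 2 * Q) = 5 / 2 * (c ^ 2 * Q) := by ring
  rw [e1, e2', e3', e4']
  linarith

end Pool.Agent.EinG
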