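import Pool.Agent.EinG.BlkL

/-!
# The trace form on powers

`TH2 T U x y = - trace (ad x ∘ T ∘ ad y ∘ U)` on `Fin q → M`.  The block of `Op q A B` at `(a, b)` is `δ_ab A + (1/q) (B - A)`, and `ad x` is
block diagonal, so (`piLie_trace` in `EStab/PiLie.lean`)
`TH2 (Op A B) (Op A' B') x x = ∑_{a,b} t(x_a, T_ab, x_b, U_ba)`, i.e.
`= ∑_a (TH2 A A' + (1/q) TH2 A (B' - A') + (1/q) TH2 (B - A) A') (x_a, x_a) + (1/q²) TH2 (B - A) (B' - A') (∑ x, ∑ x)`.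
With `x_a = w_a + v`, `v = av x`, `∑ w_a = 0`, the forms are quadratic, `∑_a F(x_a) = ∑_a F(w_a) + q F(v)`, `∑ x = q v`.
`TH2 A (sc t) u u = t TH A u u`, `TH2 (sc t) A u u = t TH A u u` (cyclicity of the trace), `TH (sc t) u u = t Qf u u` (Killing form).
-/

namespace Pool.Agent.EinG

open Pool.Agent.EStab Pool.Agent.EinS Pool.Agent.SmIso Pool.Agent.EinU

variable {M : Type} [LieRing M] [LieAlgebra ℝ M] {q : ℕ}

private theorem OpTH_left (T U : M →ₗ[ℝ] M) (x x' y : M) :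
    TH2 T U (x + x') y = TH2 T U x y + TH2 T U x' y := by
  unfold TH2
  have h : (LieAlgebra.ad ℝ M (x + x') : M →ₗ[ℝ] M) ∘ₗ T ∘ₗ
      (LieAlgebra.ad ℝ M y : M →ₗ[ℝ] M) ∘ₗ U =
      (LieAlgebra.ad ℝ M x : M →ₗ[ℝ] M) ∘ₗ T ∘ₗ (LieAlgebra.ad ℝ M y : M →ₗ[ℝ] M) ∘ₗ U +
      (LieAlgebra.ad ℝ M x' : M →ₗ[ℝ] M) ∘ₗ T ∘ₗ (LieAlgebra.ad ℝ M y : M →ₗ[ℝ] M) ∘ₗ U := by
    refine LinearMap.ext fun z => ?_
    change ⁅x + x', T ⁅y, U z⁆⁆ = ⁅x, T ⁅y, U z⁆⁆ + ⁅x', T ⁅y, U z⁆⁆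
    rw [add_lie]
  rw [h, map_add]
  ring

private theorem OpTH_right (T U : M →ₗ[ℝ] M) (x y y' : M) :
    TH2 T U x (y + y') = TH2 T U x y + TH2 T U x y' := by
  unfold TH2
  have h : (LieAlgebra.ad ℝ M x : M →ₗ[ℝ] M) ∘ₗ T ∘ₗ
      (LieAlgebra.ad ℝ M (y + y') : M →ₗ[ℝ] M) ∘ₗ U =
      (LieAlgebra.ad ℝ M x : M →ₗ[ℝ] M) ∘ₗ T ∘ₗ (LieAlgebra.ad ℝ M y : M →ₗ[ℝ] M) ∘ₗ U +
      (LieAlgebra.ad ℝ M x : M →ₗ[ℝ] M) ∘ₗ T ∘ₗ (LieAlgebra.ad ℝ M y' : M →ₗ[ℝ] M) ∘ₗ U := by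
    refine LinearMap.ext fun z => ?_
    change ⁅x, T ⁅y + y', U z⁆⁆ = ⁅x, T ⁅y, U z⁆⁆ + ⁅x, T ⁅y', U z⁆⁆
    rw [add_lie, map_add, lie_add]
  rw [h, map_add]
  ring

private theorem OpTH_lsmul (T U : M →ₗ[ℝ] M) (c : ℝ) (x y : M) :
    TH2 T U (c • x) y = c * TH2 T U x y := by
  unfold TH2
  have h : (LieAlgebra.ad ℝ M (c • x) : M →ₗ[ℝ] M) ∘ₗ T ∘ₗ
      (LieAlgebra.ad ℝ M y : M →ₗ[ℝ] M) ∘ₗ U =
      c • ((LieAlgebra.ad ℝ M x : M →ₗ[ℝ] M) ∘ₗ T ∘ₗ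
        (LieAlgebra.ad ℝ M y : M →ₗ[ℝ] M) ∘ₗ U) := by
    refine LinearMap.ext fun z => ?_
    change ⁅c • x, T ⁅y, U z⁆⁆ = c • ⁅x, T ⁅y, U z⁆⁆
    rw [smul_lie]
  rw [h, map_smul, smul_eq_mul]
  ring

private theorem OpTH_rsmul (T U : M →ₗ[ℝ] M) (c : ℝ) (x y : M) :
    TH2 T U x (c • y) = c * TH2 T U x y := by
  unfold TH2
  have h : (LieAlgebra.ad ℝ M x : M →ₗ[ℝ] M) ∘ₗ T ∘ₗ
      (LieAlgebra.ad ℝ M (c • y) : M →ₗ[ℝ] M) ∘ₗ U =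
      c • ((LieAlgebra.ad ℝ M x : M →ₗ[ℝ] M) ∘ₗ T ∘ₗ
        (LieAlgebra.ad ℝ M y : M →ₗ[ℝ] M) ∘ₗ U) := by
    refine LinearMap.ext fun z => ?_
    change ⁅x, T ⁅c • y, U z⁆⁆ = c • ⁅x, T ⁅y, U z⁆⁆
    rw [smul_lie, map_smul, lie_smul]
  rw [h, map_smul, smul_eq_mul]
  ring

/-- `TH2` as a bilinear form -/
private noncomputable def OpTH_bil (T U : M →ₗ[ℝ] M) : LinearMap.BilinForm ℝ M :=
  LinearMap.mk₂ ℝ (fun x y => TH2 T U x y) (fun x x' y => OpTH_left T U x x' y)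
    (fun c x y => OpTH_lsmul T U c x y) (fun x y y' => OpTH_right T U x y y')
    (fun c x y => OpTH_rsmul T U c x y)

private theorem OpTH_bil_apply (T U : M →ₗ[ℝ] M) (x y : M) : OpTH_bil T U x y = TH2 T U x y := rfl

private theorem OpTH_addU (T U U' : M →ₗ[ℝ] M) (x y : M) :
    TH2 T (U + U') x y = TH2 T U x y + TH2 T U' x y := by
  unfold TH2
  have h : (LieAlgebra.ad ℝ M x : M →ₗ[ℝ] M) ∘ₗ T ∘ₗ
      (LieAlgebra.ad ℝ M y : M →ₗ[ℝ] M) ∘ₗ (U + U') =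
      (LieAlgebra.ad ℝ M x : M →ₗ[ℝ] M) ∘ₗ T ∘ₗ (LieAlgebra.ad ℝ M y : M →ₗ[ℝ] M) ∘ₗ U +
      (LieAlgebra.ad ℝ M x : M →ₗ[ℝ] M) ∘ₗ T ∘ₗ (LieAlgebra.ad ℝ M y : M →ₗ[ℝ] M) ∘ₗ U' := by
    refine LinearMap.ext fun z => ?_
    change ⁅x, T ⁅y, U z + U' z⁆⁆ = ⁅x, T ⁅y, U z⁆⁆ + ⁅x, T ⁅y, U' z⁆⁆
    rw [lie_add, map_add, lie_add]
  rw [h, map_add]
  ring

private theorem OpTH_smulU (T U : M →ₗ[ℝ] M) (c : ℝ) (x y : M) :
    TH2 T (c • U) x y = c * TH2 T U x y := by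
  unfold TH2
  have h : (LieAlgebra.ad ℝ M x : M →ₗ[ℝ] M) ∘ₗ T ∘ₗ
      (LieAlgebra.ad ℝ M y : M →ₗ[ℝ] M) ∘ₗ (c • U) =
      c • ((LieAlgebra.ad ℝ M x : M →ₗ[ℝ] M) ∘ₗ T ∘ₗ
        (LieAlgebra.ad ℝ M y : M →ₗ[ℝ] M) ∘ₗ U) := by
    refine LinearMap.ext fun z => ?_
    change ⁅x, T ⁅y, c • U z⁆⁆ = c • ⁅x, T ⁅y, U z⁆⁆
    rw [lie_smul, map_smul, lie_smul]
  rw [h, map_smul, smul_eq_mul]
  ring

private theorem OpTH_addT (T T' U : M →ₗ[ℝ] M) (x y : M) :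
    TH2 (T + T') U x y = TH2 T U x y + TH2 T' U x y := by
  unfold TH2
  have h : (LieAlgebra.ad ℝ M x : M →ₗ[ℝ] M) ∘ₗ (T + T') ∘ₗ
      (LieAlgebra.ad ℝ M y : M →ₗ[ℝ] M) ∘ₗ U =
      (LieAlgebra.ad ℝ M x : M →ₗ[ℝ] M) ∘ₗ T ∘ₗ (LieAlgebra.ad ℝ M y : M →ₗ[ℝ] M) ∘ₗ U +
      (LieAlgebra.ad ℝ M x : M →ₗ[ℝ] M) ∘ₗ T' ∘ₗ (LieAlgebra.ad ℝ M y : M →ₗ[ℝ] M) ∘ₗ U := by
    refine LinearMap.ext fun z => ?_
    change ⁅x, T ⁅y, U z⁆ + T' ⁅y, U z⁆⁆ = ⁅x, T ⁅y, U z⁆⁆ + ⁅x, T' ⁅y, U z⁆⁆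
    rw [lie_add]
  rw [h, map_add]
  ring

private theorem OpTH_smulT (T U : M →ₗ[ℝ] M) (c : ℝ) (x y : M) :
    TH2 (c • T) U x y = c * TH2 T U x y := by
  unfold TH2
  have h : (LieAlgebra.ad ℝ M x : M →ₗ[ℝ] M) ∘ₗ (c • T) ∘ₗ
      (LieAlgebra.ad ℝ M y : M →ₗ[ℝ] M) ∘ₗ U =
      c • ((LieAlgebra.ad ℝ M x : M →ₗ[ℝ] M) ∘ₗ T ∘ₗ
        (LieAlgebra.ad ℝ M y : M →ₗ[ℝ] M) ∘ₗ U) := by
    refine LinearMap.ext fun z => ?_
    change ⁅x, c • T ⁅y, U z⁆⁆ = c • ⁅x, T ⁅y, U z⁆⁆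
    rw [lie_smul]
  rw [h, map_smul, smul_eq_mul]
  ring

private theorem OpTH_subT (T T' U : M →ₗ[ℝ] M) (x y : M) :
    TH2 (T - T') U x y = TH2 T U x y - TH2 T' U x y := by
  have h := OpTH_addT (T - T') T' U x y
  rw [sub_add_cancel] at h
  rw [h]
  ring

private theorem OpTH_subU (T U U' : M →ₗ[ℝ] M) (x y : M) :
    TH2 T (U - U') x y = TH2 T U x y - TH2 T U' x y := by
  have h := OpTH_addU T (U - U') U' x y
  rw [sub_add_cancel] at h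
  rw [h]
  ring

/-- the diagonal blocks of `ad z ∘ Op A B ∘ ad z ∘ Op A' B'` -/
private theorem OpTH_blk (A B A' B' : M →ₗ[ℝ] M) (z : Fin q → M) (i : Fin q) :
    LinearMap.proj i ∘ₗ ((LieAlgebra.ad ℝ (Fin q → M) z : (Fin q → M) →ₗ[ℝ] (Fin q → M)) ∘ₗ
      Op q A B ∘ₗ (LieAlgebra.ad ℝ (Fin q → M) z : (Fin q → M) →ₗ[ℝ] (Fin q → M)) ∘ₗ
      Op q A' B') ∘ₗ LinearMap.single ℝ (fun _ : Fin q => M) i =
    (LieAlgebra.ad ℝ M (z i) : M →ₗ[ℝ] M) ∘ₗ A ∘ₗ (LieAlgebra.ad ℝ M (z i) : M →ₗ[ℝ] M) ∘ₗ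
      (A' + (q : ℝ)⁻¹ • (B' - A')) +
    (LieAlgebra.ad ℝ M (z i) : M →ₗ[ℝ] M) ∘ₗ ((q : ℝ)⁻¹ • (B - A)) ∘ₗ
      (LieAlgebra.ad ℝ M (z i) : M →ₗ[ℝ] M) ∘ₗ A' +
    (LieAlgebra.ad ℝ M (z i) : M →ₗ[ℝ] M) ∘ₗ (B - A) ∘ₗ
      (LieAlgebra.ad ℝ M (av z) : M →ₗ[ℝ] M) ∘ₗ ((q : ℝ)⁻¹ • (B' - A')) := by
  refine LinearMap.ext fun u => ?_
  have h1 : av (Pi.single (M := fun _ : Fin q => M) i u) = (q : ℝ)⁻¹ • u := by
    unfold av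
    rw [Finset.sum_pi_single' i u Finset.univ, if_pos (Finset.mem_univ i)]
  have h2 : ∀ b, Op q A' B' (Pi.single (M := fun _ : Fin q => M) i u) b =
      A' (Pi.single (M := fun _ : Fin q => M) i u b) + (q : ℝ)⁻¹ • (B' u - A' u) := by
    intro b
    rw [Op_apply, h1, map_sub, map_smul, map_smul, smul_sub]
    abel
  have h3 : av (fun b => ⁅z b, Op q A' B' (Pi.single (M := fun _ : Fin q => M) i u) b⁆) =
      (q : ℝ)⁻¹ • ⁅z i, A' u⁆ + ⁅av z, (q : ℝ)⁻¹ • (B' u - A' u)⁆ := by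
    unfold av
    have h4 : ∀ b, ⁅z b, Op q A' B' (Pi.single (M := fun _ : Fin q => M) i u) b⁆ =
        (if b = i then ⁅z i, A' u⁆ else 0) + ⁅z b, (q : ℝ)⁻¹ • (B' u - A' u)⁆ := by
      intro b
      rw [h2, lie_add]
      congr 1
      split_ifs with h5
      · subst h5
        rw [Pi.single_eq_same]
      · rw [Pi.single_eq_of_ne h5, map_zero, lie_zero]
    rw [Finset.sum_congr rfl fun b _ => h4 b, Finset.sum_add_distrib, Finset.sum_ite_eq',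
      if_pos (Finset.mem_univ i), smul_add, smul_lie, sum_lie]
  change ⁅z i, Op q A B (fun b => ⁅z b, Op q A' B' (Pi.single (M := fun _ : Fin q => M) i u) b⁆) i⁆ =
    ⁅z i, A ⁅z i, A' u + (q : ℝ)⁻¹ • (B' u - A' u)⁆⁆ +
    ⁅z i, (q : ℝ)⁻¹ • (B ⁅z i, A' u⁆ - A ⁅z i, A' u⁆)⁆ +
    ⁅z i, B ⁅av z, (q : ℝ)⁻¹ • (B' u - A' u)⁆ - A ⁅av z, (q : ℝ)⁻¹ • (B' u - A' u)⁆⁆
  rw [Op_apply, h3, h2, Pi.single_eq_same, ← lie_add, ← lie_add]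
  congr 1
  simp only [map_sub, map_add, map_smul, smul_sub]
  abel

theorem TH2_Op [Module.Finite ℝ M] (hq : 0 < q) (A B A' B' : M →ₗ[ℝ] M) (z : Fin q → M) :
    TH2 (Op q A B) (Op q A' B') z z =
      QF q (fun u => (1 - 2 / q) * TH2 A A' u u + 1 / q * (TH2 A B' u u + TH2 B A' u u))
        (fun u => (1 - 1 / q) * TH2 A A' u u + 1 / q * TH2 B B' u u) z := by
  have hq' : (q : ℝ) ≠ 0 := by
    exact_mod_cast hq.ne'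
  have h1 : TH2 (Op q A B) (Op q A' B') z z =
      ∑ i, (TH2 A (A' + (q : ℝ)⁻¹ • (B' - A')) (z i) (z i) +
        TH2 ((q : ℝ)⁻¹ • (B - A)) A' (z i) (z i) +
        TH2 (B - A) ((q : ℝ)⁻¹ • (B' - A')) (z i) (av z)) := by
    unfold TH2
    rw [piLie_trace (V := fun _ : Fin q => M), ← Finset.sum_neg_distrib]
    refine Finset.sum_congr rfl fun i _ => ?_
    rw [OpTH_blk, map_add, map_add]
    ring
  have h2 : ∑ i, (z i - av z) = 0 := by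
    rw [Finset.sum_sub_distrib, Finset.sum_const, Finset.card_univ, Fintype.card_fin]
    unfold av
    rw [← Nat.cast_smul_eq_nsmul ℝ, smul_smul, mul_inv_cancel₀ hq', one_smul, sub_self]
  have h3 : ∀ T U : M →ₗ[ℝ] M, ∑ i, TH2 T U (z i) (z i) =
      ∑ i, TH2 T U (z i - av z) (z i - av z) + q * TH2 T U (av z) (av z) := by
    intro T U
    have h4 : ∀ i, TH2 T U (z i) (z i) = TH2 T U (z i - av z) (z i - av z) +
        OpTH_bil T U (z i - av z) (av z) + OpTH_bil T U (av z) (z i - av z) +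
        TH2 T U (av z) (av z) := by
      intro i
      have h5 : TH2 T U (z i) (z i) =
          OpTH_bil T U ((z i - av z) + av z) ((z i - av z) + av z) := by
        rw [sub_add_cancel]
        rfl
      rw [h5, map_add, map_add, LinearMap.add_apply, LinearMap.add_apply, ← OpTH_bil_apply,
        ← OpTH_bil_apply]
      ring
    rw [Finset.sum_congr rfl fun i _ => h4 i, Finset.sum_add_distrib, Finset.sum_add_distrib,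
      Finset.sum_add_distrib, ← map_sum, h2, map_zero, add_zero, Finset.sum_const,
      Finset.card_univ, Fintype.card_fin, nsmul_eq_mul]
    have h6 : ∑ i, OpTH_bil T U (z i - av z) (av z) = 0 := by
      have h7 : OpTH_bil T U (∑ i, (z i - av z)) (av z) =
          ∑ i, OpTH_bil T U (z i - av z) (av z) := by
        rw [map_sum, LinearMap.sum_apply]
      rw [← h7, h2, map_zero, LinearMap.zero_apply]
    rw [h6, add_zero]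
  have h8 : ∀ T U : M →ₗ[ℝ] M, ∑ i, TH2 T U (z i) (av z) = q * TH2 T U (av z) (av z) := by
    intro T U
    have h9 : ∑ i, TH2 T U (z i) (av z) = OpTH_bil T U (∑ i, z i) (av z) := by
      rw [map_sum, LinearMap.sum_apply]
      rfl
    have h10 : ∑ i, z i = (q : ℝ) • av z := by
      unfold av
      rw [smul_smul, mul_inv_cancel₀ hq', one_smul]
    rw [h9, h10, map_smul, LinearMap.smul_apply, smul_eq_mul]
    rfl
  rw [h1, Finset.sum_add_distrib, Finset.sum_add_distrib, h3, h3, h8]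
  unfold QF
  simp only [OpTH_addU, OpTH_smulU, OpTH_smulT, OpTH_subU, OpTH_subT]
  simp only [Finset.sum_add_distrib, Finset.sum_sub_distrib, ← Finset.mul_sum]
  field_simp
  ring

theorem TH2_sc_right (A : M →ₗ[ℝ] M) (t : ℝ) (u : M) : TH2 A (sc M t) u u = t * TH A u u := by
  have h := OpTH_smulU A LinearMap.id t u u
  exact h

theorem TH2_sc_left (A : M →ₗ[ℝ] M) (t : ℝ) (u : M) : TH2 (sc M t) A u u = t * TH A u u := by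
  have h := OpTH_smulT LinearMap.id A t u u
  refine h.trans ?_
  congr 1
  unfold TH2 TH
  congr 1
  exact LinearMap.trace_mul_comm ℝ (LieAlgebra.ad ℝ M u : M →ₗ[ℝ] M)
    ((LieAlgebra.ad ℝ M u : M →ₗ[ℝ] M) ∘ₗ A)

theorem TH_sc (t : ℝ) (u : M) : TH (sc M t) u u = t * Qf M u u := by
  have h := OpTH_smulT LinearMap.id LinearMap.id t u u
  refine h.trans ?_
  congr 1

theorem TH_zero_neg (A : M →ₗ[ℝ] M) : TH A 0 0 = 0 ∧ ∀ u, TH A (-u) (-u) = TH A u u := by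
  have h : ∀ x y, TH A x y = OpTH_bil A LinearMap.id x y := fun _ _ => rfl
  refine ⟨?_, fun u => ?_⟩
  · rw [h, map_zero]
  · rw [h, h, map_neg, map_neg, LinearMap.neg_apply, neg_neg]

end Pool.Agent.EinG
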