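import Mathlib

/-!
# A quadratic polynomial of an endomorphism

Let `a = 12q² + 36q + 32 > 0`, `b = 16q² + 50q + 38`, `d = 5q² + 18q + 9`, `p(t) = a t² - b t + d`.
* `p(2/3) = -(1/3) q² + (2/3) q - 19/9 < 0`, so `p` has two real roots `r₁, r₂`, `a Φ² - b Φ + d = a (Φ - r₁)(Φ - r₂)`.  If this
  kills `v ≠ 0`, then `r₂` is an eigenvalue of `Φ` (if `(Φ - r₂) v = 0`) or `r₁` is one.
* `Φ` has finitely many eigenvalues (finite dimension).  For a fixed real `t`, `p(t) = (2t-1)(6t-5) q² + (36t²-50t+18) q + (32t²-38t+9)`;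
  if `(2t-1)(6t-5) ≠ 0` it is nonzero for all large `q`; for `t = 1/2` it is `2q - 2`, for `t = 5/6` it is `(4/3) q - 4/9`: nonzero for large `q`.
  So there is `p0` such that `p(t) ≠ 0` for all `q ≥ p0` and all eigenvalues `t` of `Φ`; take `p0 ≥ 2`.
-/

namespace Pool.Agent.EinG

private theorem Spec_poly (A B C : ℝ) (h : A ≠ 0 ∨ B ≠ 0) : ∃ N : ℕ, ∀ q : ℕ, N ≤ q →
    A * (q : ℝ) ^ 2 + B * q + C ≠ 0 := by
  by_cases hA : A = 0
  · have hB : B ≠ 0 := by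
      rcases h with h | h
      · exact absurd hA h
      · exact h
    obtain ⟨N, hN⟩ := exists_nat_gt (|C| / |B|)
    refine ⟨N, fun q hq h0 => ?_⟩
    have h1 : |B| * q = |C| := by
      have h3 : B * q = -C := by
        rw [hA] at h0
        linarith
      rw [← Nat.abs_cast q, ← abs_mul, h3, abs_neg]
    have h2 : |C| / |B| < q := lt_of_lt_of_le hN (by exact_mod_cast hq)
    rw [div_lt_iff₀ (abs_pos.2 hB)] at h2
    linarith [mul_comm |B| (q : ℝ)]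
  · obtain ⟨N, hN⟩ := exists_nat_gt ((|B| + |C|) / |A|)
    refine ⟨N + 1, fun q hq h0 => ?_⟩
    have hq1 : (1 : ℝ) ≤ q := by exact_mod_cast (by omega : 1 ≤ q)
    have h2 : (|B| + |C|) / |A| < q := lt_of_lt_of_le hN (by exact_mod_cast (by omega : N ≤ q))
    rw [div_lt_iff₀ (abs_pos.2 hA)] at h2
    have h3 : |A| * (q : ℝ) ^ 2 ≤ |B| * q + |C| := by
      have h4 : A * (q : ℝ) ^ 2 = -(B * q + C) := by linarith
      calc |A| * (q : ℝ) ^ 2 = |A * (q : ℝ) ^ 2| := by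
            rw [abs_mul, abs_of_nonneg (by positivity : (0 : ℝ) ≤ (q : ℝ) ^ 2)]
        _ = |B * q + C| := by rw [h4, abs_neg]
        _ ≤ |B * q| + |C| := abs_add_le _ _
        _ = |B| * q + |C| := by rw [abs_mul, Nat.abs_cast]
    have h5 : (|B| + |C|) * q < q * |A| * q := mul_lt_mul_of_pos_right h2 (by linarith)
    have h6 : |C| ≤ |C| * q := le_mul_of_one_le_right (abs_nonneg C) hq1
    nlinarith

theorem spec_bound {V : Type*} [AddCommGroup V] [Module ℝ V] [FiniteDimensional ℝ V]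
    (Φ : V →ₗ[ℝ] V) : ∃ p0 : ℕ, 2 ≤ p0 ∧ ∀ q : ℕ, p0 ≤ q → ∀ v : V,
    (12 * (q : ℝ) ^ 2 + 36 * q + 32) • Φ (Φ v) - (16 * (q : ℝ) ^ 2 + 50 * q + 38) • Φ v +
      (5 * (q : ℝ) ^ 2 + 18 * q + 9) • v = 0 → v = 0 := by
  classical
  have hfin : {t : ℝ | Module.End.HasEigenvalue Φ t}.Finite := Module.End.finite_hasEigenvalue Φ
  have hN : ∀ t : ℝ, ∃ N : ℕ, ∀ q : ℕ, N ≤ q →
      (12 * t ^ 2 - 16 * t + 5) * (q : ℝ) ^ 2 + (36 * t ^ 2 - 50 * t + 18) * q +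
        (32 * t ^ 2 - 38 * t + 9) ≠ 0 := by
    intro t
    refine Spec_poly _ _ _ ?_
    by_contra hcon
    push Not at hcon
    obtain ⟨h1, h2⟩ := hcon
    nlinarith
  choose N hN using hN
  refine ⟨hfin.toFinset.sup N + 2, by omega, fun q hq v hv => ?_⟩
  by_contra hv0
  have key : ∀ t : ℝ, Module.End.HasEigenvalue Φ t →
      (12 * (q : ℝ) ^ 2 + 36 * q + 32) * t ^ 2 - (16 * (q : ℝ) ^ 2 + 50 * q + 38) * t +
      (5 * (q : ℝ) ^ 2 + 18 * q + 9) ≠ 0 := by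
    intro t ht h0
    have h1 : N t ≤ hfin.toFinset.sup N := Finset.le_sup (f := N) (hfin.mem_toFinset.2 ht)
    refine hN t q (by omega) ?_
    linarith
  obtain ⟨a, ha⟩ : ∃ a : ℝ, a = 12 * (q : ℝ) ^ 2 + 36 * q + 32 := ⟨_, rfl⟩
  obtain ⟨b, hb⟩ : ∃ b : ℝ, b = 16 * (q : ℝ) ^ 2 + 50 * q + 38 := ⟨_, rfl⟩
  obtain ⟨d, hd⟩ : ∃ d : ℝ, d = 5 * (q : ℝ) ^ 2 + 18 * q + 9 := ⟨_, rfl⟩
  rw [← ha, ← hb, ← hd] at hv
  simp only [← ha, ← hb, ← hd] at key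
  have hq0 : (0 : ℝ) ≤ q := Nat.cast_nonneg q
  have ha0 : 0 < a := by rw [ha]; positivity
  have hdisc : 0 ≤ b ^ 2 - 4 * a * d := by
    have : b ^ 2 - 4 * a * d = 16 * (q : ℝ) ^ 4 + 16 * (q : ℝ) ^ 3 + 52 * (q : ℝ) ^ 2 +
        200 * q + 292 := by
      rw [ha, hb, hd]
      ring
    rw [this]
    positivity
  obtain ⟨s, hs⟩ : ∃ s : ℝ, s = Real.sqrt (b ^ 2 - 4 * a * d) := ⟨_, rfl⟩
  have hs2 : s ^ 2 = b ^ 2 - 4 * a * d := by rw [hs, Real.sq_sqrt hdisc]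
  obtain ⟨r1, hr1⟩ : ∃ r : ℝ, r = (b + s) / (2 * a) := ⟨_, rfl⟩
  obtain ⟨r2, hr2⟩ : ∃ r : ℝ, r = (b - s) / (2 * a) := ⟨_, rfl⟩
  have hsum : a * (r1 + r2) = b := by
    rw [hr1, hr2]
    field_simp
    ring
  have hprod : a * (r1 * r2) = d := by
    rw [hr1, hr2]
    field_simp
    linarith
  have hroot1 : a * r1 ^ 2 - b * r1 + d = 0 := by
    rw [← hsum, ← hprod]
    ring
  have hroot2 : a * r2 ^ 2 - b * r2 + d = 0 := by
    rw [← hsum, ← hprod]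
    ring
  by_cases hw : Φ v - r2 • v = 0
  · refine key r2 ?_ hroot2
    exact Module.End.hasEigenvalue_of_hasEigenvector (x := v)
      ⟨Module.End.mem_eigenspace_iff.2 (sub_eq_zero.1 hw), hv0⟩
  · refine key r1 ?_ hroot1
    refine Module.End.hasEigenvalue_of_hasEigenvector (x := Φ v - r2 • v)
      ⟨Module.End.mem_eigenspace_iff.2 ?_, hw⟩
    have h1 : a • (Φ (Φ v - r2 • v) - r1 • (Φ v - r2 • v)) = 0 := by
      rw [← hv, ← hsum, ← hprod, map_sub, map_smul]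
      module
    exact sub_eq_zero.1 ((smul_eq_zero.1 h1).resolve_left ha0.ne')

end Pool.Agent.EinG
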